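import Mathlib

set_option autoImplicit false

namespace Pool.Agent.Helper7

open TensorProduct

section exact

/-- Determinants are multiplicative in short exact sequences of free modules. -/
theorem det_of_exact {R : Type*} [CommRing R] {M' M M'' : Type*}
    [AddCommGroup M'] [Module R M'] [AddCommGroup M] [Module R M] [AddCommGroup M''] [Module R M'']
    [Module.Free R M'] [Module.Finite R M'] [Module.Free R M''] [Module.Finite R M'']
    (i : M' →ₗ[R] M) (π : M →ₗ[R] M'') (hi : Function.Injective i) (hπ : Function.Surjective π)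
    (hex : Function.Exact i π) (T' : M' →ₗ[R] M') (T : M →ₗ[R] M) (T'' : M'' →ₗ[R] M'')
    (h1 : T ∘ₗ i = i ∘ₗ T') (h2 : π ∘ₗ T = T'' ∘ₗ π) :
    LinearMap.det T = LinearMap.det T' * LinearMap.det T'' := by
  set W : Submodule R M := LinearMap.range i with hW
  let eW : M' ≃ₗ[R] W := LinearEquiv.ofInjective i hi
  have hker : LinearMap.ker π = W := by
    ext x
    rw [LinearMap.mem_ker, hW, LinearMap.mem_range]
    exact hex x
  let eQ : (M ⧸ W) ≃ₗ[R] M'' :=
    (Submodule.quotEquivOfEq _ _ hker.symm).trans (LinearMap.quotKerEquivOfSurjective π hπ)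
  have : Module.Free R W := Module.Free.of_equiv eW
  have : Module.Finite R W := Module.Finite.equiv eW
  have : Module.Free R (M ⧸ W) := Module.Free.of_equiv eQ.symm
  have : Module.Finite R (M ⧸ W) := Module.Finite.equiv eQ.symm
  have : Module.Finite R M := Module.Finite.of_submodule_quotient W
  have hT : W ≤ W.comap T := by
    rintro _ ⟨x, rfl⟩
    exact ⟨T' x, (LinearMap.congr_fun h1 x).symm⟩
  rw [LinearMap.det_eq_det_mul_det W T hT]
  congr 1
  · rw [← LinearMap.det_conj T' eW]
    congr 1
    ext ⟨_, x, rfl⟩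
    have hx : eW.symm ⟨i x, x, rfl⟩ = x := by
      rw [LinearEquiv.symm_apply_eq]
      rfl
    simp only [LinearMap.comp_apply, LinearEquiv.coe_coe]
    rw [hx]
    exact LinearMap.congr_fun h1 x
  · rw [← LinearMap.det_conj T'' eQ.symm]
    congr 1
    ext x
    simp only [LinearMap.comp_apply, LinearEquiv.coe_coe, LinearEquiv.symm_symm]
    rw [LinearEquiv.eq_symm_apply]
    exact LinearMap.congr_fun h2 x

end exact

section act

variable (p : ℕ) [Fact p.Prime] (A H : Type*) [CommRing A] [Algebra (ZMod p) A] [CommGroup H]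
variable (M : Type*) [AddCommGroup M] [Module A M] [Module (ZMod p) M] [IsScalarTower (ZMod p) A M]

/-- The action of the group ring `A[H]` on `𝔽_p[H] ⊗ M` for an `A`-module `M`. -/
noncomputable def act : MonoidAlgebra A H →+*
    Module.End (MonoidAlgebra (ZMod p) H) (MonoidAlgebra (ZMod p) H ⊗[ZMod p] M) :=
  MonoidAlgebra.liftNCRingHom
    (((Module.End.baseChangeHom (ZMod p) (MonoidAlgebra (ZMod p) H) M).comp
      (Algebra.lsmul (ZMod p) (ZMod p) M : A →ₐ[ZMod p] Module.End (ZMod p) M)).toRingHom)
    ((algebraMap (MonoidAlgebra (ZMod p) H)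
      (Module.End (MonoidAlgebra (ZMod p) H)
        (MonoidAlgebra (ZMod p) H ⊗[ZMod p] M))).toMonoidHom.comp (MonoidAlgebra.of (ZMod p) H))
    (fun _ h => (Algebra.commutes (MonoidAlgebra.of (ZMod p) H h) _).symm)

variable {A H}

theorem act_single (h : H) (a : A) (r : MonoidAlgebra (ZMod p) H) (m : M) :
    act p A H M (MonoidAlgebra.single h a) (r ⊗ₜ[ZMod p] m) =
      (MonoidAlgebra.single h 1 * r) ⊗ₜ[ZMod p] (a • m) := by
  have h1 : act p A H M (MonoidAlgebra.single h a) =
      ((Algebra.lsmul (ZMod p) (ZMod p) M a).baseChange (MonoidAlgebra (ZMod p) H)) *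
      (algebraMap (MonoidAlgebra (ZMod p) H) (Module.End (MonoidAlgebra (ZMod p) H)
        (MonoidAlgebra (ZMod p) H ⊗[ZMod p] M)) (MonoidAlgebra.single h 1)) := by
    simp only [act, MonoidAlgebra.liftNCRingHom]
    exact MonoidAlgebra.liftNC_single _ _ _ _
  rw [h1, Module.End.mul_apply, Module.algebraMap_end_apply, TensorProduct.smul_tmul', smul_eq_mul,
    LinearMap.baseChange_tmul]
  rfl


variable {M}
variable {M' : Type*} [AddCommGroup M'] [Module A M'] [Module (ZMod p) M']
  [IsScalarTower (ZMod p) A M']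

/-- Naturality of the action. -/
theorem act_natural (φ : M →ₗ[A] M') (f : MonoidAlgebra A H) :
    ((φ.restrictScalars (ZMod p)).baseChange (MonoidAlgebra (ZMod p) H)) ∘ₗ act p A H M f =
      act p A H M' f ∘ₗ ((φ.restrictScalars (ZMod p)).baseChange (MonoidAlgebra (ZMod p) H)) := by
  induction f using MonoidAlgebra.induction_linear with
  | zero => simp
  | add f g hf hg =>
    rw [map_add, map_add, LinearMap.comp_add, hf, hg, LinearMap.add_comp]
  | single h a =>
    ext m
    simp [act_single, LinearMap.baseChange_tmul]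

/-- The determinant of the action of a group ring element on a finite module. -/
noncomputable def Δ (f : MonoidAlgebra A H) (M : Type*) [AddCommGroup M] [Module A M]
    [Module (ZMod p) M] [IsScalarTower (ZMod p) A M] : MonoidAlgebra (ZMod p) H :=
  LinearMap.det (act p A H M f)

theorem Δ_mul (f g : MonoidAlgebra A H) (M : Type*) [AddCommGroup M] [Module A M]
    [Module (ZMod p) M] [IsScalarTower (ZMod p) A M] :
    Δ p (f * g) M = Δ p f M * Δ p g M := by
  rw [Δ, map_mul, map_mul]; rfl

variable {M'' : Type*} [AddCommGroup M''] [Module A M''] [Module (ZMod p) M'']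
  [IsScalarTower (ZMod p) A M'']

theorem Δ_exact [Finite M] [Finite M''] (i : M' →ₗ[A] M) (π : M →ₗ[A] M'')
    (hi : Function.Injective i) (hπ : Function.Surjective π) (hex : Function.Exact i π)
    (f : MonoidAlgebra A H) : Δ p f M = Δ p f M' * Δ p f M'' := by
  have : Finite M' := Finite.of_injective i hi
  have : Module.Finite (ZMod p) M' := inferInstance
  have : Module.Finite (ZMod p) M'' := inferInstance
  refine det_of_exact ((i.restrictScalars (ZMod p)).baseChange _)
    ((π.restrictScalars (ZMod p)).baseChange _) ?_ ?_ ?_ _ _ _ (act_natural p i f).symm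
    (act_natural p π f)
  · exact Module.Flat.lTensor_preserves_injective_linearMap (i.restrictScalars (ZMod p)) hi
  · exact LinearMap.lTensor_surjective _ (g := π.restrictScalars (ZMod p)) hπ
  · exact lTensor_exact (MonoidAlgebra (ZMod p) H) (f := i.restrictScalars (ZMod p))
      (g := π.restrictScalars (ZMod p)) hex hπ

theorem Δ_congr (e : M ≃ₗ[A] M') (f : MonoidAlgebra A H) : Δ p f M = Δ p f M' := by
  rw [Δ, Δ, ← LinearMap.det_conj (act p A H M f)
    ((e.restrictScalars (ZMod p)).baseChange (ZMod p) (MonoidAlgebra (ZMod p) H) M M')]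
  congr 1
  have h := act_natural p e.toLinearMap f
  refine LinearMap.ext fun x => ?_
  obtain ⟨y, rfl⟩ := ((e.restrictScalars (ZMod p)).baseChange (ZMod p)
    (MonoidAlgebra (ZMod p) H) M M').surjective x
  simp only [LinearMap.comp_apply, LinearEquiv.coe_coe, LinearEquiv.symm_apply_apply]
  exact LinearMap.congr_fun h y

end act

section dedekind

theorem exists_exact_quotient {A : Type*} [CommRing A] [IsDedekindDomain A] (I P : Ideal A)
    (hI : I ≠ ⊥) (hP : P ≠ ⊥) [hPp : P.IsPrime] :
    ∃ (i : (A ⧸ P) →ₗ[A] (A ⧸ I * P)) (π : (A ⧸ I * P) →ₗ[A] (A ⧸ I)),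
      Function.Injective i ∧ Function.Surjective π ∧ Function.Exact i π := by
  have hle : I * P ≤ I := Ideal.mul_le_left
  have hlt : I * P < I := by
    refine lt_of_le_of_ne hle fun h => ?_
    have h2 : I * P = I * 1 := by rw [h, mul_one]
    have := mul_left_cancel₀ hI h2
    exact hPp.ne_top (by rw [this, Ideal.one_eq_top])
  obtain ⟨a, haI, haIP⟩ := SetLike.exists_of_lt hlt
  obtain ⟨J, hJ⟩ : I ∣ Ideal.span {a} := by
    rw [Ideal.dvd_iff_le, Ideal.span_singleton_le_iff_mem]; exact haI
  have hPJ : ¬ P ∣ J := by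
    rintro ⟨J', rfl⟩
    apply haIP
    rw [← Ideal.span_singleton_le_iff_mem, ← Ideal.dvd_iff_le, hJ]
    exact ⟨J', by ring⟩
  have hPmax : P.IsMaximal := hPp.isMaximal hP
  have hJP : J ⊔ P = ⊤ := by
    rw [Ideal.dvd_iff_le] at hPJ
    refine hPmax.out.2 _ (lt_of_le_of_ne le_sup_right fun h => hPJ ?_)
    rw [h]; exact le_sup_left
  have hprime : Prime P := Ideal.prime_of_isPrime hP hPp
  have key : ∀ x, a * x ∈ I * P → x ∈ P := by
    intro x hx'
    rw [← Ideal.span_singleton_le_iff_mem, ← Ideal.dvd_iff_le,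
      ← Ideal.span_singleton_mul_span_singleton, hJ, mul_assoc,
      mul_dvd_mul_iff_left hI] at hx'
    rcases hprime.dvd_or_dvd hx' with h | h
    · exact absurd h hPJ
    · rwa [Ideal.dvd_iff_le, Ideal.span_singleton_le_iff_mem] at h
  have hI2 : I = Ideal.span {a} ⊔ I * P := by
    rw [hJ, ← Ideal.mul_sup, hJP, Ideal.mul_top]
  refine ⟨Submodule.mapQ P (I * P) (LinearMap.mulLeft A a)
      (show P ≤ Submodule.comap (LinearMap.mulLeft A a) (I * P) from
        fun x hx => Ideal.mul_mem_mul haI hx), Submodule.factor hle, ?_,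
      Submodule.factor_surjective hle, ?_⟩
  · rw [injective_iff_map_eq_zero]
    intro x hx
    induction x using Submodule.Quotient.induction_on with | _ x
    rw [Submodule.mapQ_apply, Submodule.Quotient.mk_eq_zero] at hx
    rw [Submodule.Quotient.mk_eq_zero]
    exact key x hx
  · intro y
    induction y using Submodule.Quotient.induction_on with | _ y
    have hfac : (Submodule.factor hle) (Submodule.Quotient.mk y) = Submodule.Quotient.mk y :=
      Submodule.factor_mk hle y
    rw [hfac, Submodule.Quotient.mk_eq_zero]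
    constructor
    · intro hy
      rw [hI2] at hy
      obtain ⟨c, z, hz, hcz⟩ := Ideal.mem_span_singleton_sup.mp hy
      refine ⟨Submodule.Quotient.mk c, ?_⟩
      rw [Submodule.mapQ_apply, Submodule.Quotient.eq, ← hcz, LinearMap.mulLeft_apply]
      have : a * c - (c * a + z) = - z := by ring
      rw [this]
      exact (I * P).neg_mem hz
    · rintro ⟨x, hx⟩
      induction x using Submodule.Quotient.induction_on with | _ x
      rw [Submodule.mapQ_apply, Submodule.Quotient.eq, LinearMap.mulLeft_apply] at hx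
      have h1 : a * x - y ∈ I := hle hx
      have h2 : a * x ∈ I := I.mul_mem_right x haI
      have : y = a * x - (a * x - y) := by ring
      rw [this]
      exact I.sub_mem h2 h1

theorem card_quotient_mul {A : Type*} [CommRing A] [IsDedekindDomain A] (I P : Ideal A)
    (hI : I ≠ ⊥) (hP : P ≠ ⊥) [P.IsPrime] :
    Nat.card (A ⧸ I * P) = Nat.card (A ⧸ I) * Nat.card (A ⧸ P) := by
  obtain ⟨i, π, hi, hπ, hex⟩ := exists_exact_quotient I P hI hP
  have h1 := Submodule.card_eq_card_quotient_mul_card (LinearMap.ker π)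
  rw [Nat.card_congr (LinearMap.quotKerEquivOfSurjective π hπ).toEquiv] at h1
  rw [h1, mul_comm]
  congr 1
  have : LinearMap.ker π = LinearMap.range i := by
    ext x; exact hex x
  rw [this]
  exact (Nat.card_congr (LinearEquiv.ofInjective i hi).toEquiv).symm

variable (p : ℕ) [Fact p.Prime] {A H : Type*} [CommRing A] [IsDedekindDomain A]
  [Algebra (ZMod p) A] [CommGroup H]

theorem Δ_quotient_mul (f : MonoidAlgebra A H) (I P : Ideal A) (hI : I ≠ ⊥) (hP : P ≠ ⊥)
    [P.IsPrime] [Finite (A ⧸ I * P)] :
    Δ p f (A ⧸ I * P) = Δ p f (A ⧸ P) * Δ p f (A ⧸ I) := by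
  obtain ⟨i, π, hi, hπ, hex⟩ := exists_exact_quotient I P hI hP
  have : Finite (A ⧸ I) := Finite.of_surjective π hπ
  exact Δ_exact p i π hi hπ hex f

end dedekind

end Pool.Agent.Helper7
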