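import Pool.Agent.Helper7.Norm

set_option autoImplicit false

namespace Pool.Agent.Helper7

open TensorProduct

section trace

variable {A B : Type*} [CommRing A] [CommRing B] [Algebra A B] {H : Type*}

/-- The ring homomorphism `B ⊗ B → B`, `x ⊗ y ↦ x · ρ(y)`. -/
noncomputable def theta (ρ : B →+* B) : B ⊗[ℤ] B →+* B :=
  (Algebra.TensorProduct.lift (AlgHom.id ℤ B) ρ.toIntAlgHom (fun _ _ => Commute.all _ _)).toRingHom

theorem theta_tmul (ρ : B →+* B) (x y : B) : theta ρ (x ⊗ₜ y) = x * ρ y := by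
  simp [theta]

theorem exists_theta [Fintype H] [DecidableEq H] (o : H) (ρ : H → B →+* B)
    (ho : ∀ b, ρ o b = b) (hfree : ∀ Q : Ideal B, Q.IsMaximal → ∀ h, h ≠ o → ∃ b, ρ h b - b ∉ Q) :
    ∃ u : B ⊗[ℤ] B, ∀ h, theta (ρ h) u = if h = o then 1 else 0 := by
  have h1 : ∀ h, h ≠ o → ∃ u : B ⊗[ℤ] B, theta (ρ o) u = 1 ∧ theta (ρ h) u = 0 := by
    intro h hh
    have hspan : (1 : B) ∈ Ideal.span (Set.range fun b => ρ h b - b) := by
      rw [← Ideal.eq_top_iff_one]
      by_contra hne
      obtain ⟨Q, hQ, hle⟩ := Ideal.exists_le_maximal _ hne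
      obtain ⟨b, hb⟩ := hfree Q hQ h hh
      exact hb (hle (Ideal.subset_span ⟨b, rfl⟩))
    -- elements of the span are of the form `theta (ρ h) v - theta (ρ o) v`
    have h2 : ∀ x ∈ Ideal.span (Set.range fun b => ρ h b - b),
        ∃ v : B ⊗[ℤ] B, x = theta (ρ h) v - theta (ρ o) v := by
      intro x hx
      refine Submodule.span_induction ?_ ?_ ?_ ?_ hx
      · rintro _ ⟨b, rfl⟩
        exact ⟨1 ⊗ₜ b, by rw [theta_tmul, theta_tmul, one_mul, one_mul, ho]⟩
      · exact ⟨0, by simp⟩
      · rintro x y _ _ ⟨v, rfl⟩ ⟨w, rfl⟩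
        exact ⟨v + w, by rw [map_add, map_add]; ring⟩
      · rintro c x _ ⟨v, rfl⟩
        refine ⟨(c ⊗ₜ 1) * v, ?_⟩
        rw [map_mul, map_mul, theta_tmul, theta_tmul, map_one, map_one, smul_eq_mul]
        ring
    obtain ⟨v, hv⟩ := h2 1 hspan
    refine ⟨(theta (ρ h) v) ⊗ₜ 1 - v, ?_, ?_⟩
    · rw [map_sub, theta_tmul, map_one, mul_one, ← hv]
    · rw [map_sub, theta_tmul, map_one, mul_one, sub_self]
  choose! u hu1 hu2 using h1
  refine ⟨∏ h ∈ Finset.univ.erase o, u h, fun h => ?_⟩
  rw [map_prod]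
  split_ifs with hh
  · subst hh
    exact Finset.prod_eq_one fun j hj => hu1 j (Finset.ne_of_mem_erase hj)
  · exact Finset.prod_eq_zero (Finset.mem_erase.mpr ⟨hh, Finset.mem_univ h⟩) (hu2 h hh)

/-- The trace is surjective for an extension without inertia. -/
theorem exists_trace_one [Algebra.IsIntegral A B] [FaithfulSMul A B] [Fintype H] (o : H)
    (ρ : H → B →ₐ[A] B)
    (ho : ∀ b, ρ o b = b) (htr : ∀ b, ∑ h, ρ h b ∈ (algebraMap A B).range)
    (hfree : ∀ Q : Ideal B, Q.IsMaximal → ∀ h, h ≠ o → ∃ b, ρ h b - b ∉ Q) :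
    ∃ c : B, ∑ h, ρ h c = 1 := by
  classical
  obtain ⟨u, hu⟩ := exists_theta o (fun h => (ρ h : B →+* B)) ho hfree
  let I : Ideal A :=
    { carrier := {x | ∃ b, algebraMap A B x = ∑ h, ρ h b}
      add_mem' := by
        rintro x y ⟨b, hb⟩ ⟨c, hc⟩
        exact ⟨b + c, by simp only [map_add, Finset.sum_add_distrib, hb, hc]⟩
      zero_mem' := ⟨0, by simp⟩
      smul_mem' := by
        rintro a x ⟨b, hb⟩
        refine ⟨algebraMap A B a * b, ?_⟩
        simp only [smul_eq_mul, map_mul, AlgHom.commutes, ← Finset.mul_sum, hb] }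
  have hI : I = ⊤ := by
    by_contra hne
    obtain ⟨P, hP, hle⟩ := Ideal.exists_le_maximal _ hne
    obtain ⟨Q, hQ, hQP⟩ := Ideal.exists_ideal_over_maximal_of_isIntegral (S := B) P
      (by
        rw [(RingHom.injective_iff_ker_eq_bot _).mp (FaithfulSMul.algebraMap_injective A B)]
        exact bot_le)
    refine hQ.ne_top ((Ideal.eq_top_iff_one _).mpr ?_)
    -- every `x ⊗ y` has `∑_h ρ_h(y) x ∈ Q`
    have h1 : ∀ v : B ⊗[ℤ] B, ∑ h, theta (ρ h : B →+* B) v ∈ Q := by
      intro v
      induction v using TensorProduct.induction_on with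
      | zero => simp
      | add x y hx hy =>
        simp only [map_add, Finset.sum_add_distrib]
        exact Q.add_mem hx hy
      | tmul x y =>
        simp only [theta_tmul, ← Finset.mul_sum]
        refine Q.mul_mem_left _ ?_
        obtain ⟨a, ha⟩ := htr y
        have h2 : a ∈ P := hle ⟨y, ha⟩
        have h3 : algebraMap A B a ∈ Q := by
          rw [← hQP] at h2
          exact h2
        rw [ha] at h3
        exact h3
    have := h1 u
    simp only [hu] at this
    simpa using this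
  obtain ⟨c, hc⟩ : (1 : A) ∈ I := hI ▸ Submodule.mem_top
  exact ⟨c, by rw [← hc, map_one]⟩

end trace

section frobUnit

theorem aug_mapRingHom {R S H : Type*} [CommRing R] [CommRing S] [CommGroup H] (φ : R →+* S)
    (x : MonoidAlgebra R H) : aug S H (MonoidAlgebra.mapRingHom H φ x) = φ (aug R H x) := by
  induction x using MonoidAlgebra.induction_linear with
  | zero => simp
  | add x y hx hy => rw [map_add, map_add, hx, hy, map_add, map_add]
  | single h a => rw [MonoidAlgebra.mapRingHom_single, aug_single, aug_single]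

theorem exists_frobUnit (p : ℕ) [Fact p.Prime] {A B : Type*} [CommRing A] [CommRing B]
    [Algebra A B] [FaithfulSMul A B] [CharP B p] {H : Type*} [CommGroup H] [Fintype H] (n : ℕ)
    (hH : ∀ h : H, h ^ p ^ n = 1) (ρ : H →* (B ≃ₐ[A] B))
    (hinv : ∀ b, (∀ h, ρ h b = b) → b ∈ Set.range (algebraMap A B)) (c : B)
    (hc : ∑ h, ρ h c = 1) :
    ∃ (f : MonoidAlgebra A H) (a : MonoidAlgebra B H), aug A H f = 1 ∧ IsUnit a ∧
      MonoidAlgebra.mapRingHom H (algebraMap A B) f * a =
        MonoidAlgebra.mapRingHom H (frobenius B p) a ∧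
      ∀ h : H, MonoidAlgebra.mapRingHom H ((ρ h : B ≃+* B) : B →+* B) a =
        a * MonoidAlgebra.single h 1 := by
  let a : MonoidAlgebra B H := ∑ h, MonoidAlgebra.single h⁻¹ (ρ h c)
  have haug : aug B H a = 1 := by
    simp only [a, map_sum, aug_single, hc]
  have hunit : IsUnit a := isUnit_of_aug p n hH a haug
  have hρ : ∀ h : H, MonoidAlgebra.mapRingHom H ((ρ h : B ≃+* B) : B →+* B) a =
      a * MonoidAlgebra.single h 1 := by
    intro h
    simp only [a, map_sum, MonoidAlgebra.mapRingHom_single, Finset.sum_mul,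
      MonoidAlgebra.single_mul_single, mul_one]
    refine Fintype.sum_equiv (Equiv.mulLeft h) _ _ fun x => ?_
    simp [mul_inv_rev, map_mul]
  let F := MonoidAlgebra.mapRingHom H (frobenius B p)
  obtain ⟨a', ha'⟩ := hunit.exists_right_inv
  obtain ⟨g, hga⟩ : ∃ g : MonoidAlgebra B H, g * a = F a :=
    ⟨F a * a', by rw [mul_assoc, mul_comm a' a, ha', mul_one]⟩
  have hg : ∀ h : H, MonoidAlgebra.mapRingHom H ((ρ h : B ≃+* B) : B →+* B) g = g := by
    intro h
    have h1 := congrArg (MonoidAlgebra.mapRingHom H ((ρ h : B ≃+* B) : B →+* B)) hga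
    have h2 : MonoidAlgebra.mapRingHom H ((ρ h : B ≃+* B) : B →+* B) (F a) =
        F (MonoidAlgebra.mapRingHom H ((ρ h : B ≃+* B) : B →+* B) a) := by
      simp only [F, mapRingHom_mapRingHom]
      congr 2
      ext x
      simp [frobenius_def]
    have h3 : MonoidAlgebra.mapRingHom H ((ρ h : B ≃+* B) : B →+* B) g *
        (a * MonoidAlgebra.single h 1) = g * (a * MonoidAlgebra.single h 1) := by
      calc _ = MonoidAlgebra.mapRingHom H ((ρ h : B ≃+* B) : B →+* B) (g * a) := by
            rw [map_mul, hρ]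
        _ = F a * MonoidAlgebra.single h 1 := by
            rw [h1, h2, hρ, map_mul]; simp [F]
        _ = _ := by rw [← hga, mul_assoc]
    refine (hunit.mul (IsUnit.of_mul_eq_one (a := MonoidAlgebra.single h (1 : B))
      (MonoidAlgebra.single h⁻¹ 1) ?_)).mul_right_cancel h3
    rw [MonoidAlgebra.single_mul_single, mul_inv_cancel, one_mul]
    rfl
  have hrange : g ∈ Set.range (MonoidAlgebra.map (M := H) (algebraMap A B : A →+ B)) := by
    rw [MonoidAlgebra.range_map]
    intro x
    refine hinv _ fun h => ?_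
    have h1 := congrArg (fun y => y.coeff x) (hg h)
    simpa [MonoidAlgebra.coeff_mapRingHom] using h1
  obtain ⟨f, hf⟩ := hrange
  have hf' : MonoidAlgebra.mapRingHom H (algebraMap A B) f = g := hf
  refine ⟨f, a, ?_, hunit, ?_, hρ⟩
  · apply FaithfulSMul.algebraMap_injective A B
    rw [map_one, ← aug_mapRingHom, hf']
    have h1 := congrArg (aug B H) hga
    rw [map_mul, haug, mul_one, aug_mapRingHom, haug, map_one] at h1
    exact h1
  · rw [hf', hga]

end frobUnit

end Pool.Agent.Helper7
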