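import Pool.Agent.Helper7.Recip
import Pool.Agent.Helper7.Unram

set_option autoImplicit false

namespace Pool.Agent.Helper7

open UniqueFactorizationMonoid

section artin

/-- The Artin symbol of an ideal: the product of the Frobenius elements of its prime factors. -/
noncomputable def artin {A H : Type*} [CommRing A] [IsDedekindDomain A] [CommGroup H]
    (σ : Ideal A → H) (I : Ideal A) : H := ((normalizedFactors I).map σ).prod

variable (p : ℕ) [Fact p.Prime] {A H : Type*} [CommRing A] [IsDedekindDomain A]
  [Algebra (ZMod p) A] [CommGroup H]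

theorem Δ_multiset (f : MonoidAlgebra A H) (hfin : ∀ I : Ideal A, I ≠ ⊥ → Finite (A ⧸ I))
    (σ : Ideal A → H)
    (hσ : ∀ P : Ideal A, P.IsPrime → P ≠ ⊥ → Δ p f (A ⧸ P) = MonoidAlgebra.single (σ P) 1)
    (s : Multiset (Ideal A)) (hs : ∀ P ∈ s, P.IsPrime ∧ P ≠ ⊥) :
    s.prod ≠ ⊥ ∧ Δ p f (A ⧸ s.prod) = MonoidAlgebra.single (s.map σ).prod 1 := by
  induction s using Multiset.induction_on with
  | empty =>
    refine ⟨by simp, ?_⟩
    have hsub : Subsingleton (A ⧸ (Multiset.prod (0 : Multiset (Ideal A)))) := by
      rw [Multiset.prod_zero, Ideal.one_eq_top]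
      exact Ideal.Quotient.subsingleton_iff.mpr rfl
    have : Subsingleton (TensorProduct (ZMod p) (MonoidAlgebra (ZMod p) H)
        (A ⧸ (Multiset.prod (0 : Multiset (Ideal A))))) := by
      refine ⟨fun x y => ?_⟩
      have : ∀ z : TensorProduct (ZMod p) (MonoidAlgebra (ZMod p) H)
        (A ⧸ (Multiset.prod (0 : Multiset (Ideal A)))), z = 0 := by
        intro z
        induction z using TensorProduct.induction_on with
        | zero => rfl
        | tmul r m => rw [Subsingleton.elim m 0, TensorProduct.tmul_zero]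
        | add x y hx hy => rw [hx, hy, add_zero]
      rw [this x, this y]
    have hdet : Δ p f (A ⧸ (Multiset.prod (0 : Multiset (Ideal A)))) = 1 := by
      rw [Δ, LinearMap.det_eq_one_of_subsingleton]
    rw [hdet, Multiset.map_zero]
    rfl
  | cons P s ih =>
    obtain ⟨hP, hP0⟩ := hs P (Multiset.mem_cons_self P s)
    obtain ⟨h1, h2⟩ := ih fun Q hQ => hs Q (Multiset.mem_cons_of_mem hQ)
    have h3 : s.prod * P ≠ ⊥ := mul_ne_zero h1 hP0
    rw [Multiset.prod_cons, mul_comm]
    refine ⟨h3, ?_⟩
    have := hfin _ h3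
    rw [Δ_quotient_mul p f _ P h1 hP0, hσ P hP hP0, h2, Multiset.map_cons, Multiset.prod_cons,
      MonoidAlgebra.single_mul_single, mul_one]

theorem Δ_artin (f : MonoidAlgebra A H) (hfin : ∀ I : Ideal A, I ≠ ⊥ → Finite (A ⧸ I))
    (σ : Ideal A → H)
    (hσ : ∀ P : Ideal A, P.IsPrime → P ≠ ⊥ → Δ p f (A ⧸ P) = MonoidAlgebra.single (σ P) 1)
    (I : Ideal A) (hI : I ≠ ⊥) : Δ p f (A ⧸ I) = MonoidAlgebra.single (artin σ I) 1 := by
  have h := (Δ_multiset p f hfin σ hσ (normalizedFactors I) fun P hP => by
    have := prime_of_normalized_factor P hP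
    exact ⟨Ideal.isPrime_of_prime this, this.ne_zero⟩).2
  have h2 : (normalizedFactors I).prod = I := by
    have := prod_normalizedFactors hI
    rwa [associated_iff_eq] at this
  have h3 : ∀ J : Ideal A, J = I → Δ p f (A ⧸ J) = MonoidAlgebra.single (artin σ I) 1 →
      Δ p f (A ⧸ I) = MonoidAlgebra.single (artin σ I) 1 := by
    rintro J rfl h; exact h
  exact h3 _ h2 h

end artin

section generic

variable (p : ℕ) [Fact p.Prime] {K L : Type*} [Field K] [Field L] [Algebra K L] [CharP K p]
  [FiniteDimensional K L] [IsGalois K L] {A : Type*} [CommRing A] [IsDedekindDomain A]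
  [Algebra A K] [IsFractionRing A K] [Algebra A L] [IsScalarTower A K L]
  {H : Type*} [CommGroup H] [Finite H]

/-- **Artin reciprocity** for the abelian extension `L/K`, unramified over the Dedekind domain `A`,
in terms of valuation rings above the primes of `A` and Frobenius elements. -/
theorem artin_recip (𝓜 : Model K) (hA : ∀ a : A, algebraMap A K a ∈ 𝓜.A)
    (hfin : ∀ I : Ideal A, I ≠ ⊥ → Finite (A ⧸ I))
    (n : ℕ) (hH : ∀ h : H, h ^ p ^ n = 1) (e : H ≃* Gal(L/K))
    (hfree : ∀ Q : Ideal (integralClosure A L), Q.IsMaximal → ∀ h : H, h ≠ 1 →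
      ∃ b : integralClosure A L, galRestrict A K L (integralClosure A L) (e h) b - b ∉ Q)
    (σ : Ideal A → H) (w : Ideal A → ValuationSubring L)
    (hw : ∀ P : Ideal A, P.IsPrime → P ≠ ⊥ → ∀ a : A, algebraMap A L a ∈ w P ∧
      (a ∈ P ↔ algebraMap A L a ∈ (w P).nonunits))
    (hσ : ∀ P : Ideal A, P.IsPrime → P ≠ ⊥ → ∀ z ∈ w P,
      e (σ P) z - z ^ Nat.card (A ⧸ P) ∈ (w P).nonunits) :
    ∃ m : ℕ, ∀ (g : K) (I J : Ideal A), g ≠ 0 → (g - 1) * 𝓜.t ^ m ∈ 𝓜.O →
      I ≠ ⊥ → J ≠ ⊥ →
      (∀ x : K, (∃ a ∈ I, algebraMap A K a = x) ↔ ∃ b ∈ J, algebraMap A K b = g * x) →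
      artin σ I = artin σ J := by
  have hinjAK : Function.Injective (algebraMap A K) := IsFractionRing.injective A K
  have hinjAL : Function.Injective (algebraMap A L) := by
    rw [IsScalarTower.algebraMap_eq A K L]
    exact (algebraMap K L).injective.comp hinjAK
  have hcharA : CharP A p := (RingHom.charP_iff (algebraMap A K) hinjAK p).mpr inferInstance
  have hcharL : CharP L p := charP_of_injective_algebraMap (algebraMap K L).injective p
  let _ : Algebra (ZMod p) A := ZMod.algebra A p
  let _ : Algebra (ZMod p) K := ZMod.algebra K p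
  have hcharB : CharP (integralClosure A L) p :=
    (RingHom.charP_iff (algebraMap (integralClosure A L) L)
      (FaithfulSMul.algebraMap_injective _ _) p).mpr inferInstance
  have hfaith : FaithfulSMul A (integralClosure A L) := by
    rw [faithfulSMul_iff_algebraMap_injective]
    intro x y hxy
    apply hinjAL
    have := congrArg (algebraMap (integralClosure A L) L) hxy
    simpa [← IsScalarTower.algebraMap_apply] using this
  have := Fintype.ofFinite H
  have hfrac : IsFractionRing (integralClosure A L) L :=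
    IsIntegralClosure.isFractionRing_of_finite_extension A K L (integralClosure A L)
  let ρ : H →* (integralClosure A L ≃ₐ[A] integralClosure A L) :=
    (galRestrict A K L (integralClosure A L)).toMonoidHom.comp e.toMonoidHom
  have hρ : ∀ h b, ρ h b = galRestrict A K L (integralClosure A L) (e h) b := fun _ _ => rfl
  have hρL : ∀ h (b : integralClosure A L), ((ρ h b : integralClosure A L) : L) = e h (b : L) :=
    fun h b => algebraMap_galRestrict_apply A (e h) b
  have hinv : ∀ b, (∀ h, ρ h b = b) → b ∈ Set.range (algebraMap A (integralClosure A L)) := by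
    intro b hb
    have hI := Algebra.isInvariant_of_isGalois' A K L (integralClosure A L)
    refine hI.isInvariant b fun g => ?_
    have := hb (e.symm ((galRestrict A K L (integralClosure A L)).symm g))
    rw [hρ, e.apply_symm_apply, MulEquiv.apply_symm_apply] at this
    exact this
  obtain ⟨c, hc⟩ := exists_trace_one (A := A) (B := integralClosure A L) (1 : H)
    (fun h => (ρ h : integralClosure A L →ₐ[A] integralClosure A L))
    (fun b => by simp) (fun b => by
      refine hinv _ fun h => ?_
      rw [map_sum]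
      refine Fintype.sum_equiv (Equiv.mulLeft h) _ _ fun x => ?_
      simp [map_mul]) hfree
  obtain ⟨f, a, hf, ha, hfa, haρ⟩ := exists_frobUnit p n hH ρ hinv c hc
  -- the determinants at the primes
  have hprime : ∀ P : Ideal A, P.IsPrime → P ≠ ⊥ →
      Δ p f (A ⧸ P) = MonoidAlgebra.single (σ P) 1 := by
    intro P hP hP0
    have hfinP : Finite (A ⧸ P) := hfin P hP0
    set V := w P with hV
    let iA : A →+* V := (algebraMap A L).codRestrict V.toSubring fun a => (hw P hP hP0 a).1
    let _ : Algebra A V := iA.toAlgebra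
    have htower : IsScalarTower A V L := IsScalarTower.of_algebraMap_eq fun _ => rfl
    have hBV : ∀ b : integralClosure A L, (b : L) ∈ V := by
      intro b
      have h1 : IsIntegral A (b : L) := b.2
      have h2 : IsIntegral V (b : L) := h1.tower_top
      obtain ⟨y, hy⟩ := IsIntegrallyClosed.isIntegral_iff.mp h2
      rw [← hy]
      exact y.2
    let Λ := IsLocalRing.ResidueField V
    let iB : integralClosure A L →+* V :=
      (algebraMap (integralClosure A L) L).codRestrict V.toSubring hBV
    let e' : integralClosure A L →+* Λ := (IsLocalRing.residue V).comp iB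
    have hres : ∀ z : V, IsLocalRing.residue V z = 0 ↔ (z : L) ∈ V.nonunits := by
      intro z
      rw [IsLocalRing.residue_eq_zero_iff, ValuationSubring.coe_mem_nonunits_iff]
    have hker : ∀ a : A, ((IsLocalRing.residue V).comp iA) a = 0 ↔ a ∈ P := by
      intro a
      rw [RingHom.comp_apply, hres, (hw P hP hP0 a).2]
      rfl
    let eP : A ⧸ P →+* Λ := Ideal.Quotient.lift P ((IsLocalRing.residue V).comp iA)
      fun a ha => (hker a).mpr ha
    have hePinj : Function.Injective eP :=
      RingHom.lift_injective_of_ker_le_ideal P _ fun a ha => (hker a).mp ha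
    have hnt : Nontrivial (A ⧸ P) := Ideal.Quotient.nontrivial_iff.mpr hP.ne_top
    have hcharΛ : CharP Λ p := by
      refine charP_of_injective_ringHom (f := eP.comp (algebraMap (ZMod p) (A ⧸ P))) ?_ p
      exact hePinj.comp (algebraMap (ZMod p) (A ⧸ P)).injective
    let _ : Algebra (ZMod p) Λ := ZMod.algebra Λ p
    have hcard : Nat.card (A ⧸ P) = p ^ Module.finrank (ZMod p) (A ⧸ P) := by
      rw [Module.natCard_eq_pow_finrank (K := ZMod p) (V := A ⧸ P), Nat.card_zmod]
    refine Δ_eq_single p eP hePinj f hcard e' (fun a => ?_) a ha hfa (σ P)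
      ((ρ (σ P) : integralClosure A L ≃+* integralClosure A L) :
        integralClosure A L →+* integralClosure A L) (haρ (σ P)) fun b => ?_
    · rfl
    · rw [← sub_eq_zero, ← hcard, ← map_pow, ← map_sub]
      simp only [e', RingHom.comp_apply]
      rw [hres]
      have h1 := hσ P hP hP0 b (hBV b)
      have h2 : ((iB (((ρ (σ P) : integralClosure A L ≃+* integralClosure A L) :
        integralClosure A L →+* integralClosure A L) b - b ^ Nat.card (A ⧸ P)) : V) : L) =
          e (σ P) (b : L) - (b : L) ^ Nat.card (A ⧸ P) := by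
        rw [← hρL]
        rfl
      rw [h2]
      exact h1
  obtain ⟨m, hm⟩ := 𝓜.recip p hinjAK hA n hH f hf
  refine ⟨m, fun g I J hg0 hg hI hJ hIJ => ?_⟩
  have h1 := hm g I J hg0 hg (hfin I hI) (hfin J hJ) hIJ
  rw [Δ_artin p f hfin σ hprime I hI, Δ_artin p f hfin σ hprime J hJ] at h1
  exact MonoidAlgebra.single_left_injective one_ne_zero h1

end generic

end Pool.Agent.Helper7
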