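import Pool.Agent.Helper7.Count

set_option autoImplicit false

namespace Pool.Agent.Helper7

open Pool.Agent.Helper92 Polynomial

open Classical in
theorem finsum_mem_split {α M : Type*} [AddCommMonoid M] (u : α) (s : Set α) (hs : s.Finite)
    (F : α → M) : ∑ᶠ a ∈ s, F a = (if u ∈ s then F u else 0) +
      ∑ᶠ v ∈ {v : {a // a ≠ u} | v.1 ∈ s}, F v.1 := by
  have h1 : ∑ᶠ v ∈ {v : {a // a ≠ u} | v.1 ∈ s}, F v.1 = ∑ᶠ a ∈ s \ {u}, F a := by
    refine finsum_mem_eq_of_bijOn Subtype.val ⟨fun v hv => ⟨hv, v.2⟩,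
      Subtype.val_injective.injOn, fun a ha => ⟨⟨a, ha.2⟩, ha.1, rfl⟩⟩ fun _ _ => rfl
  rw [h1]
  split_ifs with hu
  · rw [← finsum_mem_insert F (by simp) (hs.subset Set.sdiff_subset)]
    congr 1
    simp [Set.insert_eq_of_mem hu]
  · rw [zero_add, Set.sdiff_singleton_eq_self hu]

section tower

variable {p : ℕ} [Fact p.Prime] {k K Ω : Type*} [Field k] [Finite k] [CharP k p]
    [Field K] [Field Ω] [Algebra k K] [Algebra K Ω] [Algebra k Ω] [IsScalarTower k K Ω]

theorem exists_place_notMem (T : ZpTower p k K Ω) (S : Set (ValuationSubring K)) (hS : S.Finite)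
    (htop : ⊤ ∉ S) : ∃ v : ValuationSubring K, v ≠ ⊤ ∧ v ∉ S := by
  obtain ⟨t, ht, hfin⟩ := T.functionField
  obtain ⟨hp1, hp2⟩ := poles_finite t ht hfin
  have htop' : ⊤ ∉ poles t := fun h => h trivial
  obtain ⟨𝓟⟩ := nonempty_placeModel t ht hfin (S ∪ poles t) (hS.union hp1)
    (hp2.mono Set.subset_union_right) (by simp [htop, htop'])
  have hded := 𝓟.M.ded
  have hnf : ¬ IsField 𝓟.M.A := by
    intro hf
    have htA : 𝓟.M.t⁻¹ ∈ 𝓟.M.A := by
      obtain ⟨y, hy⟩ := hf.mul_inv_cancel (a := (⟨𝓟.M.t, 𝓟.M.t_mem⟩ : 𝓟.M.A))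
        (fun h => 𝓟.M.t_ne (congrArg Subtype.val h))
      have h1 : 𝓟.M.t * (y : K) = 1 := congrArg Subtype.val hy
      rw [inv_eq_of_mul_eq_one_right h1]
      exact y.2
    refine Set.infinite_of_injective_forall_mem (f := fun N : ℕ => 𝓟.M.t⁻¹ ^ N) ?_ ?_
      (𝓟.M.fin 0)
    · intro N N' h
      apply 𝓟.M.infinite
      simp only [inv_pow] at h ⊢
      exact inv_injective h
    · intro N
      exact ⟨𝓟.M.A.pow_mem htA N, by rw [pow_zero, mul_one]; exact 𝓟.M.O.pow_mem 𝓟.M.tinv_mem N⟩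
  obtain ⟨P, hP0, hP⟩ := Ring.not_isField_iff_exists_prime.mp hnf
  obtain ⟨h1, h2⟩ := 𝓟.place_spec ⟨hP, hP0⟩
  exact ⟨_, h1, fun h => h2 (Or.inl h)⟩

theorem finite_degree (T : ZpTower p k K Ω) (d : ℕ) :
    {v : ValuationSubring K | v ≠ ⊤ ∧ degOf k v = d}.Finite := by
  obtain ⟨t, ht, hfin⟩ := T.functionField
  obtain ⟨hp1, hp2⟩ := poles_finite t ht hfin
  have htop' : ⊤ ∉ poles t := fun h => h trivial
  obtain ⟨𝓟⟩ := nonempty_placeModel t ht hfin (poles t) hp1 hp2 htop'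
  have hq : 2 ≤ Nat.card k := Finite.one_lt_card
  have h1 := 𝓟.M.finite_ideals (Nat.card k ^ d) (pow_ne_zero _ (by omega))
  refine Set.Finite.subset (hp1.union (h1.image fun P => 𝓟.place P)) fun v hv => ?_
  obtain ⟨hv1, hv2⟩ := hv
  by_cases hvS : v ∈ poles t
  · exact Or.inl hvS
  · refine Or.inr ⟨(𝓟.e ⟨v, hv1, hvS⟩).1, ?_, 𝓟.place_e _⟩
    have h2 := (𝓟.card_prime k (fun w hw => T.dvr w hw) (𝓟.e ⟨v, hv1, hvS⟩).2).1
    rw [𝓟.place_e, hv2] at h2
    exact h2

theorem finite_degree' (T : ZpTower p k K Ω) (d : ℕ) :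
    {v : unramPoint T | degOf k v.1 = d}.Finite := by
  refine Set.Finite.of_finite_image (f := Subtype.val) ?_ Subtype.val_injective.injOn
  refine (finite_degree T d).subset ?_
  rintro _ ⟨v, hv, rfl⟩
  exact ⟨v.2.1, hv⟩

theorem finite_orbit (T : ZpTower p k K Ω) (a : ValuationSubring K → ℤ_[p]) (n d : ℕ) :
    {v : unramPoint T | degOf k v.1 * addOrderOf (PadicInt.toZModPow n (a v.1)) = d}.Finite := by
  have hNe : NeZero (p ^ n) := ⟨pow_ne_zero _ (Fact.out (p := p.Prime)).ne_zero⟩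
  refine Set.Finite.subset (Set.Finite.biUnion (Set.finite_Iic d) fun d' _ => finite_degree' T d')
    fun v hv => ?_
  simp only [Set.mem_iUnion, Set.mem_Iic]
  refine ⟨degOf k v.1, ?_, rfl⟩
  have h1 : degOf k v.1 * addOrderOf (PadicInt.toZModPow n (a v.1)) = d := hv
  rw [← h1]
  exact Nat.le_mul_of_pos_right _ (addOrderOf_pos _)

open Classical in
theorem exists_slopes (T : ZpTower p k K Ω) (hS : T.ramificationLocus.Finite)
    (a : ValuationSubring K → ℤ_[p]) (ha : IsFrob T a) (P : ℕ → ℤ[X])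
    (hP : ∀ n, IsZetaNumerator (Nat.card k) (T.field n) (P n)) (u : unramPoint T) :
    ∃ v w : unramPoint T, v ≠ u ∧ w ≠ u ∧
      (degOf k v.1 : ℤ_[p]) * a w.1 ≠ (degOf k w.1 : ℤ_[p]) * a v.1 := by
  have hp : p.Prime := Fact.out
  obtain ⟨n₀, hn₀⟩ := T.ramified_count (fun w hw => T.dvr w hw)
    (fun n w hw => T.dvr_field n w hw) hS
  have hdeg : ∀ v : unramPoint T, 0 < degOf k v.1 := fun v => by
    have := (T.dvr v.1 v.2.1).2
    exact (card_residueField k v.1).2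
  let V' := {v : unramPoint T // v ≠ u}
  have hV' : Nonempty V' := by
    obtain ⟨v, hv1, hv2⟩ := exists_place_notMem T (T.ramificationLocus ∪ {u.1})
      (hS.union (Set.finite_singleton _)) (by
        rintro (h | h)
        · exact h.1 rfl
        · exact u.2.1 (Set.mem_singleton_iff.mp h).symm)
    refine ⟨⟨⟨v, hv1, fun h => hv2 (Or.inl h)⟩, fun h => hv2 (Or.inr ?_)⟩⟩
    exact congrArg Subtype.val h
  let c : ℕ → ℕ → ℕ := fun n d => ramCount T n d +
    if degOf k u.1 * addOrderOf (PadicInt.toZModPow n (a u.1)) = d then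
      p ^ n / addOrderOf (PadicInt.toZModPow n (a u.1)) else 0
  have hcount : ∀ n ≥ n₀, ∀ d, numPoints (Nat.card k) (T.field n) d =
      pointCount (fun v : V' => degOf k v.1.1) (fun v => a v.1.1) (c n) n d := by
    intro n hn d
    rw [numPoints_eq T a ha (finite_degree' T) n (hn₀ n hn 0).1 d, pointCount, pointCount,
      finsum_mem_split u _ (finite_orbit T a n d), ← add_assoc]
    congr 1
    simp only [c]
    congr 1
    by_cases h : degOf k u.1 * addOrderOf (PadicInt.toZModPow n (a u.1)) = d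
    · rw [if_pos h]; exact if_pos h
    · rw [if_neg h]; exact if_neg h
  have hfin' : ∀ d, {v : V' | degOf k v.1.1 = d}.Finite := by
    intro d
    refine Set.Finite.of_finite_image (f := Subtype.val) ?_ Subtype.val_injective.injOn
    refine (finite_degree' T d).subset ?_
    rintro _ ⟨v, hv, rfl⟩
    exact hv
  have hc : ∀ n ≥ n₀, ∃ D, ∀ d ≥ D, c n d = 0 := by
    intro n hn
    have h1 := (hn₀ n hn 0).1
    obtain ⟨D, hD⟩ := (h1.image fun w => degOf k w).bddAbove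
    refine ⟨max (D + 1)
      (degOf k u.1 * addOrderOf (PadicInt.toZModPow n (a u.1)) + 1), fun d hd => ?_⟩
    have h2 : ramCount T n d = 0 := by
      rw [ramCount, Nat.card_eq_zero]
      refine Or.inl ⟨fun w => ?_⟩
      have h3 : degOf k w.1 ≤ D := hD ⟨w.1, w.2.1, rfl⟩
      have h4 : degOf k w.1 = d := by
        rw [degOf, w.2.2, Nat.log_pow Finite.one_lt_card]
      omega
    have h3 : degOf k u.1 * addOrderOf (PadicInt.toZModPow n (a u.1)) ≠ d := by omega
    simp only [c]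
    rw [h2, if_neg h3]
  have hP' : ∀ n ≥ n₀, ∀ N : ℕ, (X : ℤ[X]) ^ (N + 1) ∣
      P n * ∏ d ∈ Finset.Icc 1 N, (1 - (X : ℤ[X]) ^ d) ^
        pointCount (fun v : V' => degOf k v.1.1) (fun v => a v.1.1) (c n) n d
        - (1 - X) * (1 - C ((Nat.card k : ℕ) : ℤ) * X) := by
    intro n hn N
    have h1 := hP n N
    simp only [hcount n hn] at h1
    exact h1
  obtain ⟨v, w, hvw⟩ := exists_ne (Nat.card k) Finite.one_lt_card (V := V')
    (fun v => degOf k v.1.1) (fun v => hdeg v.1) (fun v => a v.1.1) hfin' n₀ c hc P hP'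
  exact ⟨v.1, w.1, v.2, w.2, hvw⟩

end tower

end Pool.Agent.Helper7
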