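import Pool.Agent.Helper7.Act

set_option autoImplicit false

namespace Pool.Agent.Helper7

open TensorProduct

section aug

variable (C H : Type*) [CommRing C] [CommGroup H]

/-- The augmentation (sum of coefficients) of a group ring. -/
noncomputable def aug : MonoidAlgebra C H →ₐ[C] C := MonoidAlgebra.lift C C H 1

variable {C H}

@[simp] theorem aug_single (h : H) (c : C) : aug C H (MonoidAlgebra.single h c) = c := by
  simp [aug]

/-- In characteristic `p`, an element of the group ring of a group of exponent `p ^ n` has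
`p ^ n`-th power its augmentation. -/
theorem pow_eq_aug (p : ℕ) [Fact p.Prime] [CharP C p] (n : ℕ) (hH : ∀ h : H, h ^ p ^ n = 1)
    (x : MonoidAlgebra C H) :
    x ^ p ^ n = algebraMap C (MonoidAlgebra C H) (aug C H x ^ p ^ n) := by
  have : CharP (MonoidAlgebra C H) p := by
    refine charP_of_injective_algebraMap (R := C) (A := MonoidAlgebra C H) ?_ p
    intro a b hab
    have := congrArg (aug C H) hab
    simpa using this
  induction x using MonoidAlgebra.induction_linear with
  | zero =>
    have : p ^ n ≠ 0 := pow_ne_zero _ (Fact.out (p := p.Prime)).ne_zero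
    rw [map_zero, zero_pow this, zero_pow this, map_zero]
  | add x y hx hy =>
    rw [add_pow_char_pow, hx, hy, map_add, add_pow_char_pow, map_add]
  | single h c =>
    rw [aug_single, MonoidAlgebra.single_pow, hH]
    rfl

theorem isUnit_of_aug (p : ℕ) [Fact p.Prime] [CharP C p] (n : ℕ) (hH : ∀ h : H, h ^ p ^ n = 1)
    (x : MonoidAlgebra C H) (hx : aug C H x = 1) : IsUnit x := by
  have h1 : x ^ p ^ n = 1 := by rw [pow_eq_aug p n hH, hx, one_pow, map_one]
  have : p ^ n ≠ 0 := pow_ne_zero _ (Fact.out (p := p.Prime)).ne_zero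
  exact IsUnit.of_pow_eq_one h1 this

end aug

section det

variable {F R : Type*} [Field F] [CommRing R] [Algebra F R] (ε : R →ₐ[F] F)
variable {E : Type*} [AddCommGroup E] [Module F E]

/-- The map `R ⊗ E → E` induced by a character of `R`. -/
noncomputable def augMap : R ⊗[F] E →ₗ[F] E :=
  (TensorProduct.lid F E).toLinearMap ∘ₗ (LinearMap.rTensor E ε.toLinearMap)

@[simp] theorem augMap_tmul (r : R) (e : E) : augMap ε (r ⊗ₜ[F] e) = ε r • e := by
  simp [augMap]

theorem aug_det_eq_one [FiniteDimensional F E] (T : R ⊗[F] E →ₗ[R] R ⊗[F] E)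
    (hT : ∀ e : E, augMap ε (T (1 ⊗ₜ e)) = e) : ε (LinearMap.det T) = 1 := by
  classical
  let b := Module.finBasis F E
  let bR := b.baseChange R
  have hb : ∀ (y : R ⊗[F] E) i, ε (bR.repr y i) = b.repr (augMap ε y) i := by
    intro y i
    induction y using TensorProduct.induction_on with
    | zero => simp
    | tmul r e =>
      simp [bR, Module.Basis.baseChange_repr_tmul, mul_comm]
    | add x y hx hy => simp [hx, hy]
  rw [← LinearMap.det_toMatrix bR, AlgHom.map_det]
  have : ε.mapMatrix (LinearMap.toMatrix bR bR T) = 1 := by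
    ext i j
    rw [AlgHom.mapMatrix_apply, Matrix.map_apply, LinearMap.toMatrix_apply, hb,
      Module.Basis.baseChange_apply, hT, Module.Basis.repr_self, Matrix.one_apply,
      Finsupp.single_apply]
    simp [eq_comm]
  rw [this, Matrix.det_one]

end det

section lift

variable {R : Type*} [CommRing R] {X Y Z : Type*} [AddCommGroup X] [Module R X]
  [AddCommGroup Y] [Module R Y] [AddCommGroup Z] [Module R Z]

theorem exists_lift (ι : Z →ₗ[R] X) (hι : Function.Injective ι) (T : Y →ₗ[R] X)
    (hT : ∀ y, T y ∈ LinearMap.range ι) : ∃ T' : Y →ₗ[R] Z, ∀ y, ι (T' y) = T y := by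
  refine ⟨(LinearEquiv.ofInjective ι hι).symm.toLinearMap ∘ₗ T.codRestrict _ hT, fun y => ?_⟩
  have := LinearEquiv.apply_symm_apply (LinearEquiv.ofInjective ι hι) ⟨T y, hT y⟩
  exact congrArg Subtype.val this

end lift

end Pool.Agent.Helper7
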