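import Pool.Agent.Helper7.TowerRecip

set_option autoImplicit false

namespace Pool.Agent.Helper7

open UniqueFactorizationMonoid

section zpow

theorem pow_val_add {E : Type*} [Monoid E] {N : ℕ} [NeZero N] {ζ : E} (hζ : ζ ^ N = 1)
    (x y : ZMod N) : ζ ^ (x + y).val = ζ ^ x.val * ζ ^ y.val := by
  rw [ZMod.val_add, ← pow_add]
  exact (pow_eq_pow_mod _ hζ).symm

theorem pow_val_nsmul {E : Type*} [Monoid E] {N : ℕ} [NeZero N] {ζ : E} (hζ : ζ ^ N = 1)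
    (j : ℕ) (x : ZMod N) : ζ ^ (j • x).val = (ζ ^ x.val) ^ j := by
  induction j with
  | zero => simp
  | succ j ih => rw [succ_nsmul, pow_val_add hζ, ih, pow_succ]

end zpow


namespace PlaceModel

variable {p : ℕ} [Fact p.Prime] {K : Type*} [Field K] {S : Set (ValuationSubring K)}
  (𝓟 : PlaceModel K S) (a : ValuationSubring K → ℤ_[p])

theorem sig_one : 𝓟.sig a 1 = 0 := by
  have := 𝓟.M.ded
  rw [sig, normalizedFactors_one]
  simp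

theorem sig_mul {I J : Ideal 𝓟.M.A} (hI : I ≠ ⊥) (hJ : J ≠ ⊥) :
    𝓟.sig a (I * J) = 𝓟.sig a I + 𝓟.sig a J := by
  have := 𝓟.M.ded
  rw [sig, normalizedFactors_mul hI hJ, Multiset.map_add, Multiset.sum_add]
  rfl

theorem sig_pow {I : Ideal 𝓟.M.A} (hI : I ≠ ⊥) (j : ℕ) :
    𝓟.sig a (I ^ j) = j * 𝓟.sig a I := by
  have := 𝓟.M.ded
  induction j with
  | zero => rw [pow_zero, sig_one]; simp
  | succ j ih => rw [pow_succ, sig_mul 𝓟 a (pow_ne_zero _ hI) hI, ih]; push_cast; ring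

theorem sig_prime {P : Ideal 𝓟.M.A} (h : P.IsPrime ∧ P ≠ ⊥) : 𝓟.sig a P = a (𝓟.place P) := by
  have := 𝓟.M.ded
  have h1 : Irreducible P := (Ideal.prime_of_isPrime h.2 h.1).irreducible
  rw [sig, normalizedFactors_irreducible h1, Multiset.map_singleton, Multiset.sum_singleton,
    normalize_eq]

open Classical in
/-- The character attached to a `p ^ n`-th root of unity. -/
noncomputable def chi {E : Type*} [CommRing E] [IsDomain E] (n : ℕ) (ζ : E) (hζ : ζ ^ p ^ n = 1) :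
    Ideal 𝓟.M.A →* E :=
  haveI : NeZero (p ^ n) := ⟨pow_ne_zero _ (Fact.out (p := p.Prime)).ne_zero⟩
  { toFun := fun I => if I = ⊥ then 0 else ζ ^ (PadicInt.toZModPow n (𝓟.sig a I)).val
    map_one' := by
      have := 𝓟.M.ded
      have h1 : (1 : Ideal 𝓟.M.A) ≠ ⊥ := one_ne_zero
      rw [if_neg h1, sig_one]
      simp
    map_mul' := fun I J => by
      have := 𝓟.M.ded
      by_cases hI : I = ⊥
      · subst hI
        rw [if_pos (Ideal.bot_mul J), if_pos rfl, zero_mul]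
      by_cases hJ : J = ⊥
      · subst hJ
        rw [if_pos (Ideal.mul_bot I), if_pos rfl, mul_zero]
      have h1 : I * J ≠ ⊥ := mul_ne_zero hI hJ
      rw [if_neg hI, if_neg hJ, if_neg h1, sig_mul 𝓟 a hI hJ, map_add,
        pow_val_add hζ] }

theorem chi_apply {E : Type*} [CommRing E] [IsDomain E] (n : ℕ) (ζ : E) (hζ : ζ ^ p ^ n = 1)
    {I : Ideal 𝓟.M.A} (hI : I ≠ ⊥) :
    𝓟.chi a n ζ hζ I = ζ ^ (PadicInt.toZModPow n (𝓟.sig a I)).val := if_neg hI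

variable (k : Type*) [Field k] [Finite k] [Algebra k K]
  (hdvr : ∀ w : ValuationSubring K, w ≠ ⊤ →
    IsDiscreteValuationRing w ∧ Finite (IsLocalRing.ResidueField w))

/-- The coefficients of the `L`-series. -/
noncomputable def Y {E : Type*} [CommRing E] [IsDomain E] (n : ℕ) (ζ : E) (hζ : ζ ^ p ^ n = 1)
    (d : ℕ) : E :=
  ∑ᶠ I ∈ {I : Ideal 𝓟.M.A | Nat.card (𝓟.M.A ⧸ I) = Nat.card k ^ d}, 𝓟.chi a n ζ hζ I

theorem Y_zero {E : Type*} [CommRing E] [IsDomain E] (n : ℕ) (ζ : E) (hζ : ζ ^ p ^ n = 1) :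
    𝓟.Y a k n ζ hζ 0 = 1 := by
  have h1 : {I : Ideal 𝓟.M.A | Nat.card (𝓟.M.A ⧸ I) = Nat.card k ^ 0} = {1} := by
    ext I
    simp only [pow_zero, Set.mem_ofPred_eq, Set.mem_singleton_iff, Ideal.one_eq_top]
    rw [Nat.card_eq_one_iff_unique]
    constructor
    · rintro ⟨h, _⟩
      exact Ideal.Quotient.subsingleton_iff.mp h
    · intro h
      exact ⟨Ideal.Quotient.subsingleton_iff.mpr h, ⟨0⟩⟩
  rw [Y, h1, finsum_mem_singleton, map_one]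

include hdvr in
theorem Y_rec {E : Type*} [Field E] [CharZero E] (n : ℕ) (ζ : E) (hζ : ζ ^ p ^ n = 1) (d : ℕ) :
    (d : E) * 𝓟.Y a k n ζ hζ d = ∑ m ∈ Finset.Icc 1 d,
      (∑ᶠ v ∈ {v : {v : ValuationSubring K // v ≠ ⊤ ∧ v ∉ S} | degOf k v.1 ∣ m},
        (degOf k v.1 : E) * (ζ ^ (PadicInt.toZModPow n (a v.1)).val) ^ (m / degOf k v.1)) *
      𝓟.Y a k n ζ hζ (d - m) := by
  have := 𝓟.M.ded
  have hinfA : Infinite 𝓟.M.A := 𝓟.M.infinite_A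
  have hq : 2 ≤ Nat.card k := Finite.one_lt_card
  have h1 := logDeriv_coeff (Nat.card k) hq (fun N hN => 𝓟.M.finite_ideals N hN)
    (𝓟.exists_card_eq_pow k hdvr) (𝓟.chi a n ζ hζ) d
  refine h1.trans (Finset.sum_congr rfl fun m _ => ?_)
  congr 1
  symm
  refine finsum_mem_eq_of_bijOn (fun v => (𝓟.e v).1) ⟨?_, ?_, ?_⟩ ?_
  · intro v hv
    have h2 := (𝓟.e v).2
    refine ⟨h2.1, h2.2, ?_⟩
    rw [(𝓟.card_prime k hdvr h2).1, Nat.log_pow hq, 𝓟.place_e]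
    exact hv
  · intro v _ w _ h
    exact 𝓟.e.injective (Subtype.ext h)
  · rintro P ⟨hP, hP0, hPm⟩
    refine ⟨𝓟.e.symm ⟨P, hP, hP0⟩, ?_, by simp⟩
    rw [(𝓟.card_prime k hdvr ⟨hP, hP0⟩).1, Nat.log_pow hq, 𝓟.place_eq ⟨hP, hP0⟩] at hPm
    exact hPm
  · intro v _
    have h2 := (𝓟.e v).2
    rw [(𝓟.card_prime k hdvr h2).1, Nat.log_pow hq, 𝓟.place_e, 𝓟.chi_apply a n ζ hζ h2.2,
      𝓟.sig_prime a h2, 𝓟.place_e]

end PlaceModel

section tower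

variable {p : ℕ} [Fact p.Prime] {k K Ω : Type*} [Field k] [Finite k] [CharP k p]
    [Field K] [Field Ω] [Algebra k K] [Algebra K Ω] [Algebra k Ω] [IsScalarTower k K Ω]

theorem Y_eventually_zero (T : ZpTower p k K Ω) (a : ValuationSubring K → ℤ_[p])
    (ha : IsFrob T a) {S : Set (ValuationSubring K)} (hS : T.ramificationLocus ⊆ S)
    (𝓟 : PlaceModel K S) {v w : ValuationSubring K} (hv : v ≠ ⊤ ∧ v ∉ S) (hw : w ≠ ⊤ ∧ w ∉ S)
    (n : ℕ) (hvw : PadicInt.toZModPow n ((degOf k v : ℤ_[p]) * a w) ≠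
      PadicInt.toZModPow n ((degOf k w : ℤ_[p]) * a v))
    {E : Type*} [Field E] [CharZero E] (ζ : E) (hζ : IsPrimitiveRoot ζ (p ^ n)) :
    ∃ N, ∀ d ≥ N, 𝓟.Y a k n ζ hζ.pow_eq_one d = 0 := by
  have hded := 𝓟.M.ded
  have hNe : NeZero (p ^ n) := ⟨pow_ne_zero _ (Fact.out (p := p.Prime)).ne_zero⟩
  obtain ⟨m, hm⟩ := tower_recip T a ha hS 𝓟 n
  set P := (𝓟.e ⟨v, hv⟩).1 with hP
  set Q := (𝓟.e ⟨w, hw⟩).1 with hQ
  have hP' : P.IsPrime ∧ P ≠ ⊥ := (𝓟.e ⟨v, hv⟩).2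
  have hQ' : Q.IsPrime ∧ Q ≠ ⊥ := (𝓟.e ⟨w, hw⟩).2
  have hPv : 𝓟.place P = v := by rw [𝓟.place_eq hP']; simp [hP]
  have hQw : 𝓟.place Q = w := by rw [𝓟.place_eq hQ']; simp [hQ]
  have hcardP := (𝓟.card_prime k (fun w hw => T.dvr w hw) hP').1
  have hcardQ := (𝓟.card_prime k (fun w hw => T.dvr w hw) hQ').1
  have hrec : ∀ (g : K) (I J : Ideal 𝓟.M.A), (g - 1) * 𝓟.M.t ^ m ∈ 𝓟.M.O → g ≠ 0 → I ≠ ⊥ →
      J ≠ ⊥ → (∀ x : K, (∃ y ∈ J, (y : K) = g * x) ↔ ∃ y ∈ I, (y : K) = x) →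
      𝓟.chi a n ζ hζ.pow_eq_one I = 𝓟.chi a n ζ hζ.pow_eq_one J := by
    intro g I J hg hg0 hI hJ hIJ
    rw [𝓟.chi_apply a n ζ _ hI, 𝓟.chi_apply a n ζ _ hJ, hm g I J hg0 hg hI hJ fun x => (hIJ x).symm]
  have hcard : Nat.card (𝓟.M.A ⧸ P ^ degOf k w) = Nat.card (𝓟.M.A ⧸ Q ^ degOf k v) := by
    rw [𝓟.card_pow hP', 𝓟.card_pow hQ', hcardP, hcardQ, hPv, hQw, ← pow_mul, ← pow_mul, mul_comm]
  have hne : 𝓟.chi a n ζ hζ.pow_eq_one (P ^ degOf k w) ≠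
      𝓟.chi a n ζ hζ.pow_eq_one (Q ^ degOf k v) := by
    rw [𝓟.chi_apply a n ζ _ (pow_ne_zero _ hP'.2), 𝓟.chi_apply a n ζ _ (pow_ne_zero _ hQ'.2),
      𝓟.sig_pow a hP'.2, 𝓟.sig_pow a hQ'.2, 𝓟.sig_prime a hP', 𝓟.sig_prime a hQ', hPv, hQw]
    intro h
    apply hvw
    have h1 := hζ.pow_inj (ZMod.val_lt _) (ZMod.val_lt _) h
    exact (ZMod.val_injective _ h1).symm
  obtain ⟨N₀, hN₀⟩ := 𝓟.M.sum_eq_zero (𝓟.chi a n ζ hζ.pow_eq_one) m hrec (P ^ degOf k w)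
    (Q ^ degOf k v) (pow_ne_zero _ hP'.2) (pow_ne_zero _ hQ'.2) hcard hne
  exact ⟨N₀, fun d hd => hN₀ _ (hd.trans (Nat.lt_pow_self Finite.one_lt_card).le)⟩

end tower

end Pool.Agent.Helper7
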