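import Pool.Agent.Helper7.PlaceModel
import Pool.Agent.Helper2.H7D.Frobenius

/-!
Constant field extensions of function fields over finite fields: Task Z4.
-/

set_option autoImplicit false

namespace Pool.Agent.Helper7

open Polynomial IsLocalRing

/-- A monic irreducible polynomial over `k` stays irreducible over `K` if `k` is algebraically
closed in `K`. -/
theorem irreducible_map_of_const {k K : Type*} [Field k] [Field K] [Algebra k K]
    (hconst : ∀ x : K, IsAlgebraic k x → x ∈ (algebraMap k K).range) {f : k[X]}
    (hf : Irreducible f) (hm : f.Monic) : Irreducible (f.map (algebraMap k K)) := by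
  have hlift : ∀ h : K[X], h.Monic → h ∣ f.map (algebraMap k K) →
      ∃ h0 : k[X], h0.map (algebraMap k K) = h := by
    intro h hh hd
    have h1 := integralClosure.mem_lifts_of_monic_of_dvd_map K hm hh hd
    rw [lifts_iff_coeff_lifts] at h1
    have h2 : h ∈ lifts (algebraMap k K) := by
      rw [lifts_iff_coeff_lifts]
      intro n
      obtain ⟨c, hc⟩ := h1 n
      have h3 : IsAlgebraic k (h.coeff n) := by
        rw [← hc]
        have h4 : IsIntegral k (c : K) := c.2
        exact h4.isAlgebraic
      exact hconst _ h3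
    exact (mem_lifts h).mp h2
  rw [(hm.map _).irreducible_iff_natDegree]
  constructor
  · intro h
    have h1 : f.map (algebraMap k K) = (1 : k[X]).map (algebraMap k K) := by
      rw [h, Polynomial.map_one]
    have h2 := Polynomial.map_injective _ (algebraMap k K).injective h1
    exact hf.not_isUnit (h2 ▸ isUnit_one)
  · intro a b ha hb hab
    obtain ⟨a0, rfl⟩ := hlift a ha ⟨b, hab.symm⟩
    obtain ⟨b0, rfl⟩ := hlift b hb ⟨_, by rw [mul_comm]; exact hab.symm⟩
    rw [← Polynomial.map_mul] at hab
    have h2 := Polynomial.map_injective _ (algebraMap k K).injective hab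
    rcases hf.isUnit_or_isUnit h2.symm with h | h
    · left
      rw [natDegree_map]
      exact natDegree_eq_zero_of_isUnit h
    · right
      rw [natDegree_map]
      exact natDegree_eq_zero_of_isUnit h

section places

open _root_.ZpTower

variable {k K L : Type*} [Field k] [Finite k] [Field K] [Field L] [Algebra k K] [Algebra k L]
  [Algebra K L] [IsScalarTower k K L] [FiniteDimensional K L] [IsGalois K L]

theorem unit_of_pow_eq (w : ValuationSubring L) {y : L} {Q : ℕ} (hQ : 1 < Q) (hy : y ^ Q = y)
    (hy0 : y ≠ 0) : y ∈ w ∧ y ∉ w.nonunits := by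
  have h1 : y ^ (Q - 1) = 1 := by
    have h2 : y ^ (Q - 1) * y = 1 * y := by
      rw [← pow_succ, one_mul, Nat.sub_add_cancel hQ.le, hy]
    exact mul_right_cancel₀ hy0 h2
  have h3 : Q - 1 ≠ 0 := by omega
  refine ⟨pow_eq_one_mem w h3 h1, fun h => ?_⟩
  have h4 : y⁻¹ ∈ w := pow_eq_one_mem w h3 (by rw [inv_pow, h1, inv_one])
  rw [ValuationSubring.mem_nonunits_iff] at h
  have h5 := (w.valuation_le_one_iff _).mpr h4
  have h6 : w.valuation y * w.valuation y⁻¹ = 1 := by
    rw [← map_mul, mul_inv_cancel₀ hy0, map_one]
  have h7 : w.valuation y * w.valuation y⁻¹ < 1 := mul_lt_one_of_lt_of_le h h5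
  exact absurd h6 h7.ne

theorem constExt_places {g : ℕ} (hg : 0 < g) (hrank : Module.finrank K L = g)
    (c : Set L) (hc : ∀ x ∈ c, x ^ (Nat.card k ^ g) = x)
    (hgen : IntermediateField.adjoin K c = ⊤) {v : _root_.ZpTower.Place k K}
    {w : _root_.ZpTower.Place k L}
    (h : w.restrict K = v) [Finite (ResidueField w.ring)] [Finite (ResidueField v.ring)]
    (hd : ∃ m : ℕ, Nat.card (ResidueField v.ring) = (Nat.card k ^ g) ^ m) :
    (v.over L).ncard = g ∧
      Nat.card (ResidueField w.ring) = Nat.card (ResidueField v.ring) := by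
  classical
  have hq : 1 < Nat.card k := Finite.one_lt_card
  set Q := Nat.card k ^ g with hQ
  have hQ1 : 1 < Q := Nat.one_lt_pow hg.ne' hq
  obtain ⟨m, hm⟩ := hd
  -- `Q` is a power of the characteristic
  obtain ⟨p, hp⟩ := CharP.exists k
  have hpp : Fact p.Prime := ⟨CharP.char_is_prime k p⟩
  have hpL : CharP L p := charP_of_injective_algebraMap (algebraMap k L).injective p
  obtain ⟨f, hf⟩ : ∃ f, Q = p ^ f := by
    have := Fintype.ofFinite k
    obtain ⟨n, -, hn⟩ := FiniteField.card k p
    refine ⟨n * g, ?_⟩
    rw [hQ, Nat.card_eq_fintype_card, hn, pow_mul]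
  -- the map of residue fields
  let ψ : v.ring →+* w.ring :=
    ((algebraMap K L).comp v.ring.subtype).codRestrict w.ring.toSubring
      (fun a => mem_of_over h a.2)
  have hψ : ∀ a, ((ψ a : w.ring) : L) = algebraMap K L a := fun a => rfl
  have hnon : ∀ x : K, x ∈ v.ring.nonunits ↔ algebraMap K L x ∈ w.ring.nonunits := by
    intro x
    rw [← h]
    exact Place.mem_nonunits_restrict w x
  have hloc : IsLocalHom ψ := by
    constructor
    intro a ha
    by_contra hna
    have h1 : a ∈ maximalIdeal v.ring := hna
    rw [← ValuationSubring.coe_mem_nonunits_iff, hnon] at h1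
    have h2 : ((ψ a : w.ring) : L) ∈ w.ring.nonunits := h1
    rw [ValuationSubring.coe_mem_nonunits_iff] at h2
    exact h2 ha
  set N := Nat.card (ResidueField v.ring) with hN
  have hN1 : 1 < N := Finite.one_lt_card
  -- surjectivity onto the roots of `X ^ N - X`
  have hsurj : ∀ y : ResidueField w.ring, y ^ N = y → ∃ a, ResidueField.map ψ a = y := by
    intro y hy
    have := Fintype.ofFinite (ResidueField v.ring)
    have := Fintype.ofFinite (ResidueField w.ring)
    have hne : (X ^ N - X : (ResidueField w.ring)[X]) ≠ 0 :=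
      FiniteField.X_pow_card_sub_X_ne_zero _ hN1
    have h1 : Finset.univ.image (ResidueField.map ψ) =
        (X ^ N - X : (ResidueField w.ring)[X]).roots.toFinset := by
      apply Finset.eq_of_subset_of_card_le
      · intro z hz
        obtain ⟨a, -, rfl⟩ := Finset.mem_image.mp hz
        rw [Multiset.mem_toFinset, mem_roots hne]
        have h2 : a ^ N = a := by
          rw [hN, Nat.card_eq_fintype_card]
          exact FiniteField.pow_card a
        simp [← map_pow, h2]
      · rw [Finset.card_image_of_injective _ (ResidueField.map ψ).injective, Finset.card_univ,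
          ← Nat.card_eq_fintype_card, ← hN]
        refine (Multiset.toFinset_card_le _).trans ((card_roots' _).trans ?_)
        rw [FiniteField.X_pow_card_sub_X_natDegree_eq _ hN1]
    have h2 : y ∈ (X ^ N - X : (ResidueField w.ring)[X]).roots.toFinset := by
      rw [Multiset.mem_toFinset, mem_roots hne]
      simp [hy]
    rw [← h1] at h2
    obtain ⟨a, -, ha⟩ := Finset.mem_image.mp h2
    exact ⟨a, ha⟩
  -- the decomposition group is trivial
  have hstab : ∀ σ : L ≃ₐ[K] L, σ • w = w → σ = 1 := by
    intro σ hσ
    have hσnon : ∀ x : L, x ∈ w.ring.nonunits → σ x ∈ w.ring.nonunits := by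
      intro x hx
      have h1 : σ x ∈ (σ • w).ring.nonunits := by
        rw [Place.mem_nonunits_smul, AlgEquiv.symm_apply_apply]
        exact hx
      rwa [hσ] at h1
    have hfix : ∀ x ∈ c, σ x = x := by
      intro x hx
      have hxQ := hc x hx
      by_cases hx0 : x = 0
      · rw [hx0, map_zero]
      have hxw := (unit_of_pow_eq w.ring hQ1 hxQ hx0).1
      have hxN : x ^ N = x := by
        rw [hm]
        clear hm
        induction m with
        | zero => rw [pow_zero, pow_one]
        | succ m ih => rw [pow_succ, pow_mul, ih, hxQ]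
      obtain ⟨a, ha⟩ := hsurj (residue w.ring ⟨x, hxw⟩) (by
        rw [← map_pow]
        congr 1
        exact Subtype.ext hxN)
      obtain ⟨a, rfl⟩ := residue_surjective a
      rw [ResidueField.map_residue] at ha
      have h1 : x - algebraMap K L a ∈ w.ring.nonunits := by
        have h2 : (⟨x, hxw⟩ : w.ring) - ψ a ∈ maximalIdeal w.ring := by
          rw [← residue_eq_zero_iff, map_sub, ha, sub_self]
        rw [← ValuationSubring.coe_mem_nonunits_iff] at h2
        exact h2
      have h2 := hσnon _ h1
      rw [map_sub, AlgEquiv.commutes] at h2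
      have h3 : σ x - x ∈ w.ring.nonunits := by
        have h4 := sub_mem h2 h1
        convert h4 using 1
        ring
      by_contra hne
      refine (unit_of_pow_eq w.ring (y := σ x - x) hQ1 ?_ (sub_ne_zero.mpr hne)).2 h3
      rw [hf, sub_pow_char_pow, ← hf, ← map_pow, hxQ]
    have htop : (⊤ : IntermediateField K L) ≤
        IntermediateField.fixedField (Subgroup.zpowers σ) := by
      rw [← hgen, IntermediateField.adjoin_le_iff]
      intro x hx
      rw [SetLike.mem_coe, IntermediateField.mem_fixedField_iff]
      intro τ hτ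
      have h1 : τ ∈ MulAction.stabilizer (L ≃ₐ[K] L) x := by
        have h2 : Subgroup.zpowers σ ≤ MulAction.stabilizer (L ≃ₐ[K] L) x := by
          rw [Subgroup.zpowers_le]
          exact hfix x hx
        exact h2 hτ
      exact h1
    ext x
    have h1 : x ∈ IntermediateField.fixedField (Subgroup.zpowers σ) :=
      htop IntermediateField.mem_top
    rw [IntermediateField.mem_fixedField_iff] at h1
    exact h1 σ (Subgroup.mem_zpowers σ)
  have hcard : (v.over L).ncard = g := by
    have h1 : MulAction.stabilizer (L ≃ₐ[K] L) w = ⊥ := by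
      rw [eq_bot_iff]
      intro σ hσ
      exact hstab σ hσ
    rw [← orbit_eq_over h, ← MulAction.index_stabilizer, h1, Subgroup.index_bot,
      IsGalois.card_aut_eq_finrank, hrank]
  refine ⟨hcard, ?_⟩
  have h1 := resDeg_mul_ncard_le (L := L) v
  rw [hcard, hrank] at h1
  have h2 := resDeg_pos (L := L) v
  have h3 : resDeg L v = 1 := by
    have h4 : resDeg L v ≤ 1 := by
      by_contra hcon
      have h5 : 2 * g ≤ resDeg L v * g := Nat.mul_le_mul_right _ (by omega)
      omega
    omega
  rw [card_residue_pow h, h3, pow_one]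

/-- Counting places in a constant field extension. -/
theorem numPoints_constExt {g : ℕ} (hg : 0 < g) (hrank : Module.finrank K L = g)
    (c : Set L) (hc : ∀ x ∈ c, x ^ (Nat.card k ^ g) = x)
    (hgen : IntermediateField.adjoin K c = ⊤)
    (hK : ∀ v : ValuationSubring K, v ≠ ⊤ →
      IsDiscreteValuationRing v ∧ Finite (ResidueField v))
    (hL : ∀ w : ValuationSubring L, w ≠ ⊤ →
      IsDiscreteValuationRing w ∧ Finite (ResidueField w))
    (hfin : ∀ d, {v : ValuationSubring K | v ≠ ⊤ ∧ degOf k v = d}.Finite)
    (hdeg : ∀ v : ValuationSubring K, v ≠ ⊤ → g ∣ degOf k v) (e : ℕ) :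
    numPoints (Nat.card k ^ g) L e = g * numPoints (Nat.card k) K (g * e) := by
  classical
  -- the place of `K` below
  have key : ∀ w : ValuationSubring L, (hw : w ≠ ⊤) →
      ∃ h : w.comap (algebraMap K L) ≠ ⊤,
        ((toPlace k (w.comap (algebraMap K L)) (hK _ h).1).over L).ncard = g ∧
        Nat.card (ResidueField w) = Nat.card (ResidueField (w.comap (algebraMap K L))) := by
    intro w hw
    have hdvr := (hL w hw).1
    have hfinw := (hL w hw).2
    have h1 : w.comap (algebraMap K L) ≠ ⊤ :=
      _root_.ZpTower.ne_top_of_dvr ((toPlace k w hdvr).restrict K).ring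
    refine ⟨h1, ?_⟩
    have hfinv := (hK _ h1).2
    have hfw : Finite (ResidueField (toPlace k w hdvr).ring) := hfinw
    have hfv : Finite (ResidueField (toPlace k (w.comap (algebraMap K L)) (hK _ h1).1).ring) :=
      hfinv
    obtain ⟨m, hm⟩ := hdeg _ h1
    exact constExt_places hg hrank c hc hgen (v := toPlace k (w.comap (algebraMap K L)) (hK _ h1).1)
      (w := toPlace k w hdvr) rfl ⟨m, by rw [← pow_mul, ← hm]; exact (card_residueField k _).1⟩
  set W := {w : ValuationSubring L // w ≠ ⊤ ∧
    Nat.card (ResidueField w) = (Nat.card k ^ g) ^ e} with hW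
  set S := {v : ValuationSubring K // v ≠ ⊤ ∧
    Nat.card (ResidueField v) = Nat.card k ^ (g * e)} with hS
  have hSfin : Finite S := by
    have h1 : {v : ValuationSubring K | v ≠ ⊤ ∧
        Nat.card (ResidueField v) = Nat.card k ^ (g * e)}.Finite := by
      refine (hfin (g * e)).subset fun v hv => ⟨hv.1, ?_⟩
      have := (hK v hv.1).2
      have h2 := (card_residueField k v).1
      rw [hv.2] at h2
      exact (Nat.pow_right_injective (Finite.one_lt_card : 2 ≤ Nat.card k) h2).symm
    exact h1.to_subtype
  let F : W → S := fun w => ⟨w.1.comap (algebraMap K L), (key w.1 w.2.1).1, by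
    rw [← (key w.1 w.2.1).2.2, w.2.2, pow_mul]⟩
  have hfib : ∀ v : S, Nat.card {w : W // F w = v} = g := by
    intro v
    have hdv := (hK v.1 v.2.1).1
    have hfv : Finite (ResidueField (toPlace k v.1 hdv).ring) := (hK v.1 v.2.1).2
    obtain ⟨w₀, hw₀⟩ := over_nonempty (L := L) (toPlace k v.1 hdv)
    have htop₀ : w₀.ring ≠ ⊤ := ne_top_of_dvr w₀.ring
    obtain ⟨h1, h2, h3⟩ := key w₀.ring htop₀
    have h4 : w₀.ring.comap (algebraMap K L) = v.1 :=
      congrArg _root_.ZpTower.Place.ring hw₀
    have h5 : toPlace k (w₀.ring.comap (algebraMap K L)) (hK _ h1).1 = toPlace k v.1 hdv :=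
      _root_.ZpTower.Place.ext h4
    rw [h5] at h2
    rw [← h2]
    refine Nat.card_congr ⟨fun w => ⟨toPlace k w.1.1 (hL w.1.1 w.1.2.1).1, ?_⟩,
      fun w => ⟨⟨w.1.ring, ne_top_of_dvr w.1.ring, ?_⟩, ?_⟩, fun w => ?_, fun w => ?_⟩
    · apply _root_.ZpTower.Place.ext
      exact congrArg Subtype.val w.2
    · obtain ⟨h6, -, h8⟩ := key w.1.ring (ne_top_of_dvr w.1.ring)
      have h9 : w.1.ring.comap (algebraMap K L) = v.1 :=
        congrArg _root_.ZpTower.Place.ring w.2
      rw [h8, h9, v.2.2, pow_mul]
    · apply Subtype.ext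
      exact congrArg _root_.ZpTower.Place.ring w.2
    · rfl
    · rfl
  have := Fintype.ofFinite S
  have hfibfin : ∀ v : S, Finite {w : W // F w = v} := fun v =>
    Nat.finite_of_card_ne_zero (by rw [hfib v]; exact hg.ne')
  have h1 : Nat.card W = ∑ v : S, Nat.card {w : W // F w = v} := by
    rw [← Nat.card_sigma]
    exact Nat.card_congr (Equiv.sigmaFiberEquiv F).symm
  have h2 : Nat.card W = Nat.card S * g := by
    rw [h1, Finset.sum_congr rfl fun v _ => hfib v, Finset.sum_const, Finset.card_univ,
      smul_eq_mul, Nat.card_eq_fintype_card]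
  show Nat.card W = g * Nat.card S
  rw [h2, mul_comm]

end places

end Pool.Agent.Helper7
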