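import Pool.Agent.Helper7.Aug

set_option autoImplicit false

namespace Pool.Agent.Helper7

open TensorProduct

section core

variable {F R K : Type*} [Field F] [CommRing R] [Algebra F R] [AddCommGroup K] [Module F K]

/-- The inclusion `R ⊗ U → R ⊗ K` for a subspace `U` of `K`. -/
noncomputable abbrev inc (R : Type*) [CommRing R] [Algebra F R] (U : Submodule F K) :
    R ⊗[F] U →ₗ[R] R ⊗[F] K :=
  U.subtype.baseChange R

/-- The inclusion `R ⊗ U → R ⊗ U'` for subspaces `U ≤ U'` of `K`. -/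
noncomputable abbrev incl (R : Type*) [CommRing R] [Algebra F R] {U U' : Submodule F K}
    (h : U ≤ U') : R ⊗[F] U →ₗ[R] R ⊗[F] U' :=
  (Submodule.inclusion h).baseChange R

theorem inc_injective (U : Submodule F K) : Function.Injective (inc R U) :=
  Module.Flat.lTensor_preserves_injective_linearMap U.subtype U.injective_subtype

theorem incl_injective {U U' : Submodule F K} (h : U ≤ U') : Function.Injective (incl R h) :=
  Module.Flat.lTensor_preserves_injective_linearMap (Submodule.inclusion h)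
    (Submodule.inclusion_injective h)

theorem inc_incl {U U' : Submodule F K} (h : U ≤ U') (y : R ⊗[F] U) :
    inc R U' (incl R h y) = inc R U y := by
  rw [← LinearMap.comp_apply]
  congr 1
  ext x
  simp [inc, incl]

theorem augMap_inc (ε : R →ₐ[F] F) (U : Submodule F K) (y : R ⊗[F] U) :
    augMap ε (inc R U y) = (augMap ε y : U) := by
  induction y using TensorProduct.induction_on with
  | zero => simp
  | tmul r e => simp [inc]
  | add x y hx hy => simp only [map_add, hx, hy, Submodule.coe_add]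

theorem isCompl_comap {E₀ W E : Submodule F K} (h₀ : E₀ ≤ E) (hW : W ≤ E) (hsup : E₀ ⊔ W = E)
    (hinf : E₀ ⊓ W = ⊥) : IsCompl (E₀.comap E.subtype) (W.comap E.subtype) := by
  constructor
  · rw [disjoint_iff, ← Submodule.comap_inf, hinf]
    ext x; simp
  · rw [codisjoint_iff]
    refine Submodule.map_injective_of_injective E.injective_subtype ?_
    rw [Submodule.map_sup, Submodule.map_comap_subtype, Submodule.map_comap_subtype,
      inf_eq_right.mpr h₀, inf_eq_right.mpr hW, hsup, Submodule.map_top, Submodule.range_subtype]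

/-- A map on `R ⊗ E` with prescribed restrictions to two complementary subspaces. -/
theorem exists_map {E₀ W E : Submodule F K} (h₀ : E₀ ≤ E) (hW : W ≤ E) (hsup : E₀ ⊔ W = E)
    (hinf : E₀ ⊓ W = ⊥) {X : Type*} [AddCommGroup X] [Module R X] [Module F X]
    [IsScalarTower F R X] (α β : K →ₗ[F] X) :
    ∃ S : R ⊗[F] E →ₗ[R] X,
      (∀ e : E, (e : K) ∈ E₀ → S (1 ⊗ₜ e) = α e) ∧ (∀ e : E, (e : K) ∈ W → S (1 ⊗ₜ e) = β e) := by
  have hc := isCompl_comap h₀ hW hsup hinf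
  let φ : E →ₗ[F] X := LinearMap.ofIsCompl hc
    (α ∘ₗ E.subtype ∘ₗ (E₀.comap E.subtype).subtype) (β ∘ₗ E.subtype ∘ₗ (W.comap E.subtype).subtype)
  refine ⟨φ.liftBaseChange R, fun e he => ?_, fun e he => ?_⟩
  · rw [LinearMap.liftBaseChange_tmul, one_smul]
    exact LinearMap.ofIsCompl_apply_left hc ⟨e, he⟩
  · rw [LinearMap.liftBaseChange_tmul, one_smul]
    exact LinearMap.ofIsCompl_apply_right hc ⟨e, he⟩

/-- A linear condition on `R ⊗ E` can be checked on a sum decomposition. -/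
theorem mem_of_sup {E₀ W E : Submodule F K} (hsup : E₀ ⊔ W = E) {Z : Type*} [AddCommGroup Z]
    [Module R Z] (S : R ⊗[F] E →ₗ[R] Z) (N : Submodule R Z)
    (h₀ : ∀ e : E, (e : K) ∈ E₀ → S (1 ⊗ₜ e) ∈ N)
    (hW : ∀ e : E, (e : K) ∈ W → S (1 ⊗ₜ e) ∈ N) (y : R ⊗[F] E) : S y ∈ N := by
  have key : ∀ e : E, S (1 ⊗ₜ e) ∈ N := by
    intro e
    have he : (e : K) ∈ E₀ ⊔ W := by rw [hsup]; exact e.2
    obtain ⟨a, ha, b, hb, hab⟩ := Submodule.mem_sup.mp he
    have haE : a ∈ E := hsup ▸ Submodule.mem_sup_left ha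
    have hbE : b ∈ E := hsup ▸ Submodule.mem_sup_right hb
    have : e = ⟨a, haE⟩ + ⟨b, hbE⟩ := Subtype.ext hab.symm
    rw [this, TensorProduct.tmul_add, map_add]
    exact N.add_mem (h₀ ⟨a, haE⟩ ha) (hW ⟨b, hbE⟩ hb)
  induction y using TensorProduct.induction_on with
  | zero => rw [map_zero]; exact N.zero_mem
  | tmul r e =>
    have : r ⊗ₜ[F] e = r • ((1 : R) ⊗ₜ[F] e) := by
      rw [TensorProduct.smul_tmul', smul_eq_mul, mul_one]
    rw [this, map_smul]
    exact N.smul_mem _ (key e)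
  | add x y hx hy => rw [map_add]; exact N.add_mem hx hy

/-- The endomorphism of `R ⊗ E` which is `Φ` on `E₀` and the identity on a complement `W`. -/
theorem exists_endo {E₀ W E : Submodule F K} (h₀ : E₀ ≤ E) (hW : W ≤ E) (hsup : E₀ ⊔ W = E)
    (hinf : E₀ ⊓ W = ⊥) (Φ : R ⊗[F] K →ₗ[R] R ⊗[F] K)
    (hΦ : ∀ e ∈ E₀, Φ (1 ⊗ₜ e) ∈ LinearMap.range (inc R E)) :
    ∃ T : R ⊗[F] E →ₗ[R] R ⊗[F] E,
      (∀ e : E, (e : K) ∈ E₀ → inc R E (T (1 ⊗ₜ e)) = Φ (1 ⊗ₜ (e : K))) ∧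
      (∀ e : E, (e : K) ∈ W → T (1 ⊗ₜ e) = 1 ⊗ₜ e) := by
  obtain ⟨S, hS₀, hSW⟩ := exists_map (R := R) h₀ hW hsup hinf
    (Φ.restrictScalars F ∘ₗ TensorProduct.mk F R K 1) (TensorProduct.mk F R K 1)
  obtain ⟨T, hT⟩ := exists_lift (inc R E) (inc_injective E) S
    (mem_of_sup hsup S _ (fun e he => by rw [hS₀ e he]; exact hΦ _ he)
      (fun e he => by rw [hSW e he]; exact ⟨1 ⊗ₜ e, by simp [inc]⟩))
  refine ⟨T, fun e he => ?_, fun e he => ?_⟩
  · rw [hT, hS₀ e he]; rfl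
  · refine inc_injective E ?_
    rw [hT, hSW e he]
    simp [inc]

/-- Extensionality on `R ⊗ E` when `E = E₀ + W`. -/
theorem ext_of_sup {E₀ W E : Submodule F K} (hsup : E₀ ⊔ W = E) {Z : Type*} [AddCommGroup Z]
    [Module R Z] (S T : R ⊗[F] E →ₗ[R] Z)
    (h₀ : ∀ e : E, (e : K) ∈ E₀ → S (1 ⊗ₜ e) = T (1 ⊗ₜ e))
    (hW : ∀ e : E, (e : K) ∈ W → S (1 ⊗ₜ e) = T (1 ⊗ₜ e)) : S = T := by
  have key : ∀ e : E, S (1 ⊗ₜ e) = T (1 ⊗ₜ e) := by
    intro e
    have he : (e : K) ∈ E₀ ⊔ W := by rw [hsup]; exact e.2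
    obtain ⟨a, ha, b, hb, hab⟩ := Submodule.mem_sup.mp he
    have haE : a ∈ E := hsup ▸ Submodule.mem_sup_left ha
    have hbE : b ∈ E := hsup ▸ Submodule.mem_sup_right hb
    have : e = ⟨a, haE⟩ + ⟨b, hbE⟩ := Subtype.ext hab.symm
    rw [this, TensorProduct.tmul_add, map_add, map_add, h₀ ⟨a, haE⟩ ha, hW ⟨b, hbE⟩ hb]
  refine LinearMap.ext fun x => ?_
  induction x using TensorProduct.induction_on with
  | zero => simp
  | tmul r e =>
    have : r ⊗ₜ[F] e = r • ((1 : R) ⊗ₜ[F] e) := by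
      rw [TensorProduct.smul_tmul', smul_eq_mul, mul_one]
    rw [this, map_smul, map_smul, key]
  | add x y hx hy => rw [map_add, map_add, hx, hy]

theorem aug_endo {E₀ W E : Submodule F K} (hsup : E₀ ⊔ W = E) (ε : R →ₐ[F] F)
    (Φ : R ⊗[F] K →ₗ[R] R ⊗[F] K) (hΦε : ∀ z : K, augMap ε (Φ (1 ⊗ₜ z)) = z)
    (T : R ⊗[F] E →ₗ[R] R ⊗[F] E)
    (hT₀ : ∀ e : E, (e : K) ∈ E₀ → inc R E (T (1 ⊗ₜ e)) = Φ (1 ⊗ₜ (e : K)))
    (hTW : ∀ e : E, (e : K) ∈ W → T (1 ⊗ₜ e) = 1 ⊗ₜ e) (e : E) :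
    augMap ε (T (1 ⊗ₜ e)) = e := by
  have he : (e : K) ∈ E₀ ⊔ W := by rw [hsup]; exact e.2
  obtain ⟨a, ha, b, hb, hab⟩ := Submodule.mem_sup.mp he
  have haE : a ∈ E := hsup ▸ Submodule.mem_sup_left ha
  have hbE : b ∈ E := hsup ▸ Submodule.mem_sup_right hb
  have h1 : e = ⟨a, haE⟩ + ⟨b, hbE⟩ := Subtype.ext hab.symm
  rw [h1, TensorProduct.tmul_add, map_add, map_add]
  congr 1
  · refine Subtype.ext ?_
    rw [← augMap_inc, hT₀ _ ha, hΦε]
  · rw [hTW _ hb]; simp

theorem core_det (ε : R →ₐ[F] F) (hε : ∀ x, ε x = 1 → IsUnit x)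
    (Φ Ψ : R ⊗[F] K →ₗ[R] R ⊗[F] K) (hΦΨ : ∀ x, Φ (Ψ x) = x)
    (Γ : K →ₗ[F] K) (hΓ : Function.Injective Γ)
    (hcomm : ∀ x, Φ (Γ.baseChange R x) = Γ.baseChange R (Φ x))
    (hΦε : ∀ z : K, augMap ε (Φ (1 ⊗ₜ z)) = z)
    (E₀ E D : Submodule F K) [FiniteDimensional F E] (h₀ : E₀ ≤ E) (hD : D ≤ E)
    (hD' : D.map Γ ≤ E)
    (hΦE : ∀ e ∈ E₀, Φ (1 ⊗ₜ e) ∈ LinearMap.range (inc R E))
    (hΦD : ∀ d ∈ D, d ∈ E₀ → Φ (1 ⊗ₜ d) ∈ LinearMap.range (inc R D))
    (hs : E₀ ⊔ D = E) (hs' : E₀ ⊔ D.map Γ = E)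
    (hΓ₀ : ∀ d ∈ D, Γ d ∈ E₀ ↔ d ∈ E₀)
    (hΨ : ∀ d ∈ D, Ψ (1 ⊗ₜ (Γ d - d)) ∈ LinearMap.range (inc R E₀))
    {Q Q' : Type*} [AddCommGroup Q] [Module F Q] [AddCommGroup Q'] [Module F Q']
    (q : E →ₗ[F] Q) (q' : E →ₗ[F] Q') (hq : Function.Surjective q) (hq' : Function.Surjective q')
    (hqD : ∀ e, q e = 0 ↔ (e : K) ∈ D) (hqD' : ∀ e, q' e = 0 ↔ (e : K) ∈ D.map Γ)
    (δ : R ⊗[F] Q →ₗ[R] R ⊗[F] Q) (δ' : R ⊗[F] Q' →ₗ[R] R ⊗[F] Q')
    (hδ : ∀ e : E, (e : K) ∈ E₀ → ∀ y : R ⊗[F] E, inc R E y = Φ (1 ⊗ₜ (e : K)) →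
      q.baseChange R y = δ (1 ⊗ₜ q e))
    (hδ' : ∀ e : E, (e : K) ∈ E₀ → ∀ y : R ⊗[F] E, inc R E y = Φ (1 ⊗ₜ (e : K)) →
      q'.baseChange R y = δ' (1 ⊗ₜ q' e)) :
    LinearMap.det δ = LinearMap.det δ' := by
  classical
  -- complement of `D ⊓ E₀` in `D`
  obtain ⟨W₀, hW₀⟩ := Submodule.exists_isCompl (D ⊓ E₀)
  set W : Submodule F K := W₀ ⊓ D with hWdef
  have hWD : W ≤ D := inf_le_right
  have hsupW : (D ⊓ E₀) ⊔ W = D := by
    rw [hWdef, ← sup_inf_assoc_of_le W₀ (inf_le_left : D ⊓ E₀ ≤ D), hW₀.sup_eq_top, top_inf_eq]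
  have hinfW : (D ⊓ E₀) ⊓ W = ⊥ := by
    rw [hWdef, ← inf_assoc, hW₀.inf_eq_bot, bot_inf_eq]
  have hsup : E₀ ⊔ W = E := by
    refine le_antisymm (sup_le h₀ (hWD.trans hD)) ?_
    rw [← hs]
    refine sup_le le_sup_left ?_
    calc D = (D ⊓ E₀) ⊔ W := hsupW.symm
      _ ≤ E₀ ⊔ W := sup_le_sup_right inf_le_right _
  have hinf : E₀ ⊓ W = ⊥ := by
    rw [eq_bot_iff, ← hinfW]
    exact le_inf (le_inf (inf_le_right.trans hWD) inf_le_left) inf_le_right
  have hWE : W ≤ E := hWD.trans hD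
  -- the image of `W`
  set W' : Submodule F K := W.map Γ with hW'def
  have hW'D : W' ≤ D.map Γ := Submodule.map_mono hWD
  have hW'E : W' ≤ E := hW'D.trans hD'
  have hsup' : E₀ ⊔ W' = E := by
    refine le_antisymm (sup_le h₀ hW'E) ?_
    rw [← hs']
    refine sup_le le_sup_left ?_
    rw [← hsupW, Submodule.map_sup]
    refine sup_le_sup_right ?_ _
    rintro _ ⟨d, hd, rfl⟩
    exact (hΓ₀ d hd.1).mpr hd.2
  have hinf' : E₀ ⊓ W' = ⊥ := by
    rw [eq_bot_iff]
    rintro _ ⟨h1, d, hd, rfl⟩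
    have h2 : d ∈ E₀ := (hΓ₀ d (hWD hd)).mp h1
    have : d ∈ E₀ ⊓ W := ⟨h2, hd⟩
    rw [hinf, Submodule.mem_bot] at this
    simp [this]
  obtain ⟨T, hT₀, hTW⟩ := exists_endo h₀ hWE hsup hinf Φ hΦE
  obtain ⟨T', hT'₀, hT'W⟩ := exists_endo h₀ hW'E hsup' hinf' Φ hΦE
  -- (A) restriction of `T` to `R ⊗ D`
  obtain ⟨TD, hTD⟩ := exists_lift (incl R hD) (incl_injective hD) (T ∘ₗ incl R hD)
    (mem_of_sup hsupW (T ∘ₗ incl R hD) _
      (fun d hd => by
        obtain ⟨y, hy⟩ := hΦD d d.2 hd.2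
        refine ⟨y, inc_injective E ?_⟩
        rw [inc_incl, hy, LinearMap.comp_apply]
        have : incl R hD (1 ⊗ₜ[F] d) = 1 ⊗ₜ[F] (⟨d, hD d.2⟩ : E) := by simp [incl]; rfl
        rw [this, hT₀ _ hd.2])
      (fun d hd => by
        refine ⟨1 ⊗ₜ d, ?_⟩
        rw [LinearMap.comp_apply]
        have : incl R hD (1 ⊗ₜ[F] d) = 1 ⊗ₜ[F] (⟨d, hD d.2⟩ : E) := by simp [incl]; rfl
        rw [this, hTW _ hd]))
  -- (B) conjugation by `Γ`
  let γ₀ : D ≃ₗ[F] D.map Γ := Submodule.equivMapOfInjective Γ hΓ D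
  let γ : R ⊗[F] D ≃ₗ[R] R ⊗[F] (D.map Γ) := γ₀.baseChange F R D (D.map Γ)
  have hγ : ∀ x : R ⊗[F] D, inc R (D.map Γ) (γ x) = Γ.baseChange R (inc R D x) := by
    intro x
    induction x using TensorProduct.induction_on with
    | zero => simp
    | tmul r d => simp [γ, γ₀, inc]
    | add x y hx hy => simp only [map_add, hx, hy]
  have hconj : ∀ x : R ⊗[F] D, incl R hD' (γ (TD x)) = T' (incl R hD' (γ x)) := by
    intro x
    refine inc_injective E ?_
    have : (inc R E ∘ₗ incl R hD' ∘ₗ γ.toLinearMap ∘ₗ TD) =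
        (inc R E ∘ₗ T' ∘ₗ incl R hD' ∘ₗ γ.toLinearMap) := by
      refine ext_of_sup hsupW _ _ (fun d hd => ?_) (fun d hd => ?_)
      · simp only [LinearMap.comp_apply, LinearEquiv.coe_coe]
        rw [inc_incl, hγ, ← inc_incl hD, hTD, LinearMap.comp_apply]
        have h1 : incl R hD (1 ⊗ₜ[F] d) = 1 ⊗ₜ[F] (⟨d, hD d.2⟩ : E) := by simp [incl]; rfl
        have h2 : incl R hD' (γ (1 ⊗ₜ[F] d)) =
            1 ⊗ₜ[F] (⟨Γ d, hD' ⟨d, d.2, rfl⟩⟩ : E) := by simp [incl, γ, γ₀]; rfl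
        rw [h1, h2, hT₀ _ hd.2, hT'₀ _ ((hΓ₀ d d.2).mpr hd.2), ← hcomm]
        simp
      · simp only [LinearMap.comp_apply, LinearEquiv.coe_coe]
        rw [inc_incl, hγ, ← inc_incl hD, hTD, LinearMap.comp_apply]
        have h1 : incl R hD (1 ⊗ₜ[F] d) = 1 ⊗ₜ[F] (⟨d, hD d.2⟩ : E) := by simp [incl]; rfl
        have h2 : incl R hD' (γ (1 ⊗ₜ[F] d)) =
            1 ⊗ₜ[F] (⟨Γ d, hD' ⟨d, d.2, rfl⟩⟩ : E) := by simp [incl, γ, γ₀]; rfl
        rw [h1, h2, hTW _ hd, hT'W _ ⟨d, hd, rfl⟩]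
        simp [inc]
    exact LinearMap.congr_fun this x
  -- (C) the two exact sequences
  have : FiniteDimensional F D := Submodule.finiteDimensional_of_le hD
  have : FiniteDimensional F (D.map Γ) := Submodule.finiteDimensional_of_le hD'
  have : FiniteDimensional F Q := Module.Finite.of_surjective q hq
  have : FiniteDimensional F Q' := Module.Finite.of_surjective q' hq'
  have hdetT : LinearMap.det T = LinearMap.det TD * LinearMap.det δ := by
    refine det_of_exact (incl R hD) (q.baseChange R) (incl_injective hD)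
      (LinearMap.lTensor_surjective _ (g := q) hq)
      (lTensor_exact R (f := Submodule.inclusion hD) (g := q) ?_ hq) TD T δ ?_ ?_
    · intro e
      rw [hqD]
      constructor
      · intro he; exact ⟨⟨e, he⟩, rfl⟩
      · rintro ⟨d, rfl⟩; exact d.2
    · refine LinearMap.ext fun x => ?_
      exact (hTD x).symm
    · refine ext_of_sup hsup _ _ (fun e he => ?_) (fun e he => ?_)
      · simp only [LinearMap.comp_apply, LinearMap.baseChange_tmul]
        exact hδ e he _ (hT₀ e he)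
      · simp only [LinearMap.comp_apply, LinearMap.baseChange_tmul]
        rw [hTW e he, LinearMap.baseChange_tmul, (hqD e).mpr (hWD he)]
        simp
  have hdetT' : LinearMap.det T' = LinearMap.det TD * LinearMap.det δ' := by
    have hTD' : LinearMap.det (γ.toLinearMap ∘ₗ TD ∘ₗ γ.symm.toLinearMap) = LinearMap.det TD :=
      LinearMap.det_conj TD γ
    rw [← hTD']
    refine det_of_exact (incl R hD') (q'.baseChange R) (incl_injective hD')
      (LinearMap.lTensor_surjective _ (g := q') hq')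
      (lTensor_exact R (f := Submodule.inclusion hD') (g := q') ?_ hq') _ T' δ' ?_ ?_
    · intro e
      rw [hqD']
      constructor
      · intro he; exact ⟨⟨e, he⟩, rfl⟩
      · rintro ⟨d, rfl⟩; exact d.2
    · refine LinearMap.ext fun x => ?_
      obtain ⟨x, rfl⟩ := γ.surjective x
      simp only [LinearMap.comp_apply, LinearEquiv.coe_coe, LinearEquiv.symm_apply_apply]
      exact (hconj x).symm
    · refine ext_of_sup hsup' _ _ (fun e he => ?_) (fun e he => ?_)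
      · simp only [LinearMap.comp_apply, LinearMap.baseChange_tmul]
        exact hδ' e he _ (hT'₀ e he)
      · simp only [LinearMap.comp_apply, LinearMap.baseChange_tmul]
        rw [hT'W e he, LinearMap.baseChange_tmul, (hqD' e).mpr (hW'D he)]
        simp
  -- (D) the comparison maps
  have hc := isCompl_comap h₀ hWE hsup hinf
  obtain ⟨θ, hθ₀, hθW⟩ : ∃ θ : E →ₗ[F] E, (∀ e : E, (e : K) ∈ E₀ → θ e = e) ∧
      ∀ e : E, (e : K) ∈ W → (θ e : K) = Γ e := by
    let ΓW : (W.comap E.subtype) →ₗ[F] E :=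
      (Γ ∘ₗ E.subtype ∘ₗ (W.comap E.subtype).subtype).codRestrict E
        (fun w => hW'E ⟨_, w.2, rfl⟩)
    refine ⟨LinearMap.ofIsCompl hc (E₀.comap E.subtype).subtype ΓW, fun e he => ?_, fun e he => ?_⟩
    · exact LinearMap.ofIsCompl_apply_left hc ⟨e, he⟩
    · exact congrArg Subtype.val (LinearMap.ofIsCompl_apply_right hc (φ := (E₀.comap E.subtype).subtype) (ψ := ΓW) ⟨e, he⟩)
  obtain ⟨S, hS₀, hSW⟩ := exists_map (R := R) h₀ hWE hsup hinf (X := R ⊗[F] K) 0
    (Ψ.restrictScalars F ∘ₗ TensorProduct.mk F R K 1 ∘ₗ (Γ - LinearMap.id))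
  obtain ⟨ν₀, hν₀⟩ := exists_lift (inc R E₀) (inc_injective E₀) S
    (mem_of_sup hsup S _ (fun e he => by rw [hS₀ e he]; exact Submodule.zero_mem _)
      (fun e he => by rw [hSW e he]; exact hΨ e (hWD he)))
  have hνE₀ : ∀ e : E, (e : K) ∈ E₀ → ν₀ (1 ⊗ₜ e) = 0 := fun e he => by
    refine inc_injective E₀ ?_
    rw [hν₀, hS₀ e he, map_zero]; rfl
  have hνW : ∀ e : E, (e : K) ∈ W → inc R E₀ (ν₀ (1 ⊗ₜ e)) = Ψ (1 ⊗ₜ (Γ e - e)) := fun e he => by
    rw [hν₀, hSW e he]; rfl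
  let ν : R ⊗[F] E →ₗ[R] R ⊗[F] E := incl R h₀ ∘ₗ ν₀
  have hν_incl : ∀ y, ν (incl R h₀ y) = 0 := by
    intro y
    induction y using TensorProduct.induction_on with
    | zero => simp
    | tmul r e =>
      have h1 : incl R h₀ (r ⊗ₜ[F] e) = r • (1 ⊗ₜ[F] (⟨e, h₀ e.2⟩ : E)) := by
        simp [incl, TensorProduct.smul_tmul']; rfl
      rw [h1, map_smul]
      simp only [ν, LinearMap.comp_apply]
      rw [hνE₀ _ e.2]; simp
    | add x y hx hy => rw [map_add, map_add, hx, hy, add_zero]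
  have hdetν : LinearMap.det (1 + ν) = 1 := by
    have hfin : FiniteDimensional F E₀ := Submodule.finiteDimensional_of_le h₀
    have := det_of_exact (R := R) (incl R h₀)
      ((Submodule.mkQ (E₀.comap E.subtype)).baseChange R) (incl_injective h₀)
      (LinearMap.lTensor_surjective _ (g := Submodule.mkQ (E₀.comap E.subtype))
        (Submodule.mkQ_surjective _))
      (lTensor_exact R (f := Submodule.inclusion h₀) (g := Submodule.mkQ (E₀.comap E.subtype)) ?_
        (Submodule.mkQ_surjective _)) 1 (1 + ν) 1 ?_ ?_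
    · rw [this]; simp
    · intro e
      rw [Submodule.mkQ_apply, Submodule.Quotient.mk_eq_zero]
      constructor
      · intro he; exact ⟨⟨e, he⟩, rfl⟩
      · rintro ⟨d, rfl⟩; exact d.2
    · refine LinearMap.ext fun x => ?_
      simp only [LinearMap.comp_apply, LinearMap.add_apply, Module.End.one_apply]
      rw [hν_incl, add_zero]
    · refine LinearMap.ext fun x => ?_
      simp only [LinearMap.comp_apply, LinearMap.add_apply, Module.End.one_apply, map_add]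
      have h2 : ∀ y, ((Submodule.mkQ (E₀.comap E.subtype)).baseChange R) (incl R h₀ y) = 0 := by
        intro y
        induction y using TensorProduct.induction_on with
        | zero => simp
        | tmul r e =>
          simp only [incl, LinearMap.baseChange_tmul]
          have : (Submodule.mkQ (E₀.comap E.subtype)) (Submodule.inclusion h₀ e) = 0 := by
            rw [Submodule.mkQ_apply, Submodule.Quotient.mk_eq_zero]; exact e.2
          rw [this, TensorProduct.tmul_zero]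
        | add x y hx hy => rw [map_add, map_add, hx, hy, add_zero]
      simp only [ν, LinearMap.comp_apply, h2, add_zero]
  -- (E) the main identity
  have hTincl : ∀ y, inc R E (T (incl R h₀ y)) = Φ (inc R E₀ y) := by
    intro y
    induction y using TensorProduct.induction_on with
    | zero => simp
    | tmul r e =>
      have h1 : incl R h₀ (r ⊗ₜ[F] e) = r • (1 ⊗ₜ[F] (⟨e, h₀ e.2⟩ : E)) := by
        simp [incl, TensorProduct.smul_tmul']; rfl
      have h2 : inc R E₀ (r ⊗ₜ[F] e) = r • (1 ⊗ₜ[F] (e : K)) := by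
        simp [inc, TensorProduct.smul_tmul']
      rw [h1, h2, map_smul, map_smul, map_smul, hT₀ _ e.2]
    | add x y hx hy => rw [map_add, map_add, map_add, map_add, map_add, hx, hy]
  have hmain : T' ∘ₗ θ.baseChange R = T ∘ₗ (1 + ν) := by
    refine ext_of_sup hsup _ _ (fun e he => ?_) (fun e he => ?_)
    · simp only [LinearMap.comp_apply, LinearMap.baseChange_tmul, LinearMap.add_apply,
        Module.End.one_apply, ν]
      rw [hνE₀ e he, hθ₀ e he, map_zero, add_zero]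
      refine inc_injective E ?_
      rw [hT₀ e he, hT'₀ e he]
    · simp only [LinearMap.comp_apply, LinearMap.baseChange_tmul, LinearMap.add_apply,
        Module.End.one_apply, ν]
      refine inc_injective E ?_
      rw [hT'W _ ⟨e, he, (hθW e he).symm⟩, map_add, map_add, hTW e he, hTincl, hνW e he, hΦΨ]
      simp only [inc, LinearMap.baseChange_tmul, Submodule.subtype_apply]
      rw [hθW e he, ← TensorProduct.tmul_add]
      congr 1
      abel
  -- (F) augmentations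
  have hT1 : ε (LinearMap.det T) = 1 :=
    aug_det_eq_one ε T (aug_endo hsup ε Φ hΦε T hT₀ hTW)
  have hT'1 : ε (LinearMap.det T') = 1 :=
    aug_det_eq_one ε T' (aug_endo hsup' ε Φ hΦε T' hT'₀ hT'W)
  have hdetθ : LinearMap.det θ = 1 := by
    have h1 := congrArg LinearMap.det hmain
    rw [LinearMap.det_comp, LinearMap.det_comp, hdetν, mul_one, LinearMap.det_baseChange] at h1
    have h2 := congrArg ε h1
    rw [map_mul, hT1, hT'1, one_mul] at h2
    simpa using h2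
  have hTT' : LinearMap.det T' = LinearMap.det T := by
    have h1 := congrArg LinearMap.det hmain
    rw [LinearMap.det_comp, LinearMap.det_comp, hdetν, mul_one, LinearMap.det_baseChange, hdetθ,
      map_one, mul_one] at h1
    exact h1
  -- (G) conclusion
  have hunit : IsUnit (LinearMap.det TD) := by
    have := hε _ hT1
    rw [hdetT] at this
    exact isUnit_of_mul_isUnit_left this
  rw [hdetT, hdetT'] at hTT'
  exact (hunit.mul_left_cancel hTT').symm

end core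

end Pool.Agent.Helper7
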