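import Pool.Agent.Helper7.Char

set_option autoImplicit false

namespace Pool.Agent.Helper7

open Pool.Agent.Helper92

section tower

variable {p : ℕ} [Fact p.Prime] {k K Ω : Type*} [Field k] [Finite k] [CharP k p]
    [Field K] [Field Ω] [Algebra k K] [Algebra K Ω] [Algebra k Ω] [IsScalarTower k K Ω]

/-- The number of closed points of degree `d` of `C_n` above the ramification locus. -/
noncomputable def ramCount (T : ZpTower p k K Ω) (n d : ℕ) : ℕ :=
  Nat.card {w : ValuationSubring (T.field n) //
    w.comap (algebraMap K (T.field n)) ∈ T.ramificationLocus ∧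
      Nat.card (IsLocalRing.ResidueField w) = Nat.card k ^ d}

/-- The closed points outside the ramification locus. -/
abbrev unramPoint (T : ZpTower p k K Ω) : Type _ :=
  {v : ValuationSubring K // v ≠ ⊤ ∧ v ∉ T.ramificationLocus}

theorem numPoints_eq (T : ZpTower p k K Ω) (a : ValuationSubring K → ℤ_[p]) (ha : IsFrob T a)
    (hfin : ∀ d, {v : unramPoint T | degOf k v.1 = d}.Finite) (n : ℕ)
    (hram : {w : ValuationSubring (T.field n) |
        w.comap (algebraMap K (T.field n)) ∈ T.ramificationLocus}.Finite) (d : ℕ) :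
    numPoints (Nat.card k) (T.field n) d =
      pointCount (fun v : unramPoint T => degOf k v.1) (fun v => a v.1) (ramCount T n) n d := by
  have hp : p.Prime := Fact.out
  have hNe : NeZero (p ^ n) := ⟨pow_ne_zero _ hp.ne_zero⟩
  obtain ⟨hfd, -, -, -⟩ := T.finrank_field n
  have hq : 2 ≤ Nat.card k := Finite.one_lt_card
  -- the fibre over an unramified point
  let fib : unramPoint T → Set (ValuationSubring (T.field n)) := fun v =>
    {w | w.comap (algebraMap K (T.field n)) = v.1}
  have hfibcard : ∀ v, Nat.card (fib v) * addOrderOf (PadicInt.toZModPow n (a v.1)) = p ^ n :=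
    fun v => (ha v.1 v.2.1 v.2.2 n).2
  have hord : ∀ v : unramPoint T, 0 < addOrderOf (PadicInt.toZModPow n (a v.1)) := fun v =>
    Nat.pos_of_ne_zero fun h => hNe.out (by rw [← hfibcard v, h, mul_zero])
  have hfibcard' : ∀ v, Nat.card (fib v) = p ^ n / addOrderOf (PadicInt.toZModPow n (a v.1)) :=
    fun v => (Nat.div_eq_of_eq_mul_left (hord v) (hfibcard v).symm).symm
  have hfibfin : ∀ v, (fib v).Finite := fun v => by
    refine Set.finite_coe_iff.mp (Nat.finite_of_card_ne_zero fun h => hNe.out ?_)
    rw [← hfibcard v, h, zero_mul]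
  have hne : ∀ v w, w ∈ fib v → w ≠ ⊤ := by
    rintro v w hw rfl
    apply v.2.1
    rw [← hw]
    rw [eq_top_iff]
    intro x _
    trivial
  have hdeg : ∀ v w, w ∈ fib v → (Nat.card (IsLocalRing.ResidueField w) = Nat.card k ^ d ↔
      degOf k v.1 * addOrderOf (PadicInt.toZModPow n (a v.1)) = d) := by
    intro v w hw
    have := (T.dvr v.1 v.2.1).2
    rw [((ha v.1 v.2.1 v.2.2 n).1 w hw).2, (card_residueField k v.1).1, ← pow_mul]
    exact (Nat.pow_right_injective hq).eq_iff
  -- decomposition of the set of points of degree `d`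
  let F : Set (unramPoint T) :=
    {v | degOf k v.1 * addOrderOf (PadicInt.toZModPow n (a v.1)) = d}
  have hF : F.Finite := by
    refine Set.Finite.subset (Set.Finite.biUnion (Set.finite_Iic d) fun d' _ => hfin d')
      fun v hv => ?_
    simp only [Set.mem_iUnion, Set.mem_Iic]
    refine ⟨degOf k v.1, ?_, rfl⟩
    have h1 : degOf k v.1 * addOrderOf (PadicInt.toZModPow n (a v.1)) = d := hv
    rw [← h1]
    exact Nat.le_mul_of_pos_right _ (hord v)
  let WS : Set (ValuationSubring (T.field n)) :=
    {w | w.comap (algebraMap K (T.field n)) ∈ T.ramificationLocus ∧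
      Nat.card (IsLocalRing.ResidueField w) = Nat.card k ^ d}
  have hWS : WS.Finite := hram.subset fun w hw => hw.1
  let W : Set (ValuationSubring (T.field n)) :=
    {w | w ≠ ⊤ ∧ Nat.card (IsLocalRing.ResidueField w) = Nat.card k ^ d}
  have hW : W = WS ∪ ⋃ v ∈ F, fib v := by
    ext w
    simp only [Set.mem_union, Set.mem_iUnion, exists_prop]
    constructor
    · rintro ⟨hw, hwd⟩
      by_cases h : w.comap (algebraMap K (T.field n)) ∈ T.ramificationLocus
      · exact Or.inl ⟨h, hwd⟩
      · have h1 := comap_ne_top (K := K) w hw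
        refine Or.inr ⟨⟨_, h1, h⟩, ?_, rfl⟩
        exact (hdeg ⟨_, h1, h⟩ w rfl).mp hwd
    · rintro (⟨h1, h2⟩ | ⟨v, hv, hw⟩)
      · refine ⟨?_, h2⟩
        rintro rfl
        apply h1.1
        rw [eq_top_iff]
        intro x _
        trivial
      · exact ⟨hne v w hw, (hdeg v w hw).mpr hv⟩
  have hdisj : Disjoint WS (⋃ v ∈ F, fib v) := by
    rw [Set.disjoint_left]
    rintro w ⟨h1, _⟩ h2
    simp only [Set.mem_iUnion, exists_prop] at h2
    obtain ⟨v, _, hw⟩ := h2
    have h3 : w.comap (algebraMap K (T.field n)) = v.1 := hw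
    rw [h3] at h1
    exact v.2.2 h1
  have hdisj' : F.PairwiseDisjoint fib := by
    intro v _ v' _ hvv'
    rw [Function.onFun, Set.disjoint_left]
    intro w hw hw'
    apply hvv'
    apply Subtype.ext
    exact (show w.comap (algebraMap K (T.field n)) = v.1 from hw).symm.trans hw'
  have h1 : numPoints (Nat.card k) (T.field n) d = W.ncard := rfl
  have h2 : ramCount T n d = WS.ncard := rfl
  rw [h1, hW, Set.ncard_union_eq hdisj hWS (hF.biUnion fun v _ => hfibfin v),
    hF.ncard_biUnion (fun v _ => hfibfin v) hdisj', pointCount, h2]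
  congr 1
  refine finsum_mem_congr rfl fun v _ => ?_
  rw [← hfibcard' v]
  rfl

end tower

end Pool.Agent.Helper7
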