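import Mathlib

set_option autoImplicit false

namespace Pool.Agent.Helper7

open Polynomial

/-- A *closed point* of the smooth projective curve with function field `K` over a finite field is
a valuation ring of `K` other than `K` itself. `numPoints q K d` is the number of closed points
whose residue field has `q ^ d` elements, that is, the closed points of degree `d` over the
field with `q` elements. -/
noncomputable def numPoints (q : ℕ) (K : Type*) [Field K] (d : ℕ) : ℕ :=
  Nat.card {v : ValuationSubring K // v ≠ ⊤ ∧ Nat.card (IsLocalRing.ResidueField v) = q ^ d}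

/-- `P` is the numerator of the zeta function
`Z(C,s) = ∏_x (1 - s ^ deg x)⁻¹ = P(s) / ((1 - s)(1 - q s))` of the curve with function field `K`:
for every `N`, `P(s) ∏_{deg x ≤ N} (1 - s ^ deg x) = (1 - s) (1 - q s)` modulo `s ^ (N+1)`. -/
def IsZetaNumerator (q : ℕ) (K : Type*) [Field K] (P : ℤ[X]) : Prop :=
  ∀ N : ℕ, (X : ℤ[X]) ^ (N + 1) ∣
    P * ∏ d ∈ Finset.Icc 1 N, (1 - (X : ℤ[X]) ^ d) ^ numPoints q K d
      - (1 - X) * (1 - C (q : ℤ) * X)

/-- A closed point `w` of the curve with function field `L` is unramified over the curve with
function field `K` if the maximal ideal of `w` is generated by elements of `K`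
(ramification index one; all residue fields are finite, hence perfect). -/
def UnramifiedOver (K : Type*) {L : Type*} [Field K] [Field L] [Algebra K L]
    (w : ValuationSubring L) : Prop :=
  ∀ z ∈ w.nonunits, ∃ c : K, c ≠ 0 ∧ algebraMap K L c ∈ w.nonunits ∧ z / algebraMap K L c ∈ w

/-- A `ℤ_p`-tower of smooth projective geometrically irreducible curves over the finite field `k`
of characteristic `p`, in terms of function fields: `K` is the function field of `C_0` and `Ω` is
the function field of `C_∞`. -/
structure ZpTower (p : ℕ) [Fact p.Prime] (k K Ω : Type*) [Field k] [Finite k] [CharP k p]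
    [Field K] [Field Ω] [Algebra k K] [Algebra K Ω] [Algebra k Ω] [IsScalarTower k K Ω] where
  /-- `K` is a function field in one variable over `k`. -/
  functionField : ∃ t : K, Transcendental k t ∧
    FiniteDimensional (IntermediateField.adjoin k {t}) K
  /-- `C_∞ / C_0` is Galois. -/
  isGalois : IsGalois K Ω
  /-- A continuous isomorphism of the Galois group with `ℤ_p`. -/
  galEquiv : Gal(Ω/K) ≃ₜ* Multiplicative ℤ_[p]
  /-- There is no constant subextension: the curves `C_n` are geometrically irreducible. -/
  constants : ∀ x : Ω, IsAlgebraic k x → x ∈ (algebraMap k Ω).range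

namespace ZpTower

variable {p : ℕ} [Fact p.Prime] {k K Ω : Type*} [Field k] [Finite k] [CharP k p]
    [Field K] [Field Ω] [Algebra k K] [Algebra K Ω] [Algebra k Ω] [IsScalarTower k K Ω]

/-- The subgroup `p ^ n ℤ_p` of the Galois group. -/
noncomputable def subgroup (T : ZpTower p k K Ω) (n : ℕ) : Subgroup Gal(Ω/K) :=
  (AddSubgroup.toSubgroup (Ideal.span {(p : ℤ_[p]) ^ n}).toAddSubgroup).comap
    T.galEquiv.toMulEquiv.toMonoidHom

/-- The function field `K_n` of `C_n`, the fixed field of `p ^ n ℤ_p`. -/
noncomputable def field (T : ZpTower p k K Ω) (n : ℕ) : IntermediateField K Ω :=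
  IntermediateField.fixedField (T.subgroup n)

/-- The ramification locus of the tower, a set of closed points of `C_0`: the points which
ramify in some `C_n`. -/
noncomputable def ramificationLocus (T : ZpTower p k K Ω) : Set (ValuationSubring K) :=
  {v | v ≠ ⊤ ∧ ∃ (n : ℕ) (w : ValuationSubring (T.field n)),
    w.comap (algebraMap K (T.field n)) = v ∧ ¬ UnramifiedOver K w}

end ZpTower

/-- The splitting field over `ℚ_p` of an integer polynomial, inside a fixed algebraic closure. -/
noncomputable def splittingFieldQp (p : ℕ) [Fact p.Prime] (P : ℤ[X]) :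
    IntermediateField ℚ_[p] (PadicAlgCl p) :=
  IntermediateField.adjoin ℚ_[p] (P.rootSet (PadicAlgCl p))

/-- The group of absolute values of the nonzero elements of a subfield of the algebraic closure
of `ℚ_p`. -/
noncomputable def valueGroup (p : ℕ) [Fact p.Prime] (F : IntermediateField ℚ_[p] (PadicAlgCl p)) :
    Subgroup ℝˣ :=
  (Units.map ((normHom : PadicAlgCl p →*₀ ℝ) : PadicAlgCl p →* ℝ)).comp
    (Units.map (algebraMap F (PadicAlgCl p) : F →* PadicAlgCl p)) |>.range

/-- The ramification index over `ℚ_p` of a finite extension `F` of `ℚ_p` inside the algebraic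
closure: the index of the value group of `ℚ_p` in the value group of `F`. -/
noncomputable def ramIdx (p : ℕ) [Fact p.Prime] (F : IntermediateField ℚ_[p] (PadicAlgCl p)) : ℕ :=
  (valueGroup p ⊥).relIndex (valueGroup p F)

end Pool.Agent.Helper7
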