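import Pool.Agent.Helper7.Defs

set_option autoImplicit false

namespace Pool.Agent.Helper7

section deg

variable (k : Type*) {K : Type*} [Field k] [Finite k] [Field K] [Algebra k K]

/-- The degree of a closed point. -/
noncomputable def degOf (v : ValuationSubring K) : ℕ :=
  Nat.log (Nat.card k) (Nat.card (IsLocalRing.ResidueField v))

theorem algebraMap_mem (v : ValuationSubring K) (c : k) : algebraMap k K c ∈ v := by
  have := Fintype.ofFinite k
  by_cases hc : c = 0
  · rw [hc, map_zero]; exact v.zero_mem
  rcases v.mem_or_inv_mem (algebraMap k K c) with h | h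
  · exact h
  · have h1 : algebraMap k K c = ((algebraMap k K c)⁻¹) ^ (Fintype.card k - 2) := by
      have h2 : c ^ (Fintype.card k - 1) = 1 := FiniteField.pow_card_sub_one_eq_one c hc
      have h3 : 2 ≤ Fintype.card k := Fintype.one_lt_card
      rw [← map_inv₀, ← map_pow]
      congr 1
      rw [inv_pow]
      have h4 : c ^ (Fintype.card k - 2) * c = 1 := by
        rw [← pow_succ, ← h2]; congr 1; omega
      exact eq_inv_of_mul_eq_one_right h4
    rw [h1]
    exact v.toSubring.pow_mem h _

theorem card_residueField (v : ValuationSubring K) [Finite (IsLocalRing.ResidueField v)] :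
    Nat.card (IsLocalRing.ResidueField v) = Nat.card k ^ degOf k v ∧ 0 < degOf k v := by
  let i : k →+* v := (algebraMap k K).codRestrict v.toSubring (algebraMap_mem k v)
  let _ : Algebra k (IsLocalRing.ResidueField v) := ((IsLocalRing.residue v).comp i).toAlgebra
  have h1 := Module.natCard_eq_pow_finrank (K := k) (V := IsLocalRing.ResidueField v)
  have hk : 1 < Nat.card k := Finite.one_lt_card
  have h2 : degOf k v = Module.finrank k (IsLocalRing.ResidueField v) := by
    rw [degOf, h1, Nat.log_pow hk]
  refine ⟨by rw [h2]; exact h1, ?_⟩
  rw [h2]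
  exact Module.finrank_pos

end deg

end Pool.Agent.Helper7
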