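import Pool.Agent.Helper92.TaskA

set_option autoImplicit false

namespace Pool.Agent.Helper7

open Pool.Agent.Helper92

variable {p : ℕ} [hp : Fact p.Prime]

open Polynomial in
/-- If `∑ ζ^(u s_i) = ∑ ζ^(s_i)` and the exponents are separated modulo `p^n`, then
multiplication by `u` preserves the set of the `s_i` modulo `p ^ n`. -/
theorem exists_congr_of_sum_eq {ι : Type*} [Fintype ι] (s : ι → ℤ_[p]) {n : ℕ}
    (u : (ZMod (p ^ (n + 1)))ˣ)
    {ζ : PadicAlgCl p} (hζ : IsPrimitiveRoot ζ (p ^ (n + 1)))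
    (hsep : ∀ i j, PadicInt.toZModPow n (s i) = PadicInt.toZModPow n (s j) → s i = s j)
    (hsum : ∑ i, ζ ^ ((u : ZMod (p ^ (n + 1))) * PadicInt.toZModPow (n + 1) (s i)).val =
      ∑ i, ζ ^ (PadicInt.toZModPow (n + 1) (s i)).val) (i₀ : ι) :
    ∃ i, (PadicInt.toZModPow (n + 1) (s i)).val % p ^ n =
      ((u : ZMod (p ^ (n + 1))) * PadicInt.toZModPow (n + 1) (s i₀)).val % p ^ n := by
  classical
  have hNZ : NeZero (p ^ (n + 1)) := ⟨pow_ne_zero _ hp.out.ne_zero⟩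
  let v : ι → ℕ := fun i => (PadicInt.toZModPow (n + 1) (s i)).val
  let w : ι → ℕ := fun i => ((u : ZMod (p ^ (n + 1))) * PadicInt.toZModPow (n + 1) (s i)).val
  have hvlt : ∀ x, v x < p ^ (n + 1) := fun x => ZMod.val_lt _
  have hwlt : ∀ x, w x < p ^ (n + 1) := fun x => ZMod.val_lt _
  -- classes modulo `p ^ n`
  have hcast : ∀ x y : ZMod (p ^ (n + 1)), x.val % p ^ n = y.val % p ^ n ↔
      ZMod.castHom (pow_dvd_pow p (Nat.le_succ n)) (ZMod (p ^ n)) x =
      ZMod.castHom (pow_dvd_pow p (Nat.le_succ n)) (ZMod (p ^ n)) y := by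
    intro x y
    rw [ZMod.castHom_apply, ZMod.castHom_apply, ← ZMod.natCast_val, ← ZMod.natCast_val,
      ZMod.natCast_eq_natCast_iff]
    rfl
  have hwinj : ∀ i j, w i % p ^ n = w j % p ^ n → s i = s j := by
    intro i j h
    apply hsep
    have h1 := (hcast _ _).mp h
    rw [map_mul, map_mul] at h1
    have hunit : IsUnit (ZMod.castHom (pow_dvd_pow p (Nat.le_succ n)) (ZMod (p ^ n))
        (u : ZMod (p ^ (n + 1)))) := u.isUnit.map _
    have h2 := hunit.mul_left_cancel h1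
    have h3 : ∀ x : ℤ_[p], ZMod.castHom (pow_dvd_pow p (Nat.le_succ n)) (ZMod (p ^ n))
        (PadicInt.toZModPow (n + 1) x) = PadicInt.toZModPow n x := by
      intro x
      rw [← PadicInt.zmod_cast_comp_toZModPow n (n + 1) (Nat.le_succ n)]
      rfl
    rw [h3, h3] at h2
    exact h2
  set P : ℚ[X] := ∑ i, (X : ℚ[X]) ^ w i - ∑ i, (X : ℚ[X]) ^ v i with hP
  have hPdeg : P.natDegree < p ^ (n + 1) := by
    have h1 : P ∈ degreeLT ℚ (p ^ (n + 1)) := by
      apply Submodule.sub_mem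
      · apply Submodule.sum_mem
        intro i _
        rw [mem_degreeLT, degree_X_pow]
        exact_mod_cast hwlt _
      · apply Submodule.sum_mem
        intro i _
        rw [mem_degreeLT, degree_X_pow]
        exact_mod_cast hvlt _
    by_cases hP0 : P = 0
    · rw [hP0, natDegree_zero]
      exact Nat.pos_of_ne_zero hNZ.out
    · rw [mem_degreeLT, degree_eq_natDegree hP0] at h1
      exact_mod_cast h1
  have hPdvd : cyclotomic (p ^ (n + 1)) ℚ ∣ P := by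
    rw [cyclotomic_eq_minpoly_rat hζ (Nat.pos_of_ne_zero hNZ.out)]
    apply minpoly.dvd
    rw [hP, map_sub, map_sum, map_sum]
    simp only [map_pow, aeval_X]
    exact sub_eq_zero.mpr hsum
  have hcoeff : ∀ r, P.coeff r = ((Finset.univ.filter fun i => w i = r).card : ℚ) -
      ((Finset.univ.filter fun i => v i = r).card : ℚ) := by
    intro r
    rw [hP, coeff_sub, finsetSum_coeff, finsetSum_coeff]
    simp only [coeff_X_pow, Finset.sum_boole]
    simp only [eq_comm (a := r)]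
  by_contra hcon
  push Not at hcon
  set r := w i₀ with hr
  have hr0 : P.coeff r ≠ 0 := by
    rw [hcoeff]
    have h1 : (Finset.univ.filter fun i => v i = r) = ∅ := by
      rw [Finset.filter_eq_empty_iff]
      intro i _ hi
      exact hcon i (congrArg (· % p ^ n) hi)
    have h2 : 0 < (Finset.univ.filter fun i => w i = r).card :=
      Finset.card_pos.mpr ⟨i₀, by simp [hr]⟩
    rw [h1, Finset.card_empty, Nat.cast_zero, sub_zero]
    exact_mod_cast h2.ne'
  have hpn : 0 < p ^ n := pow_pos hp.out.pos n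
  have hk : r / p ^ n < p := by
    rw [Nat.div_lt_iff_lt_mul hpn, ← pow_succ']
    exact hwlt i₀
  obtain ⟨k', hk', hkk'⟩ : ∃ k', k' < p ∧ k' ≠ r / p ^ n := by
    by_cases h0 : r / p ^ n = 0
    · exact ⟨1, hp.out.one_lt, by omega⟩
    · exact ⟨0, hp.out.pos, by omega⟩
  have h3 := coeff_of_cyclotomic_dvd hPdeg hPdvd (Nat.mod_lt r hpn) hk hk'
  rw [mul_comm (r / p ^ n), Nat.mod_add_div] at h3
  have h4 : P.coeff (r % p ^ n + k' * p ^ n) ≠ 0 := h3 ▸ hr0
  have hmod : (r % p ^ n + k' * p ^ n) % p ^ n = r % p ^ n := by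
    rw [Nat.add_mul_mod_self_right, Nat.mod_mod]
  have hdiv : (r % p ^ n + k' * p ^ n) / p ^ n = k' := by
    rw [Nat.add_mul_div_right _ _ hpn, Nat.div_eq_of_lt (Nat.mod_lt r hpn), zero_add]
  rw [hcoeff] at h4
  apply h4
  have h5 : (Finset.univ.filter fun i => w i = r % p ^ n + k' * p ^ n) = ∅ := by
    rw [Finset.filter_eq_empty_iff]
    intro i _ hi
    have h6 : s i = s i₀ := hwinj i i₀ (by rw [hi, hmod])
    apply hkk'
    rw [← hdiv, ← hi]
    simp only [w, h6]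
    rfl
  have h6 : (Finset.univ.filter fun i => v i = r % p ^ n + k' * p ^ n) = ∅ := by
    rw [Finset.filter_eq_empty_iff]
    intro i _ hi
    apply hcon i
    have : v i % p ^ n = r % p ^ n := by rw [hi, hmod]
    exact this
  rw [h5, h6]
  simp

/-- Cancellation of a `p`-adic integer which is nonzero modulo `p ^ M`. -/
theorem dvd_sub_of_mul {s : ℤ_[p]} {M m : ℕ} (hM : PadicInt.toZModPow M s ≠ 0) (hMm : M ≤ m)
    (a b : ℤ) (h : PadicInt.toZModPow m (((a - b : ℤ) : ℤ_[p]) * s) = 0) :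
    ((p : ℤ) ^ (m + 1 - M)) ∣ a - b := by
  have hp1 : (1 : ℝ) < p := by exact_mod_cast hp.out.one_lt
  have h1 : ‖(((a - b : ℤ) : ℤ_[p]) * s)‖ ≤ (p : ℝ) ^ (-(m : ℤ)) := by
    rw [PadicInt.norm_le_pow_iff_mem_span_pow, ← PadicInt.ker_toZModPow]
    exact h
  have h2 : (p : ℝ) ^ (-(M : ℤ) + 1) ≤ ‖s‖ := by
    by_contra hcon
    apply hM
    have h3 : ‖s‖ ≤ (p : ℝ) ^ (-(M : ℤ)) := by
      rw [PadicInt.norm_le_pow_iff_norm_lt_pow_add_one]
      exact not_le.mp hcon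
    rw [PadicInt.norm_le_pow_iff_mem_span_pow, ← PadicInt.ker_toZModPow] at h3
    exact h3
  rw [← PadicInt.norm_int_le_pow_iff_dvd]
  rw [norm_mul] at h1
  have h3 : 0 < (p : ℝ) ^ (-(M : ℤ) + 1) := by positivity
  have h4 : ‖((a - b : ℤ) : ℤ_[p])‖ * (p : ℝ) ^ (-(M : ℤ) + 1) ≤ (p : ℝ) ^ (-(m : ℤ)) :=
    (mul_le_mul_of_nonneg_left h2 (norm_nonneg _)).trans h1
  rw [← le_div_iff₀ h3, ← zpow_sub₀ (by positivity)] at h4
  refine h4.trans (le_of_eq ?_)
  congr 1
  push_cast [Nat.cast_sub (show M ≤ m + 1 by omega)]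
  ring

/-- Quantitative endgame: the ramification index grows at least like `c * p ^ n`. -/
theorem ramIdx_ge_of_mem {ι : Type*} [Fintype ι] (s : ι → ℤ_[p]) (hs : ∃ i, s i ≠ 0) :
    ∃ C : ℕ, 0 < C ∧ ∀ n : ℕ, ∀ ζ : PadicAlgCl p, IsPrimitiveRoot ζ (p ^ n) →
      ∀ F : IntermediateField ℚ_[p] (PadicAlgCl p), FiniteDimensional ℚ_[p] F →
        (∑ i, ζ ^ (PadicInt.toZModPow n (s i)).val) ∈ F → p ^ n ≤ C * ramIdx p F := by
  classical
  obtain ⟨i₀, hi₀⟩ := hs
  obtain ⟨N, hN⟩ := exists_separating (Finset.univ.image s)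
  obtain ⟨M, hM⟩ : ∃ M, PadicInt.toZModPow M (s i₀) ≠ 0 := by
    by_contra hcon
    push Not at hcon
    exact hi₀ (PadicInt.ext_of_toZModPow.mp fun n => by rw [hcon n, map_zero])
  have hppos : 0 < p ^ (N + M + 1) := pow_pos hp.out.pos _
  refine ⟨p ^ (N + M + 1) + 2 * (Fintype.card ι * p ^ M), by omega, ?_⟩
  intro n ζ hζ F hF hmem
  have hr : 0 < ramIdx p F := Nat.pos_of_ne_zero (ramIdx_ne_zero F)
  by_cases hn : n ≤ N + M + 1
  · have h1 : p ^ n ≤ p ^ (N + M + 1) := Nat.pow_le_pow_right hp.out.pos hn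
    have h2 : p ^ (N + M + 1) * 1 ≤ p ^ (N + M + 1) * ramIdx p F := Nat.mul_le_mul_left _ hr
    rw [add_mul]
    omega
  obtain ⟨m, rfl⟩ : ∃ m, n = m + 1 := ⟨n - 1, by omega⟩
  have hNZ : NeZero (p ^ (m + 1)) := ⟨pow_ne_zero _ hp.out.ne_zero⟩
  have hsep : ∀ i j, PadicInt.toZModPow m (s i) = PadicInt.toZModPow m (s j) → s i = s j :=
    fun i j h => hN m (by omega) _ (Finset.mem_image_of_mem s (Finset.mem_univ i)) _
      (Finset.mem_image_of_mem s (Finset.mem_univ j)) h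
  set H := F.fixingSubgroup.map (hζ.autToPow ℚ_[p]) with hH
  have hsum : ∀ u ∈ H, ∑ i, ζ ^ ((u : ZMod (p ^ (m + 1))) * PadicInt.toZModPow (m + 1) (s i)).val =
      ∑ i, ζ ^ (PadicInt.toZModPow (m + 1) (s i)).val := by
    rintro u ⟨σ, hσF, rfl⟩
    have hfix : σ (∑ i, ζ ^ (PadicInt.toZModPow (m + 1) (s i)).val) =
        ∑ i, ζ ^ (PadicInt.toZModPow (m + 1) (s i)).val :=
      (IntermediateField.mem_fixingSubgroup_iff F σ).mp hσF _ hmem
    rw [← hfix, map_sum]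
    refine Finset.sum_congr rfl fun i _ => ?_
    rw [map_pow, ← hζ.autToPow_spec ℚ_[p] σ, ← pow_mul, ZMod.val_mul]
    have h3 := pow_mod_orderOf ζ
      (((hζ.autToPow ℚ_[p] σ : (ZMod (p ^ (m + 1)))ˣ) : ZMod (p ^ (m + 1))).val *
        (PadicInt.toZModPow (m + 1) (s i)).val)
    rw [← hζ.eq_orderOf] at h3
    exact h3
  have hex : ∀ u : H, ∃ i, (PadicInt.toZModPow (m + 1) (s i)).val % p ^ m =
      (((u : (ZMod (p ^ (m + 1)))ˣ) : ZMod (p ^ (m + 1))) *
        PadicInt.toZModPow (m + 1) (s i₀)).val % p ^ m :=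
    fun u => exists_congr_of_sum_eq s u hζ hsep (hsum u u.2) i₀
  choose f hf using hex
  have hpM : 0 < p ^ (m + 1 - M) := pow_pos hp.out.pos _
  have hlt : ∀ u : H, ((u : (ZMod (p ^ (m + 1)))ˣ) : ZMod (p ^ (m + 1))).val / p ^ (m + 1 - M) <
      p ^ M := by
    intro u
    rw [Nat.div_lt_iff_lt_mul hpM, ← pow_add, show M + (m + 1 - M) = m + 1 by omega]
    exact ZMod.val_lt _
  have hginj : Function.Injective (fun u : H => ((f u,
      (⟨((u : (ZMod (p ^ (m + 1)))ˣ) : ZMod (p ^ (m + 1))).val / p ^ (m + 1 - M), hlt u⟩ :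
        Fin (p ^ M))) : ι × Fin (p ^ M))) := by
    intro u u' h
    have h1 : f u = f u' := congrArg Prod.fst h
    have h2 : ((u : (ZMod (p ^ (m + 1)))ˣ) : ZMod (p ^ (m + 1))).val / p ^ (m + 1 - M) =
        ((u' : (ZMod (p ^ (m + 1)))ˣ) : ZMod (p ^ (m + 1))).val / p ^ (m + 1 - M) :=
      congrArg Fin.val (congrArg Prod.snd h)
    have h3 : (((u : (ZMod (p ^ (m + 1)))ˣ) : ZMod (p ^ (m + 1))) *
        PadicInt.toZModPow (m + 1) (s i₀)).val % p ^ m =
        (((u' : (ZMod (p ^ (m + 1)))ˣ) : ZMod (p ^ (m + 1))) *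
        PadicInt.toZModPow (m + 1) (s i₀)).val % p ^ m := by
      rw [← hf u, ← hf u', h1]
    have hcast : ∀ x : ZMod (p ^ (m + 1)), ((x.val : ℕ) : ZMod (p ^ m)) =
        ZMod.castHom (pow_dvd_pow p (Nat.le_succ m)) (ZMod (p ^ m)) x := by
      intro x
      rw [ZMod.castHom_apply, ZMod.natCast_val]
    have hcast' : ZMod.castHom (pow_dvd_pow p (Nat.le_succ m)) (ZMod (p ^ m))
        (PadicInt.toZModPow (m + 1) (s i₀)) = PadicInt.toZModPow m (s i₀) := by
      rw [← PadicInt.zmod_cast_comp_toZModPow m (m + 1) (Nat.le_succ m)]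
      rfl
    have h4 := (ZMod.natCast_eq_natCast_iff _ _ _).mpr h3
    rw [hcast, hcast, map_mul, map_mul, hcast', ← hcast, ← hcast] at h4
    have h5 : PadicInt.toZModPow m
        (((((((u : (ZMod (p ^ (m + 1)))ˣ) : ZMod (p ^ (m + 1))).val : ℤ) -
        (((u' : (ZMod (p ^ (m + 1)))ˣ) : ZMod (p ^ (m + 1))).val : ℤ)) : ℤ) : ℤ_[p]) * s i₀) = 0 := by
      rw [map_mul, map_intCast, Int.cast_sub, Int.cast_natCast, Int.cast_natCast, sub_mul, h4,
        sub_self]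
    have h6 := dvd_sub_of_mul hM (by omega) _ _ h5
    have h7 : ((u : (ZMod (p ^ (m + 1)))ˣ) : ZMod (p ^ (m + 1))).val % p ^ (m + 1 - M) =
        ((u' : (ZMod (p ^ (m + 1)))ˣ) : ZMod (p ^ (m + 1))).val % p ^ (m + 1 - M) := by
      have h8 : ((u' : (ZMod (p ^ (m + 1)))ˣ) : ZMod (p ^ (m + 1))).val ≡
          ((u : (ZMod (p ^ (m + 1)))ˣ) : ZMod (p ^ (m + 1))).val [MOD p ^ (m + 1 - M)] := by
        rw [Nat.modEq_iff_dvd]
        exact_mod_cast h6
      exact h8.symm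
    have h9 : ((u : (ZMod (p ^ (m + 1)))ˣ) : ZMod (p ^ (m + 1))).val =
        ((u' : (ZMod (p ^ (m + 1)))ˣ) : ZMod (p ^ (m + 1))).val := by
      rw [← Nat.mod_add_div (((u : (ZMod (p ^ (m + 1)))ˣ) : ZMod (p ^ (m + 1))).val)
        (p ^ (m + 1 - M)), h7, h2, Nat.mod_add_div]
    exact Subtype.ext (Units.ext (ZMod.val_injective _ h9))
  have hcard : Nat.card H ≤ Fintype.card ι * p ^ M := by
    have h1 := Nat.card_le_card_of_injective _ hginj
    rwa [Nat.card_prod, Nat.card_eq_fintype_card (α := ι), Nat.card_fin] at h1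
  have hidx : H.index ≤ ramIdx p F := index_map_le hζ F
  have htot : H.index * Nat.card H = (p ^ (m + 1)).totient := by
    rw [Subgroup.index_mul_card, Nat.card_eq_fintype_card, ZMod.card_units_eq_totient]
  have h2tot : p ^ (m + 1) ≤ 2 * (p ^ (m + 1)).totient := by
    rw [Nat.totient_prime_pow_succ hp.out, pow_succ]
    have h1 : p ≤ 2 * (p - 1) := by
      have := hp.out.two_le
      omega
    calc p ^ m * p ≤ p ^ m * (2 * (p - 1)) := Nat.mul_le_mul_left _ h1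
      _ = 2 * (p ^ m * (p - 1)) := by ring
  calc p ^ (m + 1) ≤ 2 * (p ^ (m + 1)).totient := h2tot
    _ = 2 * (H.index * Nat.card H) := by rw [htot]
    _ ≤ 2 * (ramIdx p F * (Fintype.card ι * p ^ M)) :=
      Nat.mul_le_mul_left _ (Nat.mul_le_mul hidx hcard)
    _ = 2 * (Fintype.card ι * p ^ M) * ramIdx p F := by ring
    _ ≤ (p ^ (N + M + 1) + 2 * (Fintype.card ι * p ^ M)) * ramIdx p F :=
      Nat.mul_le_mul_right _ (by omega)

end Pool.Agent.Helper7
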