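import Pool.Agent.Helper7.Assembly
import Pool.Agent.Helper7.Quant

set_option autoImplicit false

namespace Pool.Agent.Helper7

open Pool.Agent.Helper92 Polynomial

section tower

variable {p : ℕ} [Fact p.Prime] {k K Ω : Type*} [Field k] [Finite k] [CharP k p]
    [Field K] [Field Ω] [Algebra k K] [Algebra K Ω] [Algebra k Ω] [IsScalarTower k K Ω]

theorem exists_toZModPow_ne {x y : ℤ_[p]} (h : x ≠ y) :
    ∃ n₁ : ℕ, ∀ n ≥ n₁, PadicInt.toZModPow n x ≠ PadicInt.toZModPow n y := by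
  by_contra hcon
  push Not at hcon
  apply h
  refine PadicInt.ext_of_toZModPow.mp fun n => ?_
  obtain ⟨m, hm, hxy⟩ := hcon n
  rw [← PadicInt.cast_toZModPow n m hm, ← PadicInt.cast_toZModPow n m hm, hxy]

/-- The local factor sums. -/
noncomputable def lamSum {E : Type*} [Field E] (T : ZpTower p k K Ω)
    (a : ValuationSubring K → ℤ_[p]) (n : ℕ) (ζ : E) (m : ℕ) : E :=
  ∑ᶠ v ∈ {v : unramPoint T | degOf k v.1 ∣ m}, (degOf k v.1 : E) *
    (ζ ^ (PadicInt.toZModPow n (a v.1)).val) ^ (m / degOf k v.1)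

theorem lamSum_eq {E : Type*} [Field E] (T : ZpTower p k K Ω)
    (a : ValuationSubring K → ℤ_[p]) (n : ℕ) (ζ : E) (u : unramPoint T) (m : ℕ) (hm : 1 ≤ m) :
    lamSum T a n ζ m = (∑ᶠ v ∈ {v : {v : ValuationSubring K //
        v ≠ ⊤ ∧ v ∉ T.ramificationLocus ∪ {u.1}} | degOf k v.1 ∣ m}, (degOf k v.1 : E) *
        (ζ ^ (PadicInt.toZModPow n (a v.1)).val) ^ (m / degOf k v.1)) +
      if degOf k u.1 ∣ m then (degOf k u.1 : E) *
        (ζ ^ (PadicInt.toZModPow n (a u.1)).val) ^ (m / degOf k u.1) else 0 := by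
  classical
  have hfin : {v : unramPoint T | degOf k v.1 ∣ m}.Finite := by
    refine Set.Finite.subset (Set.Finite.biUnion (Set.finite_Iic m) fun d' _ =>
      finite_degree' T d') fun v hv => ?_
    simp only [Set.mem_iUnion, Set.mem_Iic]
    exact ⟨degOf k v.1, Nat.le_of_dvd (by omega) hv, rfl⟩
  rw [lamSum, finsum_mem_split u _ hfin, add_comm]
  congr 1
  · refine finsum_mem_eq_of_bijOn (fun v => ⟨v.1.1, v.1.2.1, fun h => ?_⟩) ⟨?_, ?_, ?_⟩ ?_
    · rcases h with h | h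
      · exact v.1.2.2 h
      · exact v.2 (Subtype.ext h)
    · intro v hv
      exact hv
    · intro v _ w _ h
      apply Subtype.ext
      apply Subtype.ext
      exact Subtype.mk.inj h
    · rintro ⟨v, hv1, hv2⟩ hv
      exact ⟨⟨⟨v, hv1, fun h => hv2 (Or.inl h)⟩, fun h => hv2 (Or.inr (congrArg Subtype.val h))⟩,
        hv, rfl⟩
    · intro v _
      rfl
  · by_cases h : degOf k u.1 ∣ m
    · rw [if_pos h]; exact if_pos h
    · rw [if_neg h]; exact if_neg h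

theorem primitiveRoot_pow_ne {E : Type*} [Field E] {N : ℕ} [NeZero N] {ζ : E}
    (hζ : IsPrimitiveRoot ζ N) {x y : ZMod N} (h : x ≠ y) : ζ ^ x.val ≠ ζ ^ y.val := fun h' =>
  h (ZMod.val_injective _ (hζ.pow_inj (ZMod.val_lt _) (ZMod.val_lt _) h'))

theorem notMem_union {T : ZpTower p k K Ω} {u v : unramPoint T} (h : v ≠ u) :
    v.1 ∉ T.ramificationLocus ∪ {u.1} := by
  rintro (h' | h')
  · exact v.2.2 h'
  · exact h (Subtype.ext h')

theorem finiteDimensional_splittingFieldQp (P : ℤ[X]) :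
    FiniteDimensional ℚ_[p] (splittingFieldQp p P) := by
  have hfs : Finite (P.rootSet (PadicAlgCl p)) := (Polynomial.rootSet_finite _ _).to_subtype
  exact IntermediateField.finiteDimensional_adjoin fun x _ => Algebra.IsIntegral.isIntegral x

/-- The main theorem, quantitative form: the ramification index of the splitting field of the
numerator of the zeta function of the `n`-th layer is at least `c * p ^ n` with `c > 0`. -/
theorem ramIdx_growth (T : ZpTower p k K Ω) (hS : T.ramificationLocus.Finite) (P : ℕ → ℤ[X])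
    (hP : ∀ n, IsZetaNumerator (Nat.card k) (T.field n) (P n)) :
    ∃ C : ℕ, 0 < C ∧ ∀ n : ℕ, p ^ n ≤ C * ramIdx p (splittingFieldQp p (P n)) := by
  classical
  have hp : p.Prime := Fact.out
  have hdvr : ∀ w : ValuationSubring K, w ≠ ⊤ →
    IsDiscreteValuationRing w ∧ Finite (IsLocalRing.ResidueField w) := fun w hw => T.dvr w hw
  obtain ⟨a, ha⟩ := exists_isFrob T
  have hStop : ⊤ ∉ T.ramificationLocus := fun h => h.1 rfl
  obtain ⟨u', hu1, hu2⟩ := exists_place_notMem T _ hS hStop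
  obtain ⟨u₀, u₁, -, -, h01⟩ := exists_slopes T hS a ha P hP ⟨u', hu1, hu2⟩
  obtain ⟨v₀, w₀, hv₀, hw₀, hs₀⟩ := exists_slopes T hS a ha P hP u₀
  obtain ⟨v₁, w₁, hv₁, hw₁, hs₁⟩ := exists_slopes T hS a ha P hP u₁
  obtain ⟨t, ht, hfd⟩ := T.functionField
  have hmodel : ∀ u : unramPoint T, Nonempty (PlaceModel K (T.ramificationLocus ∪ {u.1})) :=
    fun u => nonempty_placeModel t ht hfd _ (hS.union (Set.finite_singleton _))
      (Set.Nonempty.inr (Set.singleton_nonempty _)) (by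
        rintro (h | h)
        · exact hStop h
        · exact u.2.1 (Set.mem_singleton_iff.mp h).symm)
  obtain ⟨𝓟₀⟩ := hmodel u₀
  obtain ⟨𝓟₁⟩ := hmodel u₁
  -- a point with nonzero Frobenius
  obtain ⟨v, hvu, hav⟩ : ∃ v : unramPoint T, v ≠ u₀ ∧ a v.1 ≠ 0 := by
    by_contra hcon
    push Not at hcon
    apply hs₀
    rw [hcon v₀ hv₀, hcon w₀ hw₀, mul_zero, mul_zero]
  have hvS : v.1 ≠ ⊤ ∧ v.1 ∉ T.ramificationLocus ∪ {u₀.1} := by
    refine ⟨v.2.1, ?_⟩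
    rintro (h | h)
    · exact v.2.2 h
    · exact hvu (Subtype.ext h)
  set d := degOf k v.1 with hd
  set d₀ := degOf k u₀.1 with hd₀
  set d₁ := degOf k u₁.1 with hd₁
  have hq : 2 ≤ Nat.card k := Finite.one_lt_card
  have hdpos : ∀ v : unramPoint T, 0 < degOf k v.1 := fun v => by
    have := (hdvr v.1 v.2.1).2
    exact (card_residueField k v.1).2
  -- the index set of the exponential sums
  let ι := Σ j : Fin (d + 1), {I : Ideal 𝓟₀.M.A // (j : ℕ) * d₀ ≤ d ∧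
    Nat.card (𝓟₀.M.A ⧸ I) = Nat.card k ^ (d - j * d₀)}
  have hιfin : ∀ j : Fin (d + 1), Finite {I : Ideal 𝓟₀.M.A // (j : ℕ) * d₀ ≤ d ∧
      Nat.card (𝓟₀.M.A ⧸ I) = Nat.card k ^ (d - j * d₀)} := fun j => by
    have h1 := 𝓟₀.M.finite_ideals (Nat.card k ^ (d - j * d₀)) (pow_ne_zero _ (by omega))
    exact Set.Finite.to_subtype (h1.subset fun I hI => hI.2)
  have hιfintype := fun j => Fintype.ofFinite {I : Ideal 𝓟₀.M.A // ((j : Fin (d + 1)) : ℕ) * d₀ ≤ d ∧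
      Nat.card (𝓟₀.M.A ⧸ I) = Nat.card k ^ (d - j * d₀)}
  let s : ι → ℤ_[p] := fun x => (x.1 : ℕ) • a u₀.1 + 𝓟₀.sig a x.2.1
  have hs : ∃ i, s i ≠ 0 := by
    have hP' := (𝓟₀.e ⟨v.1, hvS⟩).2
    have h1 : 𝓟₀.place (𝓟₀.e ⟨v.1, hvS⟩).1 = v.1 := 𝓟₀.place_e ⟨v.1, hvS⟩
    refine ⟨⟨0, ⟨(𝓟₀.e ⟨v.1, hvS⟩).1, by simp, ?_⟩⟩, ?_⟩
    · rw [(𝓟₀.card_prime k hdvr hP').1, h1]
      simp [hd]
    · simp only [s]
      rw [𝓟₀.sig_prime a hP', h1]
      simpa using hav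
  obtain ⟨C₀, hC₀, hn₁⟩ := ramIdx_ge_of_mem s hs
  obtain ⟨n₂, hn₂⟩ := T.ramified_count (fun w hw => T.dvr w hw)
    (fun n w hw => T.dvr_field n w hw) hS
  obtain ⟨m₀, hm₀⟩ := exists_toZModPow_ne hs₀
  obtain ⟨m₁, hm₁⟩ := exists_toZModPow_ne hs₁
  obtain ⟨m₂, hm₂⟩ := exists_toZModPow_ne h01
  refine ⟨C₀ + p ^ (n₂ + m₀ + m₁ + m₂), by omega, fun n' => ?_⟩
  by_cases hn' : n' ≤ n₂ + m₀ + m₁ + m₂
  · have hfdim := finiteDimensional_splittingFieldQp (p := p) (P n')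
    have h0 : 0 < ramIdx p (splittingFieldQp p (P n')) :=
      Nat.pos_of_ne_zero (ramIdx_ne_zero _)
    have h1 : p ^ n' ≤ p ^ (n₂ + m₀ + m₁ + m₂) := Nat.pow_le_pow_right hp.pos hn'
    have h2 : p ^ (n₂ + m₀ + m₁ + m₂) * 1 ≤ p ^ (n₂ + m₀ + m₁ + m₂) *
      ramIdx p (splittingFieldQp p (P n')) := Nat.mul_le_mul_left _ h0
    rw [add_mul]
    omega
  obtain ⟨n, rfl⟩ : ∃ n, n' = n + 1 := ⟨n' - 1, by omega⟩
  have hn : n₂ + m₀ + m₁ + m₂ ≤ n := by omega
  have hNe : NeZero (p ^ (n + 1)) := ⟨pow_ne_zero _ hp.ne_zero⟩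
  -- the completed `L`-series
  let y : PadicAlgCl p → ℕ → PadicAlgCl p := fun ζ e =>
    if h : IsPrimitiveRoot ζ (p ^ (n + 1)) then
      ∑ j ∈ Finset.range (e + 1), if j * d₀ ≤ e then
        (ζ ^ (PadicInt.toZModPow (n + 1) (a u₀.1)).val) ^ j *
          𝓟₀.Y a k (n + 1) ζ h.pow_eq_one (e - j * d₀) else 0
    else 0
  have hy : ∀ ζ, IsPrimitiveRoot ζ (p ^ (n + 1)) → y ζ 0 = 1 ∧
      (∀ e : ℕ, (e : PadicAlgCl p) * y ζ e =
        ∑ m ∈ Finset.Icc 1 e, lamSum T a (n + 1) ζ m * y ζ (e - m)) ∧ ∃ N, ∀ e ≥ N, y ζ e = 0 := by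
    intro ζ hζ
    refine euler_factor d₀ d₁ (hdpos u₀) (hdpos u₁)
      (ζ ^ (PadicInt.toZModPow (n + 1) (a u₀.1)).val)
      (ζ ^ (PadicInt.toZModPow (n + 1) (a u₁.1)).val) ?_ (lamSum T a (n + 1) ζ) _ _
      (fun m hm => lamSum_eq T a (n + 1) ζ u₀ m hm) (fun m hm => lamSum_eq T a (n + 1) ζ u₁ m hm)
      (𝓟₀.Y a k (n + 1) ζ hζ.pow_eq_one) (𝓟₁.Y a k (n + 1) ζ hζ.pow_eq_one)
      (𝓟₀.Y_zero a k (n + 1) ζ hζ.pow_eq_one) (𝓟₁.Y_zero a k (n + 1) ζ hζ.pow_eq_one)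
      (𝓟₀.Y_rec a k hdvr (n + 1) ζ hζ.pow_eq_one) (𝓟₁.Y_rec a k hdvr (n + 1) ζ hζ.pow_eq_one)
      ?_ ?_ (y ζ) ?_
    · rw [← pow_val_nsmul hζ.pow_eq_one, ← pow_val_nsmul hζ.pow_eq_one]
      refine primitiveRoot_pow_ne hζ ?_
      have h1 := hm₂ (n + 1) (by omega)
      rw [nsmul_eq_mul, nsmul_eq_mul, ← map_natCast (PadicInt.toZModPow (p := p) (n + 1)),
        ← map_natCast (PadicInt.toZModPow (p := p) (n + 1)), ← map_mul, ← map_mul]
      exact h1.symm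
    · exact Y_eventually_zero T a ha Set.subset_union_left 𝓟₀
        (v := v₀.1) (w := w₀.1) ⟨v₀.2.1, notMem_union hv₀⟩ ⟨w₀.2.1, notMem_union hw₀⟩ (n + 1)
        (hm₀ (n + 1) (by omega)) ζ hζ
    · exact Y_eventually_zero T a ha Set.subset_union_left 𝓟₁
        (v := v₁.1) (w := w₁.1) ⟨v₁.2.1, notMem_union hv₁⟩ ⟨w₁.2.1, notMem_union hw₁⟩ (n + 1)
        (hm₁ (n + 1) (by omega)) ζ hζ
    · intro e
      simp only [y]
      rw [dif_pos hζ]
  have hram : ∀ e, ramCount T (n + 1) e = ramCount T n e := fun e =>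
    (hn₂ n (by omega) (Nat.card k ^ e)).2
  have hramfun : ramCount T (n + 1) = ramCount T n := funext hram
  have hfinS : ∀ m ≥ n₂, {w : ValuationSubring (T.field m) |
      w.comap (algebraMap K (T.field m)) ∈ T.ramificationLocus}.Finite := fun m hm => (hn₂ m hm 0).1
  have hPn : ∀ N : ℕ, (X : ℤ[X]) ^ (N + 1) ∣
      P n * ∏ d ∈ Finset.Icc 1 N, (1 - (X : ℤ[X]) ^ d) ^
        pointCount (fun v : unramPoint T => degOf k v.1) (fun v => a v.1) (ramCount T n) n d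
        - (1 - X) * (1 - C ((Nat.card k : ℕ) : ℤ) * X) := by
    intro N
    have h1 := hP n N
    simp only [numPoints_eq T a ha (finite_degree' T) n (hfinS n (by omega))] at h1
    exact h1
  have hPn' : ∀ N : ℕ, (X : ℤ[X]) ^ (N + 1) ∣
      P (n + 1) * ∏ d ∈ Finset.Icc 1 N, (1 - (X : ℤ[X]) ^ d) ^
        pointCount (fun v : unramPoint T => degOf k v.1) (fun v => a v.1) (ramCount T n) (n + 1) d
        - (1 - X) * (1 - C ((Nat.card k : ℕ) : ℤ) * X) := by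
    intro N
    have h1 := hP (n + 1) N
    simp only [numPoints_eq T a ha (finite_degree' T) (n + 1) (hfinS (n + 1) (by omega)),
      hramfun] at h1
    exact h1
  have hmem := coeff_mem_splittingField (Nat.card k) hq (V := unramPoint T)
    (fun v => degOf k v.1) hdpos (fun v => a v.1) (finite_degree' T) (ramCount T n) n
    (P n) (P (n + 1)) hPn hPn' y (fun ζ hζ => (hy ζ hζ).1) (fun ζ hζ => (hy ζ hζ).2.1)
    (fun ζ hζ => (hy ζ hζ).2.2)
  -- a primitive root of unity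
  obtain ⟨ζ, hζ⟩ : ∃ ζ : PadicAlgCl p, IsPrimitiveRoot ζ (p ^ (n + 1)) := by
    have : NeZero ((p ^ (n + 1) : ℕ) : PadicAlgCl p) := ⟨by exact_mod_cast hNe.out⟩
    exact HasEnoughRootsOfUnity.exists_primitiveRoot (PadicAlgCl p) (p ^ (n + 1))
  -- the exponential sum
  have hsum : y ζ d = ∑ i, ζ ^ (PadicInt.toZModPow (n + 1) (s i)).val := by
    have h1 : y ζ d = ∑ j ∈ Finset.range (d + 1), if j * d₀ ≤ d then
        (ζ ^ (PadicInt.toZModPow (n + 1) (a u₀.1)).val) ^ j *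
          𝓟₀.Y a k (n + 1) ζ hζ.pow_eq_one (d - j * d₀) else 0 := dif_pos hζ
    rw [h1, Finset.sum_range, Fintype.sum_sigma]
    refine Finset.sum_congr rfl fun j _ => ?_
    split_ifs with hj
    · have h2 : ∀ I : {I : Ideal 𝓟₀.M.A // (j : ℕ) * d₀ ≤ d ∧
          Nat.card (𝓟₀.M.A ⧸ I) = Nat.card k ^ (d - j * d₀)},
          ζ ^ (PadicInt.toZModPow (n + 1) (s ⟨j, I⟩)).val =
          (ζ ^ (PadicInt.toZModPow (n + 1) (a u₀.1)).val) ^ (j : ℕ) *
            𝓟₀.chi a (n + 1) ζ hζ.pow_eq_one I.1 := by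
        intro I
        have hI : I.1 ≠ ⊥ := by
          refine Pool.Agent.Helper14.TaskC.ne_bot_of_card' (𝓜 := 𝓟₀.M) ?_
          rw [I.2.2]
          exact pow_ne_zero _ (by omega)
        rw [𝓟₀.chi_apply a _ ζ _ hI, ← pow_val_nsmul hζ.pow_eq_one, ← pow_val_add hζ.pow_eq_one]
        simp only [s, map_add, map_nsmul]
      rw [Finset.sum_congr rfl fun I _ => h2 I, ← Finset.mul_sum]
      congr 1
      rw [PlaceModel.Y, ← finsum_eq_sum_of_fintype]
      have hset : {I : Ideal 𝓟₀.M.A | Nat.card (𝓟₀.M.A ⧸ I) = Nat.card k ^ (d - j * d₀)} =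
          {I : Ideal 𝓟₀.M.A | (j : ℕ) * d₀ ≤ d ∧
            Nat.card (𝓟₀.M.A ⧸ I) = Nat.card k ^ (d - j * d₀)} := by
        ext I
        exact ⟨fun h => ⟨hj, h⟩, fun h => h.2⟩
      rw [hset]
      exact (finsum_set_coe_eq_finsum_mem _).symm
    · symm
      refine Finset.sum_eq_zero fun I _ => absurd I.2.1 hj
  have hfdim := finiteDimensional_splittingFieldQp (p := p) (P (n + 1))
  have hfinal := hn₁ (n + 1) ζ hζ _ hfdim (hsum ▸ hmem ζ hζ d)
  exact hfinal.trans (Nat.mul_le_mul_right _ (Nat.le_add_right _ _))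

/-- The main theorem: the ramification indices tend to infinity. -/
theorem tendsto_ramIdx (T : ZpTower p k K Ω) (hS : T.ramificationLocus.Finite) (P : ℕ → ℤ[X])
    (hP : ∀ n, IsZetaNumerator (Nat.card k) (T.field n) (P n)) :
    Filter.Tendsto (fun n => ramIdx p (splittingFieldQp p (P n))) Filter.atTop Filter.atTop := by
  have hp : p.Prime := Fact.out
  obtain ⟨C, hC, h⟩ := ramIdx_growth T hS P hP
  rw [Filter.tendsto_atTop_atTop]
  intro B
  refine ⟨C * B, fun n hn => ?_⟩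
  have h1 : n < p ^ n := Nat.lt_pow_self hp.one_lt
  by_contra hcon
  push Not at hcon
  have h2 : C * ramIdx p (splittingFieldQp p (P n)) ≤ C * B := Nat.mul_le_mul_left _ hcon.le
  have h3 := h n
  omega

end tower

end Pool.Agent.Helper7
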