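import Pool.Agent.Helper7.Defs

set_option autoImplicit false

namespace Pool.Agent.Helper7

open IsDedekindDomain

/-- An automorphism which preserves a discrete valuation ring `w`, acts trivially on its perfect
residue field and fixes the subfield `K`, which contains a generator of the maximal ideal, is
trivial. -/
theorem eq_of_inertia {K L : Type*} [Field K] [Field L] [Algebra K L] (p : ℕ) [Fact p.Prime]
    [CharP L p] (w : ValuationSubring L)
    (hdvr : IsDiscreteValuationRing w ∧ Finite (IsLocalRing.ResidueField w))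
    (hunr : UnramifiedOver K w) (g : Gal(L/K)) (hg : ∀ z ∈ w, g z - z ∈ w.nonunits) : g = 1 := by
  obtain ⟨hdvr, hfin⟩ := hdvr
  have hp : p.Prime := Fact.out
  -- a uniformizer in `K`
  obtain ⟨π, hπ⟩ := IsDiscreteValuationRing.exists_irreducible w
  have hmem : ∀ z : w, (z : L) ∈ w.nonunits ↔ z ∈ IsLocalRing.maximalIdeal w := fun z =>
    ValuationSubring.coe_mem_nonunits_iff
  have hπm : (π : L) ∈ w.nonunits := by
    rw [hmem, hπ.maximalIdeal_eq]
    exact Ideal.mem_span_singleton_self π
  obtain ⟨c, hc0, hcm, hcπ⟩ := hunr π hπm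
  have hcL : algebraMap K L c ≠ 0 := (map_ne_zero _).mpr hc0
  set C := algebraMap K L c with hC
  have hdiv : ∀ z ∈ w.nonunits, z / C ∈ w := by
    intro z hz
    have hz' : z ∈ w := w.nonunits_subset hz
    have h1 : (⟨z, hz'⟩ : w) ∈ IsLocalRing.maximalIdeal w := (hmem _).mp hz
    rw [hπ.maximalIdeal_eq, Ideal.mem_span_singleton] at h1
    obtain ⟨y, hy⟩ := h1
    have h2 : z = π * y := congrArg Subtype.val hy
    have h3 : z / C = (π / C) * y := by rw [h2]; ring
    rw [h3]
    exact w.mul_mem _ _ hcπ y.2
  have hCw : C ∈ w := w.nonunits_subset hcm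
  -- `p`-th roots modulo the maximal ideal
  have hroot : ∀ z ∈ w, ∃ y ∈ w, z - y ^ p ∈ w.nonunits := by
    intro z hz
    have hchar : CharP (IsLocalRing.ResidueField w) p := by
      rw [CharP.charP_iff_prime_eq_zero hp]
      have : ((p : ℕ) : w) = 0 := by
        apply Subtype.ext
        have : ((p : ℕ) : L) = 0 := CharP.cast_eq_zero L p
        exact this
      rw [← map_natCast (IsLocalRing.residue w), this, map_zero]
    have hsurj : Function.Surjective (frobenius (IsLocalRing.ResidueField w) p) :=
      Finite.injective_iff_surjective.mp (frobenius_inj _ p)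
    obtain ⟨y, hy⟩ := hsurj (IsLocalRing.residue w ⟨z, hz⟩)
    obtain ⟨y, rfl⟩ := IsLocalRing.residue_surjective y
    refine ⟨y, y.2, ?_⟩
    have h1 : IsLocalRing.residue w (⟨z, hz⟩ - y ^ p) = 0 := by
      rw [map_sub, map_pow, ← hy, frobenius_def, sub_self]
    rw [IsLocalRing.residue_eq_zero_iff, ← hmem] at h1
    exact h1
  -- main induction
  have key : ∀ j : ℕ, ∀ z ∈ w, ∃ y ∈ w, g z - z = C ^ (j + 1) * y := by
    intro j
    induction j with
    | zero =>
      intro z hz
      exact ⟨(g z - z) / C, hdiv _ (hg z hz), by rw [zero_add, pow_one]; field_simp⟩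
    | succ j ih =>
      intro z hz
      obtain ⟨y, hy, hyz⟩ := hroot z hz
      obtain ⟨u, hu, hgu⟩ := ih y hy
      obtain ⟨v, hv, hgv⟩ := ih ((z - y ^ p) / C) (hdiv _ hyz)
      have h1 : z = y ^ p + C * ((z - y ^ p) / C) := by field_simp; ring
      have hgC : g C = C := g.commutes c
      have h2 : g z - z = (g y - y) ^ p + C * (g ((z - y ^ p) / C) - (z - y ^ p) / C) := by
        conv_lhs => rw [h1]
        rw [sub_pow_char, map_add, map_pow, map_mul, hgC]
        ring
      obtain ⟨k, hk⟩ : ∃ k, (j + 1) * p = (j + 1 + 1) + k := by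
        have : 2 ≤ p := hp.two_le
        exact ⟨(j + 1) * p - (j + 1 + 1), by nlinarith [Nat.sub_add_cancel (show j + 1 + 1 ≤ (j + 1) * p by nlinarith)]⟩
      refine ⟨C ^ k * u ^ p + v, ?_, ?_⟩
      · exact w.add_mem _ _ (w.mul_mem _ _ (w.toSubring.pow_mem hCw k)
          (w.toSubring.pow_mem hu p)) hv
      · rw [h2, hgu, hgv, mul_pow, ← pow_mul, hk, pow_add C (j + 1 + 1) k]
        ring
  -- conclusion
  have hfix : ∀ z ∈ w, g z = z := by
    intro z hz
    obtain ⟨y₀, hy₀, hgz⟩ := key 0 z hz
    have hdw : g z - z ∈ w := by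
      rw [hgz]
      exact w.mul_mem _ _ (w.toSubring.pow_mem hCw _) hy₀
    have hinf : (⟨g z - z, hdw⟩ : w) ∈ (⨅ i : ℕ, IsLocalRing.maximalIdeal w ^ i) := by
      rw [Ideal.mem_iInf]
      intro i
      obtain ⟨y, hy, h⟩ := key i z hz
      have h1 : (⟨g z - z, hdw⟩ : w) = (⟨C, hCw⟩ : w) ^ i * ((⟨C, hCw⟩ : w) * ⟨y, hy⟩) := by
        apply Subtype.ext
        change g z - z = C ^ i * (C * y)
        rw [h]; ring
      rw [h1]
      exact Ideal.mul_mem_right _ _ (Ideal.pow_mem_pow ((hmem _).mp hcm) i)
    rw [Ideal.iInf_pow_eq_bot_of_isLocalRing _ (IsLocalRing.maximalIdeal.isMaximal w).ne_top,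
      Ideal.mem_bot] at hinf
    exact sub_eq_zero.mp (congrArg Subtype.val hinf)
  refine AlgEquiv.ext fun z => ?_
  rcases w.mem_or_inv_mem z with hz | hz
  · exact hfix z hz
  · have := hfix _ hz
    rw [map_inv₀] at this
    exact inv_injective this

/-- An unramified extension has no inertia. -/
theorem exists_not_mem_of_unramified (p : ℕ) [Fact p.Prime] {K L : Type*} [Field K] [Field L]
    [Algebra K L] [CharP L p] [FiniteDimensional K L] [Algebra.IsSeparable K L] {A : Type*}
    [CommRing A] [IsDedekindDomain A] [Algebra A K] [IsFractionRing A K] [Algebra A L]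
    [IsScalarTower A K L]
    (hdvr : ∀ w : ValuationSubring L, w ≠ ⊤ →
      IsDiscreteValuationRing w ∧ Finite (IsLocalRing.ResidueField w))
    (hunr : ∀ w : ValuationSubring L, w ≠ ⊤ → (∀ a : A, algebraMap A L a ∈ w) →
      UnramifiedOver K w)
    (Q : Ideal (integralClosure A L)) (hQ : Q.IsMaximal) (g : Gal(L/K)) (hg : g ≠ 1) :
    ∃ b : integralClosure A L, galRestrict A K L (integralClosure A L) g b - b ∉ Q := by
  have hfrac : IsFractionRing (integralClosure A L) L :=
    IsIntegralClosure.isFractionRing_of_finite_extension A K L (integralClosure A L)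
  have hded : IsDedekindDomain (integralClosure A L) := integralClosure.isDedekindDomain A K L
  have hinj : Function.Injective (algebraMap (integralClosure A L) L) :=
    IsFractionRing.injective _ _
  have hgr : ∀ b : integralClosure A L, algebraMap (integralClosure A L) L
      (galRestrict A K L (integralClosure A L) g b) = g (algebraMap (integralClosure A L) L b) :=
    fun b => algebraMap_galRestrict_apply A g b
  by_contra hcon
  push Not at hcon
  apply hg
  by_cases hQ0 : Q = ⊥
  · subst hQ0
    have h1 : ∀ b : integralClosure A L, g (algebraMap (integralClosure A L) L b) =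
        algebraMap (integralClosure A L) L b := fun b => by
      rw [← hgr, sub_eq_zero.mp (Ideal.mem_bot.mp (hcon b))]
    refine AlgEquiv.ext fun z => ?_
    obtain ⟨a, b, hb, rfl⟩ := IsFractionRing.div_surjective (A := integralClosure A L) z
    rw [map_div₀, h1, h1]
    rfl
  -- the valuation attached to `Q`
  let q : HeightOneSpectrum (integralClosure A L) := ⟨Q, hQ.isPrime, hQ0⟩
  let v := q.valuation L
  let w : ValuationSubring L := v.valuationSubring
  have hw : ∀ z : L, z ∈ w ↔ v z ≤ 1 := fun z => Iff.rfl
  have hwn : ∀ z : L, z ∈ w.nonunits ↔ v z < 1 := fun z => by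
    rw [ValuationSubring.mem_nonunits_iff]
    exact (Valuation.isEquiv_valuation_valuationSubring v).lt_one_iff_lt_one.symm
  have hwtop : w ≠ ⊤ := by
    rw [Ne, Valuation.valuationSubring_eq_top_iff, not_not]
    infer_instance
  have hlt : ∀ b : integralClosure A L, b ∈ Q → v (algebraMap (integralClosure A L) L b) < 1 :=
    fun b hb => (q.valuation_lt_one_iff_mem b).mpr hb
  have hsub : ∀ b : integralClosure A L, v (g (algebraMap (integralClosure A L) L b) -
      algebraMap (integralClosure A L) L b) < 1 := fun b => by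
    rw [← hgr, ← map_sub]
    exact hlt _ (hcon b)
  refine eq_of_inertia p w (hdvr w hwtop) (hunr w hwtop fun a => ?_) g fun z hz => ?_
  · rw [hw, IsScalarTower.algebraMap_apply A (integralClosure A L) L]
    exact q.valuation_le_one _
  · rw [hw] at hz
    rw [hwn]
    obtain ⟨b, ⟨d, hd⟩, hbd⟩ := q.exists_primeCompl_mul_eq_of_integer z hz
    have hgd : galRestrict A K L (integralClosure A L) g d ∉ Q := by
      intro h
      have : d = galRestrict A K L (integralClosure A L) g d -
          (galRestrict A K L (integralClosure A L) g d - d) := by ring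
      exact hd (this ▸ Q.sub_mem h (hcon d))
    have hvgd : v (g (algebraMap (integralClosure A L) L d)) = 1 := by
      rw [← hgr]
      exact (q.valuation_eq_one_iff_notMem).mpr hgd
    have h1 : (g z - z) * g (algebraMap (integralClosure A L) L d) =
        (g (algebraMap (integralClosure A L) L b) - algebraMap (integralClosure A L) L b) -
        z * (g (algebraMap (integralClosure A L) L d) - algebraMap (integralClosure A L) L d) := by
      rw [← hbd, map_mul]
      ring
    have h2 : v (g z - z) = v ((g z - z) * g (algebraMap (integralClosure A L) L d)) := by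
      rw [map_mul, hvgd, mul_one]
    rw [h2, h1]
    refine lt_of_le_of_lt (v.map_sub _ _) (max_lt (hsub b) ?_)
    rw [map_mul]
    exact mul_lt_one_of_nonneg_of_lt_one_right hz zero_le (hsub d)

end Pool.Agent.Helper7
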