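import Pool.Agent.Helper7.Deg
import Pool.Agent.Helper70.TaskB
import Pool.Agent.Helper14.H7TaskC

set_option autoImplicit false

namespace Pool.Agent.Helper7

open UniqueFactorizationMonoid

section places

variable {k K : Type*} [Field k] [Finite k] [Field K] [Algebra k K]

theorem exists_model_places (t : K) (ht : Transcendental k t)
    (hfin : FiniteDimensional (IntermediateField.adjoin k {t}) K)
    (S : Set (ValuationSubring K)) (hS : S.Finite) (hS' : S.Nonempty) (htop : ⊤ ∉ S) :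
    ∃ (𝓜 : Model K) (e : {v : ValuationSubring K // v ≠ ⊤ ∧ v ∉ S} ≃
        {P : Ideal 𝓜.A // P.IsPrime ∧ P ≠ ⊥}),
      (∀ v, ∀ a : 𝓜.A, a ∈ (e v).1 ↔ (a : K) ∈ v.1.nonunits) ∧
      (∀ v, Nat.card (𝓜.A ⧸ (e v).1) = Nat.card (IsLocalRing.ResidueField v.1)) ∧
      (∀ v : ValuationSubring K, v ≠ ⊤ → v ∉ S → ∀ a : 𝓜.A, (a : K) ∈ v) ∧
      (∀ v : ValuationSubring K, v ≠ ⊤ → (∀ a : 𝓜.A, (a : K) ∈ v) → v ∉ S) := by
  obtain ⟨t', ht', hfin', hsep, hpoles⟩ := exists_poles_eq t ht hfin S hS hS' htop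
  obtain ⟨𝓜, hA, hO, hMt⟩ := exists_model t' ht' hfin' hsep
  obtain ⟨e, he1, he2, he3⟩ := exists_equiv_places t' ht' hfin' hsep
  have hmem : ∀ v : ValuationSubring K, (v ≠ ⊤ ∧ v ∉ S) ↔ (v ≠ ⊤ ∧ t' ∈ v) := by
    intro v
    rw [← hpoles]
    simp [poles]
  have hmemA : ∀ a : K, a ∈ 𝓜.A ↔ ∀ v : ValuationSubring K, v ∉ S → a ∈ v := by
    intro a
    rw [hA, hpoles]
    simp [affRing, Subring.mem_iInf]
  have htpole : ∀ v : ValuationSubring K, v ∈ S ↔ t' ∉ v := by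
    intro v
    rw [← hpoles]
    rfl
  have key : ∀ A' : Subring K, A' = affRing (poles t') →
      ∃ e : {v : ValuationSubring K // v ≠ ⊤ ∧ v ∉ S} ≃ {P : Ideal A' // P.IsPrime ∧ P ≠ ⊥},
        (∀ v, ∀ a : A', a ∈ (e v).1 ↔ (a : K) ∈ v.1.nonunits) ∧
        (∀ v, Nat.card (A' ⧸ (e v).1) = Nat.card (IsLocalRing.ResidueField v.1)) := by
    rintro _ rfl
    exact ⟨(Equiv.subtypeEquivRight hmem).trans e, fun v a => he1 _ a, fun v => he2 _⟩
  obtain ⟨e', he1', he2'⟩ := key 𝓜.A hA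
  refine ⟨𝓜, e', he1', he2', fun v _ hv a => (hmemA a).mp a.2 v hv, fun v _ hv => ?_⟩
  rw [htpole, not_not, ← hMt]
  exact hv ⟨𝓜.t, 𝓜.t_mem⟩

theorem finiteDimensional_adjoin_algebraMap {L : Type*} [Field L] [Algebra K L] [Algebra k L]
    [IsScalarTower k K L] [FiniteDimensional K L] (t : K)
    (hfin : FiniteDimensional (IntermediateField.adjoin k {t}) K) :
    FiniteDimensional (IntermediateField.adjoin k {algebraMap K L t}) L := by
  have hle : ∀ x ∈ IntermediateField.adjoin k {t},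
      algebraMap K L x ∈ IntermediateField.adjoin k {algebraMap K L t} := by
    intro x hx
    have h1 : (IntermediateField.adjoin k {t}).map (IsScalarTower.toAlgHom k K L) =
        IntermediateField.adjoin k {algebraMap K L t} := by
      rw [IntermediateField.adjoin_map, Set.image_singleton]
      rfl
    rw [← h1]
    exact ⟨x, hx, rfl⟩
  let φ : IntermediateField.adjoin k {t} →+* IntermediateField.adjoin k {algebraMap K L t} :=
    ((algebraMap K L).comp (algebraMap (IntermediateField.adjoin k {t}) K)).codRestrict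
      (IntermediateField.adjoin k {algebraMap K L t}).toSubfield.toSubring fun x => hle x x.2
  let _ : Algebra (IntermediateField.adjoin k {t})
    (IntermediateField.adjoin k {algebraMap K L t}) := φ.toAlgebra
  have : IsScalarTower (IntermediateField.adjoin k {t})
      (IntermediateField.adjoin k {algebraMap K L t}) L :=
    IsScalarTower.of_algebraMap_eq fun x => rfl
  have h2 : Module.Finite (IntermediateField.adjoin k {t}) L := Module.Finite.trans K L
  exact Module.Finite.of_restrictScalars_finite (IntermediateField.adjoin k {t}) _ _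

end places

/-- An affine model together with the identification of its primes with closed points. -/
structure PlaceModel (K : Type*) [Field K] (S : Set (ValuationSubring K)) where
  M : Model K
  e : {v : ValuationSubring K // v ≠ ⊤ ∧ v ∉ S} ≃ {P : Ideal M.A // P.IsPrime ∧ P ≠ ⊥}
  mem : ∀ v, ∀ a : M.A, a ∈ (e v).1 ↔ (a : K) ∈ v.1.nonunits
  card : ∀ v, Nat.card (M.A ⧸ (e v).1) = Nat.card (IsLocalRing.ResidueField v.1)
  sub : ∀ v : ValuationSubring K, v ≠ ⊤ → v ∉ S → ∀ a : M.A, (a : K) ∈ v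
  not_mem : ∀ v : ValuationSubring K, v ≠ ⊤ → (∀ a : M.A, (a : K) ∈ v) → v ∉ S

theorem nonempty_placeModel {k K : Type*} [Field k] [Finite k] [Field K] [Algebra k K]
    (t : K) (ht : Transcendental k t)
    (hfin : FiniteDimensional (IntermediateField.adjoin k {t}) K)
    (S : Set (ValuationSubring K)) (hS : S.Finite) (hS' : S.Nonempty) (htop : ⊤ ∉ S) :
    Nonempty (PlaceModel K S) := by
  obtain ⟨M, e, h1, h2, h3, h4⟩ := exists_model_places t ht hfin S hS hS' htop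
  exact ⟨⟨M, e, h1, h2, h3, h4⟩⟩

namespace PlaceModel

variable {K : Type*} [Field K] {S : Set (ValuationSubring K)} (𝓟 : PlaceModel K S)

open Classical in
/-- The closed point attached to a prime ideal. -/
noncomputable def place (P : Ideal 𝓟.M.A) : ValuationSubring K :=
  if h : P.IsPrime ∧ P ≠ ⊥ then (𝓟.e.symm ⟨P, h⟩).1 else ⊤

theorem place_eq {P : Ideal 𝓟.M.A} (h : P.IsPrime ∧ P ≠ ⊥) :
    𝓟.place P = (𝓟.e.symm ⟨P, h⟩).1 := dif_pos h

theorem place_spec {P : Ideal 𝓟.M.A} (h : P.IsPrime ∧ P ≠ ⊥) :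
    𝓟.place P ≠ ⊤ ∧ 𝓟.place P ∉ S := by
  rw [𝓟.place_eq h]
  exact (𝓟.e.symm ⟨P, h⟩).2

theorem e_place {P : Ideal 𝓟.M.A} (h : P.IsPrime ∧ P ≠ ⊥) :
    (𝓟.e ⟨𝓟.place P, 𝓟.place_spec h⟩).1 = P := by
  have : (⟨𝓟.place P, 𝓟.place_spec h⟩ : {v : ValuationSubring K // v ≠ ⊤ ∧ v ∉ S}) =
      𝓟.e.symm ⟨P, h⟩ := Subtype.ext (𝓟.place_eq h)
  rw [this, Equiv.apply_symm_apply]

theorem mem_place {P : Ideal 𝓟.M.A} (h : P.IsPrime ∧ P ≠ ⊥) (a : 𝓟.M.A) :
    a ∈ P ↔ (a : K) ∈ (𝓟.place P).nonunits := by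
  conv_lhs => rw [← 𝓟.e_place h]
  exact 𝓟.mem _ a

theorem card_place {P : Ideal 𝓟.M.A} (h : P.IsPrime ∧ P ≠ ⊥) :
    Nat.card (𝓟.M.A ⧸ P) = Nat.card (IsLocalRing.ResidueField (𝓟.place P)) := by
  have h1 := 𝓟.card ⟨𝓟.place P, 𝓟.place_spec h⟩
  rw [𝓟.e_place h] at h1
  exact h1

theorem card_pow {P : Ideal 𝓟.M.A} (h : P.IsPrime ∧ P ≠ ⊥) (j : ℕ) :
    Nat.card (𝓟.M.A ⧸ P ^ j) = Nat.card (𝓟.M.A ⧸ P) ^ j := by
  have := 𝓟.M.ded
  have := h.1
  induction j with
  | zero =>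
    rw [pow_zero, pow_zero, Ideal.one_eq_top]
    have : Subsingleton (𝓟.M.A ⧸ (⊤ : Ideal 𝓟.M.A)) := Ideal.Quotient.subsingleton_iff.mpr rfl
    exact Nat.card_unique
  | succ j ih =>
    rw [pow_succ, card_quotient_mul (P ^ j) P (pow_ne_zero _ h.2) h.2, ih, pow_succ]

variable (k : Type*) [Field k] [Finite k] [Algebra k K]
  (hdvr : ∀ w : ValuationSubring K, w ≠ ⊤ →
    IsDiscreteValuationRing w ∧ Finite (IsLocalRing.ResidueField w))

include hdvr in
theorem card_prime {P : Ideal 𝓟.M.A} (h : P.IsPrime ∧ P ≠ ⊥) :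
    Nat.card (𝓟.M.A ⧸ P) = Nat.card k ^ degOf k (𝓟.place P) ∧ 0 < degOf k (𝓟.place P) := by
  have := (hdvr _ (𝓟.place_spec h).1).2
  rw [𝓟.card_place h]
  exact card_residueField k _

include hdvr in
theorem exists_card_eq_pow (I : Ideal 𝓟.M.A) (hI : I ≠ ⊥) :
    ∃ d, Nat.card (𝓟.M.A ⧸ I) = Nat.card k ^ d := by
  have := 𝓟.M.ded
  have key : ∀ s : Multiset (Ideal 𝓟.M.A), (∀ P ∈ s, P.IsPrime ∧ P ≠ ⊥) →
      s.prod ≠ ⊥ ∧ ∃ d, Nat.card (𝓟.M.A ⧸ s.prod) = Nat.card k ^ d := by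
    intro s
    induction s using Multiset.induction_on with
    | empty =>
      intro _
      refine ⟨by simp, 0, ?_⟩
      rw [Multiset.prod_zero, pow_zero, Ideal.one_eq_top]
      have : Subsingleton (𝓟.M.A ⧸ (⊤ : Ideal 𝓟.M.A)) := Ideal.Quotient.subsingleton_iff.mpr rfl
      exact Nat.card_unique
    | cons P s ih =>
      intro hs
      obtain ⟨hP, hP0⟩ := hs P (Multiset.mem_cons_self P s)
      obtain ⟨h1, d, hd⟩ := ih fun Q hQ => hs Q (Multiset.mem_cons_of_mem hQ)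
      have h3 : s.prod * P ≠ ⊥ := mul_ne_zero h1 hP0
      rw [Multiset.prod_cons, mul_comm]
      refine ⟨h3, d + degOf k (𝓟.place P), ?_⟩
      rw [card_quotient_mul _ P h1 hP0, hd, (𝓟.card_prime k hdvr ⟨hP, hP0⟩).1, pow_add]
  have h := (key (normalizedFactors I) fun P hP => by
    have := prime_of_normalized_factor P hP
    exact ⟨Ideal.isPrime_of_prime this, this.ne_zero⟩).2
  have h2 : (normalizedFactors I).prod = I := by
    have := prod_normalizedFactors hI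
    rwa [associated_iff_eq] at this
  rwa [h2] at h

theorem place_e (v : {v : ValuationSubring K // v ≠ ⊤ ∧ v ∉ S}) : 𝓟.place (𝓟.e v).1 = v := by
  rw [𝓟.place_eq (𝓟.e v).2]
  simp

end PlaceModel

end Pool.Agent.Helper7
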