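import Pool.Agent.Helper2.H7D.TaskD
import Pool.Agent.Helper7.Artin
import Pool.Agent.Helper7.Inertia
import Pool.Agent.Helper70.TaskB
import Pool.Agent.Helper7.PlaceModel
import Pool.Agent.Helper92.TaskE
import Pool.Agent.Helper92.TaskA

set_option autoImplicit false

namespace Pool.Agent.Helper7


section tower

variable {p : ℕ} [Fact p.Prime] {k K Ω : Type*} [Field k] [Finite k] [CharP k p]
    [Field K] [Field Ω] [Algebra k K] [Algebra K Ω] [Algebra k Ω] [IsScalarTower k K Ω]

theorem ZpTower.dvr (T : ZpTower p k K Ω) (w : ValuationSubring K) (hw : w ≠ ⊤) :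
    IsDiscreteValuationRing w ∧ Finite (IsLocalRing.ResidueField w) := by
  obtain ⟨t, ht, hfin⟩ := T.functionField
  exact isDVR_of_ne_top t ht hfin w hw

theorem ZpTower.dvr_field (T : ZpTower p k K Ω) (n : ℕ) (w : ValuationSubring (T.field n))
    (hw : w ≠ ⊤) : IsDiscreteValuationRing w ∧ Finite (IsLocalRing.ResidueField w) := by
  obtain ⟨t, ht, hfin⟩ := T.functionField
  obtain ⟨hfd, -, -, -⟩ := T.finrank_field n
  have ht' : Transcendental k (algebraMap K (T.field n) t) :=
    (transcendental_algebraMap_iff (algebraMap K (T.field n)).injective).mpr ht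
  exact isDVR_of_ne_top _ ht' (finiteDimensional_adjoin_algebraMap t hfin) w hw

end tower

end Pool.Agent.Helper7
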