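import Pool.Agent.Helper7.Defs

set_option autoImplicit false

namespace Pool.Agent.Helper7

/-- An affine model of a function field `K`: `A` is the ring of functions regular outside a finite
nonempty set `S` of closed points, `O` is the ring of functions regular at `S`, and `t` is a
function whose set of poles is exactly `S`. -/
structure Model (K : Type*) [Field K] where
  A : Subring K
  O : Subring K
  t : K
  t_ne : t ≠ 0
  t_mem : t ∈ A
  tinv_mem : t⁻¹ ∈ O
  fin : ∀ N : ℕ, {z : K | z ∈ A ∧ z * t⁻¹ ^ N ∈ O}.Finite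
  cov : ∃ N : ℕ, ∀ z : K, ∃ a ∈ A, (z - a) * t⁻¹ ^ N ∈ O
  unit : ∀ z ∈ O, (1 + t⁻¹ * z)⁻¹ ∈ O
  exh : ∀ z : K, ∃ N : ℕ, z * t⁻¹ ^ N ∈ O
  infinite : Function.Injective fun N : ℕ => t ^ N
  ded : IsDedekindDomain A
  frac : IsFractionRing A K

/-- Functions regular outside `S`. -/
def affRing {K : Type*} [Field K] (S : Set (ValuationSubring K)) : Subring K :=
  ⨅ v ∈ Sᶜ, v.toSubring

/-- Functions regular at `S`. -/
def infRing {K : Type*} [Field K] (S : Set (ValuationSubring K)) : Subring K :=
  ⨅ v ∈ S, v.toSubring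

end Pool.Agent.Helper7
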