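import Pool.Agent.Helper7.Aug

set_option autoImplicit false

namespace Pool.Agent.Helper7

open TensorProduct

section moore

open Polynomial in
/-- The Moore determinant of a basis is nonzero. -/
theorem moore_det_ne_zero (p : ℕ) [Fact p.Prime] {κ : Type*} [CommRing κ] [Finite κ]
    [Algebra (ZMod p) κ] {r : ℕ} (b : Module.Basis (Fin r) (ZMod p) κ) {Λ : Type*} [Field Λ]
    [Algebra (ZMod p) Λ] (e : κ →+* Λ) (he : Function.Injective e) :
    (Matrix.of fun i j : Fin r => e (b j) ^ p ^ (i : ℕ)).det ≠ 0 := by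
  intro hdet
  obtain ⟨v, hv, hv0⟩ := Matrix.exists_vecMul_eq_zero_iff.mpr hdet
  have hchar : CharP Λ p := charP_of_injective_algebraMap (algebraMap (ZMod p) Λ).injective p
  let Φ₀ : κ →+ Λ := ∑ i : Fin r, (AddMonoidHom.mulLeft (v i)).comp
    ((iterateFrobenius Λ p i : Λ →+* Λ).toAddMonoidHom.comp e.toAddMonoidHom)
  have hΦ₀ : ∀ x, Φ₀ x = ∑ i : Fin r, v i * e x ^ p ^ (i : ℕ) := by
    intro x
    simp [Φ₀, iterateFrobenius_def]
  let Φ : κ →ₗ[ZMod p] Λ := Φ₀.toZModLinearMap p
  have hΦ : Φ = 0 := by
    refine b.ext fun j => ?_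
    have := congrFun hv0 j
    simp only [Matrix.vecMul, dotProduct, Matrix.of_apply, Pi.zero_apply] at this
    rw [LinearMap.zero_apply, ← this]
    exact hΦ₀ (b j)
  let Q : Λ[X] := ∑ i : Fin r, C (v i) * X ^ p ^ (i : ℕ)
  have hcoeff : ∀ i : Fin r, Q.coeff (p ^ (i : ℕ)) = v i := by
    intro i
    have hp : 1 < p := (Fact.out (p := p.Prime)).one_lt
    simp only [Q, finsetSum_coeff, coeff_C_mul, coeff_X_pow]
    rw [Finset.sum_eq_single i]
    · simp
    · intro j _ hj
      rw [if_neg, mul_zero]
      intro h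
      exact hj (Fin.ext (Nat.pow_right_injective hp h.symm))
    · simp
  have hQ : Q ≠ 0 := by
    intro h
    apply hv
    funext i
    rw [← hcoeff i, h]
    simp
  have hr : 0 < r := by
    rcases Nat.eq_zero_or_pos r with h | h
    · subst h
      exact absurd (_root_.funext fun i : Fin 0 => i.elim0) hv
    · exact h
  have hdeg : Q.natDegree ≤ p ^ (r - 1) := by
    refine natDegree_sum_le_of_forall_le _ _ fun i _ => ?_
    refine (natDegree_C_mul_X_pow_le _ _).trans ?_
    exact Nat.pow_le_pow_right (Fact.out (p := p.Prime)).pos (by omega)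
  have hroots : Nat.card κ ≤ Q.natDegree := by
    have := Fintype.ofFinite κ
    classical
    have h1 : (Finset.univ.image e) ⊆ Q.roots.toFinset := by
      intro y hy
      obtain ⟨x, -, rfl⟩ := Finset.mem_image.mp hy
      rw [Multiset.mem_toFinset, mem_roots hQ, IsRoot.def]
      have : Φ x = 0 := by rw [hΦ]; rfl
      have h2 : Φ x = ∑ i : Fin r, v i * e x ^ p ^ (i : ℕ) := hΦ₀ x
      rw [h2] at this
      simpa [Q, eval_finsetSum] using this
    have h2 := Finset.card_le_card h1
    rw [Finset.card_image_of_injective _ he, Finset.card_univ] at h2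
    rw [Nat.card_eq_fintype_card]
    exact h2.trans ((Multiset.toFinset_card_le _).trans (card_roots' Q))
  have hcard : Nat.card κ = p ^ r := by
    rw [Module.natCard_eq_pow_finrank (K := ZMod p) (V := κ), Nat.card_zmod,
      Module.finrank_eq_card_basis b, Fintype.card_fin]
  have h3 : p ^ (r - 1) < p ^ r := Nat.pow_lt_pow_right (Fact.out (p := p.Prime)).one_lt (by omega)
  omega

end moore

section norm

variable (p : ℕ) [Fact p.Prime] {A H : Type*} [CommRing A] [Algebra (ZMod p) A] [CommGroup H]
variable {κ : Type*} [CommRing κ] [Algebra A κ] [Algebra (ZMod p) κ] [IsScalarTower (ZMod p) A κ]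
  {Λ : Type*} [Field Λ] [Algebra (ZMod p) Λ] [CharP Λ p]

/-- The ring homomorphism `𝔽_p[H] ⊗ κ → Λ[H]`, `r ⊗ x ↦ r · e(x)^(p^i)`, as an additive map. -/
noncomputable def rho (e : κ →+* Λ) (i : ℕ) :
    MonoidAlgebra (ZMod p) H ⊗[ZMod p] κ →ₗ[ZMod p] MonoidAlgebra Λ H :=
  TensorProduct.lift (LinearMap.mk₂ (ZMod p)
    (fun r x => MonoidAlgebra.mapRingHom H (algebraMap (ZMod p) Λ) r *
      MonoidAlgebra.single 1 (e x ^ p ^ i))
    (fun r r' x => by rw [map_add, add_mul])
    (fun c r x => by
      rw [← ZMod.natCast_zmod_val c, Nat.cast_smul_eq_nsmul, Nat.cast_smul_eq_nsmul, map_nsmul,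
        smul_mul_assoc])
    (fun r x x' => by
      rw [map_add, add_pow_char_pow, MonoidAlgebra.single_add, mul_add])
    (fun c r x => by
      have hc : ((c.val : ℕ) : Λ) ^ p ^ i = (c.val : ℕ) := by
        have := map_natCast (iterateFrobenius Λ p i) c.val
        rwa [iterateFrobenius_def] at this
      rw [← ZMod.natCast_zmod_val c, Nat.cast_smul_eq_nsmul, Nat.cast_smul_eq_nsmul,
        map_nsmul, nsmul_eq_mul, mul_pow, hc, ← nsmul_eq_mul, ← MonoidAlgebra.smul_single,
        mul_smul_comm]))

theorem rho_tmul (e : κ →+* Λ) (i : ℕ) (r : MonoidAlgebra (ZMod p) H) (x : κ) :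
    rho p e i (r ⊗ₜ x) = MonoidAlgebra.mapRingHom H (algebraMap (ZMod p) Λ) r *
      MonoidAlgebra.single 1 (e x ^ p ^ i) := rfl

theorem rho_smul (e : κ →+* Λ) (i : ℕ) (r : MonoidAlgebra (ZMod p) H)
    (y : MonoidAlgebra (ZMod p) H ⊗[ZMod p] κ) :
    rho p e i (r • y) = MonoidAlgebra.mapRingHom H (algebraMap (ZMod p) Λ) r * rho p e i y := by
  induction y using TensorProduct.induction_on with
  | zero => simp
  | tmul r' x => rw [TensorProduct.smul_tmul', rho_tmul, rho_tmul, smul_eq_mul, map_mul, mul_assoc]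
  | add x y hx hy => rw [smul_add, map_add, map_add, hx, hy, mul_add]

theorem rho_act (e : κ →+* Λ) (i : ℕ) (f : MonoidAlgebra A H)
    (y : MonoidAlgebra (ZMod p) H ⊗[ZMod p] κ) :
    rho p e i (act p A H κ f y) =
      MonoidAlgebra.mapRingHom H ((iterateFrobenius Λ p i).comp (e.comp (algebraMap A κ))) f *
        rho p e i y := by
  induction y using TensorProduct.induction_on with
  | zero => simp
  | add x y hx hy => rw [map_add, map_add, hx, hy, map_add, mul_add]
  | tmul r x =>
    induction f using MonoidAlgebra.induction_linear with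
    | zero => simp
    | add f g hf hg => rw [map_add, LinearMap.add_apply, map_add, hf, hg, map_add, add_mul]
    | single h a =>
      rw [act_single, rho_tmul, rho_tmul, map_mul, Algebra.smul_def, map_mul, mul_pow,
        MonoidAlgebra.mapRingHom_single, MonoidAlgebra.mapRingHom_single]
      have : (MonoidAlgebra.single (1 : H) (e ((algebraMap A κ) a) ^ p ^ i * e x ^ p ^ i)) =
        MonoidAlgebra.single (1 : H) (e ((algebraMap A κ) a) ^ p ^ i) *
          MonoidAlgebra.single (1 : H) (e x ^ p ^ i) := by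
        rw [MonoidAlgebra.single_mul_single, one_mul]
      rw [this]
      have h2 : MonoidAlgebra.single h (((iterateFrobenius Λ p i).comp (e.comp (algebraMap A κ))) a)
        = MonoidAlgebra.single h (1 : Λ) *
          MonoidAlgebra.single (1 : H) (e ((algebraMap A κ) a) ^ p ^ i) := by
        rw [MonoidAlgebra.single_mul_single, mul_one, one_mul]
        simp [iterateFrobenius_def]
      rw [h2, map_one]
      ring

/-- The determinant of the action on a finite residue field is a product of Frobenius
conjugates. -/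
theorem Δ_field [Finite κ] (e : κ →+* Λ) (he : Function.Injective e) (f : MonoidAlgebra A H)
    {r : ℕ} (hr : Nat.card κ = p ^ r) :
    MonoidAlgebra.mapRingHom H (algebraMap (ZMod p) Λ) (Δ p f κ) =
      ∏ i ∈ Finset.range r,
        MonoidAlgebra.mapRingHom H ((iterateFrobenius Λ p i).comp (e.comp (algebraMap A κ))) f := by
  have hrank : Module.finrank (ZMod p) κ = r := by
    have := Module.natCard_eq_pow_finrank (K := ZMod p) (V := κ)
    rw [Nat.card_zmod, hr] at this
    exact (Nat.pow_right_injective (Fact.out (p := p.Prime)).two_le this).symm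
  let b : Module.Basis (Fin r) (ZMod p) κ := Module.finBasisOfFinrankEq (ZMod p) κ hrank
  let bR := b.baseChange (MonoidAlgebra (ZMod p) H)
  let ψ := MonoidAlgebra.mapRingHom H (algebraMap (ZMod p) Λ)
  set M := LinearMap.toMatrix bR bR (act p A H κ f) with hM
  let Cmat : Matrix (Fin r) (Fin r) Λ := Matrix.of fun i j : Fin r => e (b j) ^ p ^ (i : ℕ)
  let ι : Λ →+* MonoidAlgebra Λ H := MonoidAlgebra.singleOneRingHom
  let g : ℕ → MonoidAlgebra Λ H := fun i =>
    MonoidAlgebra.mapRingHom H ((iterateFrobenius Λ p i).comp (e.comp (algebraMap A κ))) f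
  have key : Matrix.diagonal (fun i : Fin r => g i) * Cmat.map ι = Cmat.map ι * M.map ψ := by
    ext1 i j
    rw [Matrix.diagonal_mul, Matrix.mul_apply]
    have h1 := rho_act p e i f (bR j)
    have hMl : ∀ l, M l j = bR.repr (act p A H κ f (bR j)) l := fun l => by
      rw [hM]; exact LinearMap.toMatrix_apply _ _ _ _ _
    have h2 : ∑ l, M l j • bR l = act p A H κ f (bR j) := by
      have := bR.sum_repr (act p A H κ f (bR j))
      rw [← this]
      exact Finset.sum_congr rfl fun l _ => by rw [hMl]
    have hbR : ∀ l, rho p e i (bR l) = (Cmat.map ι) i l := fun l => by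
      simp only [bR, Module.Basis.baseChange_apply, rho_tmul, map_one, one_mul]
      rfl
    rw [← h2, map_sum, hbR] at h1
    rw [← h1]
    refine Finset.sum_congr rfl fun l _ => ?_
    rw [rho_smul, hbR, mul_comm, Matrix.map_apply]
    rfl
  have hC : IsUnit (Cmat.map ι).det := by
    have : (Cmat.map ι).det = ι Cmat.det := (RingHom.map_det ι Cmat).symm
    rw [this]
    exact (isUnit_iff_ne_zero.mpr (moore_det_ne_zero p b e he)).map ι
  have h3 := congrArg Matrix.det key
  rw [Matrix.det_mul, Matrix.det_mul, Matrix.det_diagonal, mul_comm] at h3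
  have h4 := hC.mul_left_cancel h3
  have h5 : (M.map ψ).det = ψ M.det := (RingHom.map_det ψ M).symm
  rw [h5, hM, LinearMap.det_toMatrix] at h4
  rw [Finset.prod_range, h4]
  rfl

theorem mapRingHom_mapRingHom {R S T : Type*} [Semiring R] [Semiring S] [Semiring T]
    (f : S →+* T) (g : R →+* S) (x : MonoidAlgebra R H) :
    MonoidAlgebra.mapRingHom H f (MonoidAlgebra.mapRingHom H g x) =
      MonoidAlgebra.mapRingHom H (f.comp g) x := by
  rw [MonoidAlgebra.mapRingHom_comp]; rfl

/-- If `f = φ(a)/a` for a unit `a` of `B[H]` and `e : B → Λ` is a place above `κ` with Frobenius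
element `σ`, then the determinant of the action of `f` on `κ` is `[σ]`. -/
theorem Δ_eq_single [Finite κ] (e : κ →+* Λ) (he : Function.Injective e) (f : MonoidAlgebra A H)
    {r : ℕ} (hr : Nat.card κ = p ^ r) {B : Type*} [CommRing B] [Algebra A B] [CharP B p]
    (e' : B →+* Λ) (hee' : ∀ a : A, e' (algebraMap A B a) = e (algebraMap A κ a))
    (a : MonoidAlgebra B H) (ha : IsUnit a)
    (hfa : MonoidAlgebra.mapRingHom H (algebraMap A B) f * a =
      MonoidAlgebra.mapRingHom H (frobenius B p) a)
    (σ : H) (s : B →+* B) (hs : MonoidAlgebra.mapRingHom H s a = a * MonoidAlgebra.single σ 1)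
    (hσ : ∀ b, e' (s b) = e' b ^ p ^ r) :
    Δ p f κ = MonoidAlgebra.single σ 1 := by
  -- the conjugates of `a` and `f`
  let aΛ : ℕ → MonoidAlgebra Λ H := fun i =>
    MonoidAlgebra.mapRingHom H ((iterateFrobenius Λ p i).comp e') a
  let g : ℕ → MonoidAlgebra Λ H := fun i =>
    MonoidAlgebra.mapRingHom H ((iterateFrobenius Λ p i).comp (e.comp (algebraMap A κ))) f
  have hstep : ∀ i, g i * aΛ i = aΛ (i + 1) := by
    intro i
    have h1 := congrArg (MonoidAlgebra.mapRingHom H ((iterateFrobenius Λ p i).comp e')) hfa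
    rw [map_mul, mapRingHom_mapRingHom, mapRingHom_mapRingHom] at h1
    have h2 : ((iterateFrobenius Λ p i).comp e').comp (algebraMap A B) =
        (iterateFrobenius Λ p i).comp (e.comp (algebraMap A κ)) := by
      ext x
      simp [hee']
    have h3 : ((iterateFrobenius Λ p i).comp e').comp (frobenius B p) =
        (iterateFrobenius Λ p (i + 1)).comp e' := by
      ext x
      simp only [RingHom.comp_apply, frobenius_def, map_pow, iterateFrobenius_def]
      rw [← pow_mul, ← pow_succ]
    rw [h2, h3] at h1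
    exact h1
  have hprod : ∀ n, (∏ i ∈ Finset.range n, g i) * aΛ 0 = aΛ n := by
    intro n
    induction n with
    | zero => simp
    | succ n ih => rw [Finset.prod_range_succ, mul_comm _ (g n), mul_assoc, ih, hstep]
  have hr' : aΛ r = aΛ 0 * MonoidAlgebra.single σ 1 := by
    have h1 := congrArg (MonoidAlgebra.mapRingHom H ((iterateFrobenius Λ p 0).comp e')) hs
    rw [map_mul, mapRingHom_mapRingHom, MonoidAlgebra.mapRingHom_single, map_one] at h1
    have h2 : ((iterateFrobenius Λ p 0).comp e').comp s = (iterateFrobenius Λ p r).comp e' := by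
      ext x
      simp only [RingHom.comp_apply, iterateFrobenius_def]
      rw [hσ, pow_zero, pow_one]
    rw [h2] at h1
    exact h1
  have haΛ : IsUnit (aΛ 0) := ha.map _
  have hfin : ∏ i ∈ Finset.range r, g i = MonoidAlgebra.single σ 1 := by
    refine haΛ.mul_left_cancel ?_
    rw [mul_comm, hprod, hr']
  have hinj : Function.Injective (MonoidAlgebra.mapRingHom H (algebraMap (ZMod p) Λ)) :=
    MonoidAlgebra.map_injective _ (algebraMap (ZMod p) Λ).injective
  refine hinj ?_
  rw [Δ_field p e he f hr, MonoidAlgebra.mapRingHom_single, map_one]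
  exact hfin

end norm

end Pool.Agent.Helper7
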