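import Pool.Agent.Helper7.PlaceModel
import Pool.Agent.Helper14.H7Z1
import Pool.Agent.Helper92.TaskZ
import Pool.Agent.Helper7.ConstExt

set_option autoImplicit false

namespace Pool.Agent.Helper7

open Polynomial

section places

variable {k K : Type*} [Field k] [Finite k] [Field K] [Algebra k K]

theorem exists_place_notMem' (t : K) (ht : Transcendental k t)
    (hfin : FiniteDimensional (IntermediateField.adjoin k {t}) K)
    (S : Set (ValuationSubring K)) (hS : S.Finite)
    (htop : ⊤ ∉ S) : ∃ v : ValuationSubring K, v ≠ ⊤ ∧ v ∉ S := by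
  obtain ⟨hp1, hp2⟩ := poles_finite t ht hfin
  have htop' : ⊤ ∉ poles t := fun h => h trivial
  obtain ⟨𝓟⟩ := nonempty_placeModel t ht hfin (S ∪ poles t) (hS.union hp1)
    (hp2.mono Set.subset_union_right) (by simp [htop, htop'])
  have hded := 𝓟.M.ded
  have hnf : ¬ IsField 𝓟.M.A := by
    intro hf
    have htA : 𝓟.M.t⁻¹ ∈ 𝓟.M.A := by
      obtain ⟨y, hy⟩ := hf.mul_inv_cancel (a := (⟨𝓟.M.t, 𝓟.M.t_mem⟩ : 𝓟.M.A))
        (fun h => 𝓟.M.t_ne (congrArg Subtype.val h))
      have h1 : 𝓟.M.t * (y : K) = 1 := congrArg Subtype.val hy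
      rw [inv_eq_of_mul_eq_one_right h1]
      exact y.2
    refine Set.infinite_of_injective_forall_mem (f := fun N : ℕ => 𝓟.M.t⁻¹ ^ N) ?_ ?_
      (𝓟.M.fin 0)
    · intro N N' h
      apply 𝓟.M.infinite
      simp only [inv_pow] at h ⊢
      exact inv_injective h
    · intro N
      exact ⟨𝓟.M.A.pow_mem htA N, by rw [pow_zero, mul_one]; exact 𝓟.M.O.pow_mem 𝓟.M.tinv_mem N⟩
  obtain ⟨P, hP0, hP⟩ := Ring.not_isField_iff_exists_prime.mp hnf
  obtain ⟨h1, h2⟩ := 𝓟.place_spec ⟨hP, hP0⟩
  exact ⟨_, h1, fun h => h2 (Or.inl h)⟩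

theorem finite_degree_of (t : K) (ht : Transcendental k t)
    (hfin : FiniteDimensional (IntermediateField.adjoin k {t}) K) (d : ℕ) :
    {v : ValuationSubring K | v ≠ ⊤ ∧ degOf k v = d}.Finite := by
  obtain ⟨hp1, hp2⟩ := poles_finite t ht hfin
  have htop' : ⊤ ∉ poles t := fun h => h trivial
  obtain ⟨𝓟⟩ := nonempty_placeModel t ht hfin (poles t) hp1 hp2 htop'
  have hq : 2 ≤ Nat.card k := Finite.one_lt_card
  have h1 := 𝓟.M.finite_ideals (Nat.card k ^ d) (pow_ne_zero _ (by omega))
  refine Set.Finite.subset (hp1.union (h1.image fun P => 𝓟.place P)) fun v hv => ?_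
  obtain ⟨hv1, hv2⟩ := hv
  by_cases hvS : v ∈ poles t
  · exact Or.inl hvS
  · refine Or.inr ⟨(𝓟.e ⟨v, hv1, hvS⟩).1, ?_, 𝓟.place_e _⟩
    have h2 := (𝓟.card_prime k (fun w hw => isDVR_of_ne_top t ht hfin w hw)
      (𝓟.e ⟨v, hv1, hvS⟩).2).1
    rw [𝓟.place_e, hv2] at h2
    exact h2

end places

/-- The closed points of the curve with function field `K`. -/
abbrev Pt (K : Type*) [Field K] : Type _ := {v : ValuationSubring K // v ≠ ⊤}

section counts

variable {K : Type*} [Field K] (k : Type*) [Field k] [Finite k] [Algebra k K]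

/-- The number of ideals of degree `d`. -/
noncomputable def PlaceModel.count {S : Set (ValuationSubring K)} (𝓟 : PlaceModel K S) (d : ℕ) :
    ℕ := {I : Ideal 𝓟.M.A | Nat.card (𝓟.M.A ⧸ I) = Nat.card k ^ d}.ncard

theorem PlaceModel.count_zero {S : Set (ValuationSubring K)} (𝓟 : PlaceModel K S) :
    𝓟.count k 0 = 1 := by
  have h1 : {I : Ideal 𝓟.M.A | Nat.card (𝓟.M.A ⧸ I) = Nat.card k ^ 0} = {⊤} := by
    ext I
    simp only [pow_zero, Set.mem_ofPred_eq, Set.mem_singleton_iff]
    rw [Nat.card_eq_one_iff_unique]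
    constructor
    · rintro ⟨h, _⟩
      exact Ideal.Quotient.subsingleton_iff.mp h
    · intro h
      exact ⟨Ideal.Quotient.subsingleton_iff.mpr h, ⟨0⟩⟩
  rw [PlaceModel.count, h1, Set.ncard_singleton]

open Classical in
/-- The trivial character. -/
noncomputable def trivChar (A : Type*) [CommRing A] [IsDedekindDomain A] : Ideal A →* ℚ where
  toFun I := if I = ⊥ then 0 else 1
  map_one' := by
    have h1 : (1 : Ideal A) ≠ ⊥ := one_ne_zero
    rw [if_neg h1]
  map_mul' I J := by
    by_cases hI : I = ⊥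
    · subst hI
      rw [if_pos (Ideal.bot_mul J), if_pos rfl, zero_mul]
    by_cases hJ : J = ⊥
    · subst hJ
      rw [if_pos (Ideal.mul_bot I), if_pos rfl, mul_zero]
    have h1 : I * J ≠ ⊥ := mul_ne_zero hI hJ
    rw [if_neg hI, if_neg hJ, if_neg h1, mul_one]

theorem trivChar_of_ne {A : Type*} [CommRing A] [IsDedekindDomain A] {I : Ideal A} (h : I ≠ ⊥) :
    trivChar A I = 1 := if_neg h

theorem PlaceModel.finsum_trivChar {S : Set (ValuationSubring K)} (𝓟 : PlaceModel K S) (d : ℕ) :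
    letI := 𝓟.M.ded
    ∑ᶠ I ∈ {I : Ideal 𝓟.M.A | Nat.card (𝓟.M.A ⧸ I) = Nat.card k ^ d}, trivChar 𝓟.M.A I =
      (𝓟.count k d : ℚ) := by
  have hded := 𝓟.M.ded
  have hq : 2 ≤ Nat.card k := Finite.one_lt_card
  have hfin := 𝓟.M.finite_ideals (Nat.card k ^ d) (pow_ne_zero _ (by omega))
  have h1 : ∀ I ∈ {I : Ideal 𝓟.M.A | Nat.card (𝓟.M.A ⧸ I) = Nat.card k ^ d},
      trivChar 𝓟.M.A I = 1 := by
    intro I hI
    refine trivChar_of_ne (Pool.Agent.Helper14.TaskC.ne_bot_of_card' (𝓜 := 𝓟.M) ?_)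
    have h2 : Nat.card (𝓟.M.A ⧸ I) = Nat.card k ^ d := hI
    rw [h2]
    exact pow_ne_zero _ (by omega)
  show ∑ᶠ I ∈ _, _ = _
  rw [finsum_mem_congr rfl h1, PlaceModel.count, ← finsum_one, Nat.cast_finsum_mem hfin]
  simp

variable (hdvr : ∀ w : ValuationSubring K, w ≠ ⊤ →
    IsDiscreteValuationRing w ∧ Finite (IsLocalRing.ResidueField w))

theorem finite_dvd
    (hfin : ∀ d, {v : ValuationSubring K | v ≠ ⊤ ∧ degOf k v = d}.Finite) {m : ℕ} (hm : 1 ≤ m) :
    {w : Pt K | degOf k w.1 ∣ m}.Finite := by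
  refine Set.Finite.of_finite_image (f := Subtype.val) ?_ Subtype.val_injective.injOn
  refine Set.Finite.subset (Set.Finite.biUnion (Set.finite_Iic m) fun d' _ => hfin d') ?_
  rintro _ ⟨v, hv, rfl⟩
  simp only [Set.mem_iUnion, Set.mem_Iic]
  exact ⟨degOf k v.1, Nat.le_of_dvd (by omega) hv, v.2, rfl⟩

include hdvr in
theorem PlaceModel.count_rec (v : Pt K) (𝓟 : PlaceModel K {v.1})
    (hfin : ∀ d, {v : ValuationSubring K | v ≠ ⊤ ∧ degOf k v = d}.Finite) (d : ℕ) :
    d * 𝓟.count k d = ∑ m ∈ Finset.Icc 1 d,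
      (∑ᶠ w ∈ {w : Pt K | w ≠ v ∧ degOf k w.1 ∣ m}, degOf k w.1) * 𝓟.count k (d - m) := by
  have := 𝓟.M.ded
  have hinfA : Infinite 𝓟.M.A := 𝓟.M.infinite_A
  have hq : 2 ≤ Nat.card k := Finite.one_lt_card
  have h1 := logDeriv_coeff (Nat.card k) hq (fun N hN => 𝓟.M.finite_ideals N hN)
    (𝓟.exists_card_eq_pow k hdvr) (trivChar 𝓟.M.A) d
  rw [𝓟.finsum_trivChar k d] at h1
  apply Nat.cast_injective (R := ℚ)
  push_cast
  rw [h1]
  refine Finset.sum_congr rfl fun m hm => ?_
  have hm1 : 1 ≤ m := (Finset.mem_Icc.mp hm).1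
  have hset : {w : Pt K | w ≠ v ∧ degOf k w.1 ∣ m}.Finite :=
    (finite_dvd k hfin hm1).subset fun w hw => hw.2
  rw [𝓟.finsum_trivChar k (d - m), Nat.cast_finsum_mem hset]
  congr 1
  have h2 : ∑ᶠ P ∈ {P : Ideal 𝓟.M.A | P.IsPrime ∧ P ≠ ⊥ ∧
      Nat.log (Nat.card k) (Nat.card (𝓟.M.A ⧸ P)) ∣ m},
        ((Nat.log (Nat.card k) (Nat.card (𝓟.M.A ⧸ P)) : ℕ) : ℚ) * trivChar 𝓟.M.A P ^
          (m / Nat.log (Nat.card k) (Nat.card (𝓟.M.A ⧸ P))) =
      ∑ᶠ w ∈ {w : {w : ValuationSubring K // w ≠ ⊤ ∧ w ∉ ({v.1} : Set (ValuationSubring K))} |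
        degOf k w.1 ∣ m}, ((degOf k w.1 : ℕ) : ℚ) := by
    symm
    refine finsum_mem_eq_of_bijOn (fun w => (𝓟.e w).1) ⟨?_, ?_, ?_⟩ ?_
    · intro w hw
      have h2 := (𝓟.e w).2
      refine ⟨h2.1, h2.2, ?_⟩
      rw [(𝓟.card_prime k hdvr h2).1, Nat.log_pow hq, 𝓟.place_e]
      exact hw
    · intro v _ w _ h
      exact 𝓟.e.injective (Subtype.ext h)
    · rintro P ⟨hP, hP0, hPm⟩
      refine ⟨𝓟.e.symm ⟨P, hP, hP0⟩, ?_, by simp⟩
      rw [(𝓟.card_prime k hdvr ⟨hP, hP0⟩).1, Nat.log_pow hq, 𝓟.place_eq ⟨hP, hP0⟩] at hPm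
      exact hPm
    · intro w _
      have h2 := (𝓟.e w).2
      rw [(𝓟.card_prime k hdvr h2).1, Nat.log_pow hq, 𝓟.place_e, trivChar_of_ne h2.2, one_pow,
        mul_one]
  rw [h2]
  refine finsum_mem_eq_of_bijOn (fun w => (⟨w.1, w.2.1⟩ : Pt K)) ⟨?_, ?_, ?_⟩ ?_
  · intro w hw
    refine ⟨fun h => w.2.2 (Set.mem_singleton_iff.mpr ?_), hw⟩
    exact congrArg Subtype.val h
  · intro w _ w' _ h
    exact Subtype.ext (Subtype.mk.inj h)
  · rintro w ⟨hwv, hwm⟩
    exact ⟨⟨w.1, w.2, fun h => hwv (Subtype.ext (Set.mem_singleton_iff.mp h))⟩, hwm, rfl⟩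
  · intro w _
    rfl

include hdvr in
theorem PlaceModel.count_per (v w : Pt K) (hwv : w ≠ v) (𝓟 : PlaceModel K {v.1}) :
    ∃ D, ∀ d ≥ D, 𝓟.count k (d + degOf k w.1) = Nat.card k ^ degOf k w.1 * 𝓟.count k d := by
  have hded := 𝓟.M.ded
  have hq : 2 ≤ Nat.card k := Finite.one_lt_card
  have hw : w.1 ≠ ⊤ ∧ w.1 ∉ ({v.1} : Set (ValuationSubring K)) :=
    ⟨w.2, fun h => hwv (Subtype.ext (Set.mem_singleton_iff.mp h))⟩
  have hP := (𝓟.e ⟨w.1, hw⟩).2
  have hcard := (𝓟.card_prime k hdvr hP).1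
  rw [𝓟.place_e] at hcard
  obtain ⟨N₀, hN₀⟩ := 𝓟.M.card_ideals_ratio (𝓟.e ⟨w.1, hw⟩).1 ⊤ hP.2 top_ne_bot
  refine ⟨N₀, fun d hd => ?_⟩
  have htop : Nat.card (𝓟.M.A ⧸ (⊤ : Ideal 𝓟.M.A)) = 1 := by
    have : Subsingleton (𝓟.M.A ⧸ (⊤ : Ideal 𝓟.M.A)) := Ideal.Quotient.subsingleton_iff.mpr rfl
    exact Nat.card_unique
  have h1 : N₀ ≤ Nat.card k ^ d := hd.trans (Nat.lt_pow_self hq).le
  have h2 := hN₀ (Nat.card k ^ d) (Nat.card k ^ (d + degOf k w.1)) h1
    (h1.trans (Nat.pow_le_pow_right (by omega) (by omega))) (by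
      rw [htop, mul_one, hcard, pow_add])
  have h3 : 0 < Nat.card k ^ d := Nat.pow_pos (by omega)
  apply Nat.eq_of_mul_eq_mul_right h3
  rw [PlaceModel.count, ← h2, PlaceModel.count, pow_add]
  ring

end counts

section main

variable {k K : Type*} [Field k] [Finite k] [Field K] [Algebra k K]

theorem numPoints_eq_ncard
    (hdvr : ∀ w : ValuationSubring K, w ≠ ⊤ →
      IsDiscreteValuationRing w ∧ Finite (IsLocalRing.ResidueField w)) (d : ℕ) :
    numPoints (Nat.card k) K d = {v : Pt K | degOf k v.1 = d}.ncard := by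
  have hq : 2 ≤ Nat.card k := Finite.one_lt_card
  rw [numPoints, ← Nat.card_coe_set_eq]
  refine Nat.card_congr
    { toFun := fun v => ⟨⟨v.1, v.2.1⟩, ?_⟩
      invFun := fun v => ⟨v.1.1, v.1.2, ?_⟩
      left_inv := fun v => rfl
      right_inv := fun v => rfl }
  · show degOf k v.1 = d
    rw [degOf, v.2.2, Nat.log_pow hq]
  · have := (hdvr v.1.1 v.1.2).2
    have h2 : degOf k v.1.1 = d := v.2
    rw [(card_residueField k v.1.1).1, h2]

/-- The zeta function up to the gcd of the degrees. -/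
theorem exists_gcd_numerator (t : K) (ht : Transcendental k t)
    (hfin : FiniteDimensional (IntermediateField.adjoin k {t}) K) :
    ∃ g : ℕ, 0 < g ∧ (∀ v : ValuationSubring K, v ≠ ⊤ → g ∣ degOf k v) ∧
      ∃ T : ℤ[X], (∀ N : ℕ, (X : ℤ[X]) ^ (N + 1) ∣
        T * ∏ d ∈ Finset.Icc 1 N, (1 - (X : ℤ[X]) ^ d) ^ numPoints (Nat.card k) K d
          - (1 - X ^ g) * (1 - C (((Nat.card k : ℕ) : ℤ) ^ g) * X ^ g)) ∧
      (T.map (Int.castRingHom ℚ)).eval (1 / ((Nat.card k : ℕ) : ℚ)) ≠ 0 := by
  have hq : 2 ≤ Nat.card k := Finite.one_lt_card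
  have hdvr := isDVR_of_ne_top t ht hfin
  have hdegpos : ∀ v : Pt K, 0 < degOf k v.1 := fun v => by
    have := (hdvr v.1 v.2).2
    exact (card_residueField k v.1).2
  have hfind := finite_degree_of t ht hfin
  have hfind' : ∀ d, {v : Pt K | degOf k v.1 = d}.Finite := fun d => by
    refine Set.Finite.of_finite_image (f := Subtype.val) ?_ Subtype.val_injective.injOn
    refine (hfind d).subset ?_
    rintro _ ⟨v, hv, rfl⟩
    exact ⟨v.2, hv⟩
  obtain ⟨v₀, hv₀, -⟩ := exists_place_notMem' t ht hfin ∅ Set.finite_empty (by simp)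
  obtain ⟨w₀, hw₀, hw₀'⟩ := exists_place_notMem' t ht hfin {v₀} (Set.finite_singleton _)
    (fun h => hv₀ (Set.mem_singleton_iff.mp h).symm)
  have hV : ∃ v w : Pt K, v ≠ w :=
    ⟨⟨w₀, hw₀⟩, ⟨v₀, hv₀⟩, fun h => hw₀' (Set.mem_singleton_iff.mpr (congrArg Subtype.val h))⟩
  -- models
  have hmodel : ∀ v : Pt K, Nonempty (PlaceModel K {v.1}) := fun v =>
    nonempty_placeModel t ht hfin _ (Set.finite_singleton _) (Set.singleton_nonempty _)
      (fun h => v.2 (Set.mem_singleton_iff.mp h).symm)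
  let 𝓟 : ∀ v : Pt K, PlaceModel K {v.1} := fun v => (hmodel v).some
  -- the gcd
  obtain ⟨c, hc⟩ := (inferInstance : (Ideal.span (Set.range fun v : Pt K =>
    ((degOf k v.1 : ℕ) : ℤ))).IsPrincipal)
  have hg : ∀ v : Pt K, c.natAbs ∣ degOf k v.1 := fun v => by
    have h1 : ((degOf k v.1 : ℕ) : ℤ) ∈ Ideal.span (Set.range fun v : Pt K =>
      ((degOf k v.1 : ℕ) : ℤ)) := Ideal.subset_span ⟨v, rfl⟩
    rw [hc] at h1
    have h2 : c ∣ ((degOf k v.1 : ℕ) : ℤ) := Ideal.mem_span_singleton.mp h1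
    exact Int.natAbs_dvd_natAbs.mpr h2 |>.trans (by simp)
  have hg' : ∀ g', (∀ v : Pt K, g' ∣ degOf k v.1) → g' ∣ c.natAbs := by
    intro g' h
    have h1 : Ideal.span (Set.range fun v : Pt K => ((degOf k v.1 : ℕ) : ℤ)) ≤
        Ideal.span {(g' : ℤ)} := by
      rw [Ideal.span_le]
      rintro _ ⟨v, rfl⟩
      exact Ideal.mem_span_singleton.mpr (Int.natCast_dvd_natCast.mpr (h v))
    have h2 : c ∈ Ideal.span {(g' : ℤ)} := by
      apply h1
      rw [hc]
      exact Ideal.mem_span_singleton_self c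
    exact Int.natCast_dvd.mp (Ideal.mem_span_singleton.mp h2)
  have hgpos : 0 < c.natAbs := Nat.pos_of_dvd_of_pos (hg ⟨v₀, hv₀⟩) (hdegpos ⟨v₀, hv₀⟩)
  obtain ⟨T, hT, hT0⟩ := Pool.Agent.Helper92.exists_numerator (Nat.card k) hq (fun v : Pt K => degOf k v.1) hdegpos
    hfind' hV (fun v d => (𝓟 v).count k d) (fun v => (𝓟 v).count_zero k)
    (fun v d => (𝓟 v).count_rec k hdvr v hfind d)
    (fun v w hwv => PlaceModel.count_per k hdvr v w hwv (𝓟 v)) c.natAbs hg hg'
  refine ⟨c.natAbs, hgpos, fun v hv => hg ⟨v, hv⟩, T, fun N => ?_, hT0⟩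
  simp only [numPoints_eq_ncard hdvr]
  exact hT N

end main

/-- The constant field extension of degree `g`, when `g` divides the degree of every closed
point. -/
theorem exists_constant_extension.{u, v} {k : Type u} {K : Type v} [Field k] [Finite k] [Field K]
    [Algebra k K] (t : K) (ht : Transcendental k t)
    (hfin : FiniteDimensional (IntermediateField.adjoin k {t}) K)
    (hconst : ∀ x : K, IsAlgebraic k x → x ∈ (algebraMap k K).range)
    (g : ℕ) (hg : 0 < g) (hdeg : ∀ v : ValuationSubring K, v ≠ ⊤ → g ∣ degOf k v) :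
    ∃ (k' : Type) (K' : Type v) (_ : Field k') (_ : Finite k') (_ : Field K')
      (_ : Algebra k' K') (t' : K'),
      Nat.card k' = Nat.card k ^ g ∧ Transcendental k' t' ∧
      FiniteDimensional (IntermediateField.adjoin k' {t'}) K' ∧
      ∀ e, numPoints (Nat.card k') K' e = g * numPoints (Nat.card k) K (g * e) := by
  classical
  obtain ⟨p, hp⟩ := CharP.exists k
  have hpp : Fact p.Prime := ⟨CharP.char_is_prime k p⟩
  have hgz : NeZero g := ⟨hg.ne'⟩
  have hq : 1 < Nat.card k := Finite.one_lt_card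
  let k' := FiniteField.Extension k p g
  have hcard : Nat.card k' = Nat.card k ^ g := FiniteField.natCard_extension k p g
  have hrankk : Module.finrank k k' = g := FiniteField.finrank_extension k p g
  set Q := Nat.card k ^ g with hQ
  have hQ1 : 1 < Q := Nat.one_lt_pow hg.ne' hq
  let E := AlgebraicClosure K
  have halg : Algebra.IsAlgebraic k k' := inferInstance
  let ι : k' →ₐ[k] E := IsAlgClosed.lift
  have hιQ : ∀ a : k', (ι a) ^ Q = ι a := by
    intro a
    have := Fintype.ofFinite k'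
    rw [← map_pow, ← hcard, Nat.card_eq_fintype_card, FiniteField.pow_card]
  obtain ⟨α, hα⟩ := Field.exists_primitive_element k k'
  have hαint : IsIntegral k α := Algebra.IsIntegral.isIntegral α
  have hmin : minpoly K (ι α) = (minpoly k α).map (algebraMap k K) := by
    symm
    refine minpoly.eq_of_irreducible_of_monic
      (irreducible_map_of_const hconst (minpoly.irreducible hαint) (minpoly.monic hαint)) ?_
      ((minpoly.monic hαint).map _)
    rw [aeval_map_algebraMap, aeval_algHom_apply, minpoly.aeval, map_zero]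
  have hdegmin : (minpoly k α).natDegree = g := by
    rw [← IntermediateField.adjoin.finrank hαint, hα, IntermediateField.finrank_top', hrankk]
  have hint : IsIntegral K (ι α) := Algebra.IsIntegral.isIntegral _
  -- the splitting field
  let f : K[X] := X ^ Q - X
  have hf0 : f ≠ 0 := FiniteField.X_pow_card_sub_X_ne_zero _ hQ1
  let K' := IntermediateField.adjoin K (f.rootSet E)
  have hroot : ∀ x : E, x ∈ f.rootSet E ↔ x ^ Q = x := by
    intro x
    rw [mem_rootSet]
    simp [f, hf0, sub_eq_zero]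
  have hι : ∀ a : k', ι a ∈ K' := fun a =>
    IntermediateField.subset_adjoin _ _ ((hroot _).mpr (hιQ a))
  have hrange : ∀ x : E, x ^ Q = x → ∃ a, ι a = x := by
    intro x hx
    have := Fintype.ofFinite k'
    have hne : (X ^ Q - X : E[X]) ≠ 0 := FiniteField.X_pow_card_sub_X_ne_zero _ hQ1
    have h1 : Finset.univ.image ι = (X ^ Q - X : E[X]).roots.toFinset := by
      apply Finset.eq_of_subset_of_card_le
      · intro z hz
        obtain ⟨a, -, rfl⟩ := Finset.mem_image.mp hz
        rw [Multiset.mem_toFinset, mem_roots hne]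
        simp [hιQ a]
      · rw [Finset.card_image_of_injective _ (show Function.Injective ι from ι.toRingHom.injective), Finset.card_univ,
          ← Nat.card_eq_fintype_card, hcard]
        refine (Multiset.toFinset_card_le _).trans ((card_roots' _).trans ?_)
        rw [FiniteField.X_pow_card_sub_X_natDegree_eq _ hQ1]
    have h2 : x ∈ (X ^ Q - X : E[X]).roots.toFinset := by
      rw [Multiset.mem_toFinset, mem_roots hne]
      simp [hx]
    rw [← h1] at h2
    obtain ⟨a, -, ha⟩ := Finset.mem_image.mp h2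
    exact ⟨a, ha⟩
  have hK'eq : K' = IntermediateField.adjoin K {ι α} := by
    apply le_antisymm
    · rw [IntermediateField.adjoin_le_iff]
      intro x hx
      obtain ⟨a, rfl⟩ := hrange x ((hroot x).mp hx)
      have h1 : a ∈ IntermediateField.adjoin k {α} := hα ▸ IntermediateField.mem_top
      have h2 : ι a ∈ (IntermediateField.adjoin k {α}).map ι := ⟨a, h1, rfl⟩
      rw [IntermediateField.adjoin_map, Set.image_singleton] at h2
      have h3 : IntermediateField.adjoin k {ι α} ≤
          (IntermediateField.adjoin K {ι α}).restrictScalars k := by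
        rw [IntermediateField.adjoin_le_iff]
        intro y hy
        exact IntermediateField.subset_adjoin K {ι α} hy
      exact h3 h2
    · rw [IntermediateField.adjoin_le_iff]
      rintro _ rfl
      exact hι α
  have hfdK' : FiniteDimensional K K' := by
    rw [hK'eq]
    exact IntermediateField.adjoin.finiteDimensional hint
  have hrank : Module.finrank K K' = g := by
    rw [hK'eq, IntermediateField.adjoin.finrank hint, hmin, natDegree_map, hdegmin]
  have hsplit : f.IsSplittingField K K' :=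
    IntermediateField.adjoin_rootSet_isSplittingField (IsAlgClosed.splits _)
  have hpK : CharP K p := charP_of_injective_algebraMap (algebraMap k K).injective p
  have hpQ : p ∣ Q := by
    have := Fintype.ofFinite k
    obtain ⟨n, -, hn⟩ := FiniteField.card k p
    rw [hQ, Nat.card_eq_fintype_card, hn, ← pow_mul]
    exact dvd_pow_self p (Nat.mul_ne_zero n.pos.ne' hg.ne')
  have hgal : IsGalois K K' := IsGalois.of_separable_splitting_field (p := f)
    (galois_poly_separable p Q hpQ)
  -- the algebra structure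
  let j : k' →+* K' := ι.toRingHom.codRestrict K'.toSubfield.toSubring hι
  let _ : Algebra k' K' := j.toAlgebra
  have hst : IsScalarTower k k' K' := by
    refine IsScalarTower.of_algebraMap_eq fun x => ?_
    apply Subtype.ext
    show algebraMap k E x = ι (algebraMap k k' x)
    rw [ι.commutes]
  have ht' : Transcendental k' (algebraMap K K' t) := by
    intro h
    have h1 : IsAlgebraic k (algebraMap K K' t) := h.restrictScalars k
    exact (transcendental_algebraMap_iff (algebraMap K K').injective).mpr ht h1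
  have hfin1 := finiteDimensional_adjoin_algebraMap (L := K') t hfin
  have hle : ∀ x ∈ IntermediateField.adjoin k {algebraMap K K' t},
      x ∈ IntermediateField.adjoin k' {algebraMap K K' t} := by
    have h3 : IntermediateField.adjoin k {algebraMap K K' t} ≤
        (IntermediateField.adjoin k' {algebraMap K K' t}).restrictScalars k := by
      rw [IntermediateField.adjoin_le_iff]
      intro y hy
      exact IntermediateField.subset_adjoin k' {algebraMap K K' t} hy
    exact fun x hx => h3 hx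
  have hfin' : FiniteDimensional (IntermediateField.adjoin k' {algebraMap K K' t}) K' := by
    let φ : IntermediateField.adjoin k {algebraMap K K' t} →+*
        IntermediateField.adjoin k' {algebraMap K K' t} :=
      (algebraMap (IntermediateField.adjoin k {algebraMap K K' t}) K').codRestrict
        (IntermediateField.adjoin k' {algebraMap K K' t}).toSubfield.toSubring fun x => hle x x.2
    let _ : Algebra (IntermediateField.adjoin k {algebraMap K K' t})
      (IntermediateField.adjoin k' {algebraMap K K' t}) := φ.toAlgebra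
    have : IsScalarTower (IntermediateField.adjoin k {algebraMap K K' t})
        (IntermediateField.adjoin k' {algebraMap K K' t}) K' :=
      IsScalarTower.of_algebraMap_eq fun x => rfl
    exact Module.Finite.of_restrictScalars_finite (IntermediateField.adjoin k {algebraMap K K' t})
      _ _
  refine ⟨k', K', inferInstance, inferInstance, inferInstance, inferInstance, algebraMap K K' t,
    hcard, ht', hfin', fun e => ?_⟩
  rw [hcard]
  refine numPoints_constExt (k := k) hg hrank {x : K' | x ^ Q = x} (fun x hx => hx) ?_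
    (isDVR_of_ne_top t ht hfin) (isDVR_of_ne_top _ ht' hfin') (finite_degree_of t ht hfin) hdeg e
  have h1 : (f.rootSet K') ⊆ {x : K' | x ^ Q = x} := by
    intro x hx
    rw [mem_rootSet] at hx
    have h2 := hx.2
    simp only [f, map_sub, map_pow, aeval_X, sub_eq_zero] at h2
    exact h2
  have h2 : Algebra.adjoin K {x : K' | x ^ Q = x} = ⊤ := by
    rw [eq_top_iff, ← hsplit.adjoin_rootSet']
    exact Algebra.adjoin_mono h1
  exact IntermediateField.adjoin_eq_top_of_algebra K _ h2

/-- **Rationality of the zeta function** (F. K. Schmidt). -/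
theorem exists_zetaNumerator.{u, v} {k : Type u} {K : Type v} [Field k] [Finite k] [Field K]
    [Algebra k K] (t : K) (ht : Transcendental k t)
    (hfin : FiniteDimensional (IntermediateField.adjoin k {t}) K)
    (hconst : ∀ x : K, IsAlgebraic k x → x ∈ (algebraMap k K).range) :
    ∃ P : ℤ[X], IsZetaNumerator (Nat.card k) K P := by
  have hq : 2 ≤ Nat.card k := Finite.one_lt_card
  have hdvr := isDVR_of_ne_top t ht hfin
  obtain ⟨g, hg, hgdeg, T, hT, hT0⟩ := exists_gcd_numerator t ht hfin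
  obtain ⟨k', K', _, _, _, _, t', hcard, ht', hfin', hpts⟩ :=
    exists_constant_extension t ht hfin hconst g hg hgdeg
  obtain ⟨g', hg', -, T', hT', -⟩ := exists_gcd_numerator t' ht' hfin'
  have hg1 : g = 1 := by
    refine Pool.Agent.Helper92.gcd_eq_one (Nat.card k) g g' hq hg hg' (numPoints (Nat.card k) K)
      (numPoints (Nat.card k') K') (fun d hd => ?_) hpts T T' hT hT0 ?_
    · rw [numPoints_eq_ncard hdvr]
      have : {v : Pt K | degOf k v.1 = d} = ∅ := by
        ext v
        simp only [Set.mem_ofPred_eq, Set.mem_empty_iff_false, iff_false]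
        rintro rfl
        exact hd (hgdeg v.1 v.2)
      rw [this, Set.ncard_empty]
    · intro N
      have := hT' N
      rw [hcard] at this ⊢
      exact this
  refine ⟨T, fun N => ?_⟩
  have := hT N
  rw [hg1] at this
  simpa using this

end Pool.Agent.Helper7
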