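import Pool.Agent.Helper7.Core
import Pool.Agent.Helper7.Model

set_option autoImplicit false

namespace Pool.Agent.Helper7

open TensorProduct

section act

variable (p : ℕ) [Fact p.Prime] {A H : Type*} [CommRing A] [Algebra (ZMod p) A] [CommGroup H]
variable {M : Type*} [AddCommGroup M] [Module A M] [Module (ZMod p) M] [IsScalarTower (ZMod p) A M]

theorem act_one_tmul (f : MonoidAlgebra A H) (m : M) :
    act p A H M f (1 ⊗ₜ[ZMod p] m) =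
      f.coeff.sum fun h a => (MonoidAlgebra.single h (1 : ZMod p)) ⊗ₜ[ZMod p] (a • m) := by
  conv_lhs => rw [← MonoidAlgebra.sum_coeff_single f]
  rw [map_finsuppSum, Finsupp.sum, LinearMap.sum_apply, Finsupp.sum]
  refine Finset.sum_congr rfl fun h _ => ?_
  rw [act_single, mul_one]

theorem act_one_tmul_mem (f : MonoidAlgebra A H) (m : M) (U : Submodule (ZMod p) M)
    (h : ∀ x, f.coeff x • m ∈ U) :
    act p A H M f (1 ⊗ₜ[ZMod p] m) ∈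
      LinearMap.range (inc (MonoidAlgebra (ZMod p) H) U) := by
  rw [act_one_tmul]
  refine Submodule.sum_mem _ fun x _ => ?_
  exact ⟨MonoidAlgebra.single x (1 : ZMod p) ⊗ₜ ⟨_, h x⟩, by simp [inc]⟩

theorem augMap_act (f : MonoidAlgebra A H) (m : M) :
    augMap (aug (ZMod p) H) (act p A H M f (1 ⊗ₜ[ZMod p] m)) = aug A H f • m := by
  induction f using MonoidAlgebra.induction_linear with
  | zero => simp
  | add f g hf hg => rw [map_add, map_add, LinearMap.add_apply, map_add, hf, hg, add_smul]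
  | single h a => rw [act_single, aug_single, augMap_tmul, mul_one, aug_single, one_smul]

end act

namespace Model

variable {K : Type*} [Field K] (𝓜 : Model K) {A : Type*} [CommRing A] [Algebra A K]

/-- Elements of `I` with pole order at most `N` (relative to `t`). -/
def LI (I : Ideal A) (N : ℕ) : AddSubgroup K where
  carrier := {z | (∃ a ∈ I, algebraMap A K a = z) ∧ z * 𝓜.t⁻¹ ^ N ∈ 𝓜.O}
  add_mem' := by
    rintro _ _ ⟨⟨a, ha, rfl⟩, ha'⟩ ⟨⟨b, hb, rfl⟩, hb'⟩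
    exact ⟨⟨a + b, I.add_mem ha hb, map_add _ _ _⟩, by rw [add_mul]; exact 𝓜.O.add_mem ha' hb'⟩
  zero_mem' := ⟨⟨0, I.zero_mem, map_zero _⟩, by rw [zero_mul]; exact 𝓜.O.zero_mem⟩
  neg_mem' := by
    rintro _ ⟨⟨a, ha, rfl⟩, ha'⟩
    exact ⟨⟨-a, I.neg_mem ha, map_neg _ _⟩, by rw [neg_mul]; exact 𝓜.O.neg_mem ha'⟩

theorem mem_LI {I : Ideal A} {N : ℕ} {z : K} :
    z ∈ 𝓜.LI I N ↔ (∃ a ∈ I, algebraMap A K a = z) ∧ z * 𝓜.t⁻¹ ^ N ∈ 𝓜.O := Iff.rfl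

theorem finite_LI (hA : ∀ a : A, algebraMap A K a ∈ 𝓜.A) (I : Ideal A) (N : ℕ) :
    (𝓜.LI I N : Set K).Finite :=
  (𝓜.fin N).subset fun _ hz => ⟨by obtain ⟨⟨a, _, rfl⟩, _⟩ := hz; exact hA a, hz.2⟩

theorem mem_O_mono {N N' : ℕ} (h : N ≤ N') {z : K} (hz : z * 𝓜.t⁻¹ ^ N ∈ 𝓜.O) :
    z * 𝓜.t⁻¹ ^ N' ∈ 𝓜.O := by
  have : z * 𝓜.t⁻¹ ^ N' = z * 𝓜.t⁻¹ ^ N * 𝓜.t⁻¹ ^ (N' - N) := by
    rw [mul_assoc, ← pow_add, Nat.add_sub_cancel' h]
  rw [this]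
  exact 𝓜.O.mul_mem hz (𝓜.O.pow_mem 𝓜.tinv_mem _)

theorem exists_bound {ι : Type*} [Finite ι] (z : ι → K) : ∃ N : ℕ, ∀ i, z i * 𝓜.t⁻¹ ^ N ∈ 𝓜.O := by
  have := Fintype.ofFinite ι
  choose N hN using fun i => 𝓜.exh (z i)
  exact ⟨Finset.univ.sup N, fun i => 𝓜.mem_O_mono (Finset.le_sup (Finset.mem_univ i)) (hN i)⟩

theorem exists_bound_coeff {H : Type*} [CommGroup H] (f : MonoidAlgebra A H) :
    ∃ N : ℕ, ∀ x, algebraMap A K (f.coeff x) * 𝓜.t⁻¹ ^ N ∈ 𝓜.O := by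
  obtain ⟨N, hN⟩ := 𝓜.exists_bound (fun i : f.coeff.support => algebraMap A K (f.coeff i))
  refine ⟨N, fun x => ?_⟩
  by_cases hx : x ∈ f.coeff.support
  · exact hN ⟨x, hx⟩
  · rw [Finsupp.notMem_support_iff.mp hx, map_zero, zero_mul]
    exact 𝓜.O.zero_mem

theorem exists_surj (I : Ideal A) [Finite (A ⧸ I)] : ∃ N : ℕ, ∀ a : A, ∃ b : A,
    a - b ∈ I ∧ algebraMap A K b * 𝓜.t⁻¹ ^ N ∈ 𝓜.O := by
  obtain ⟨N, hN⟩ := 𝓜.exists_bound (fun c : A ⧸ I => algebraMap A K (Quotient.out c : A))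
  refine ⟨N, fun a => ⟨Quotient.out (Ideal.Quotient.mk I a), ?_, hN _⟩⟩
  rw [← Ideal.Quotient.eq]
  exact (Quotient.out_eq (s := Submodule.quotientRel I) (Ideal.Quotient.mk I a)).symm

theorem sub_one_unit {m : ℕ} (hm : 1 ≤ m) {g : K} (hg : (g - 1) * 𝓜.t ^ m ∈ 𝓜.O) :
    g ∈ 𝓜.O ∧ g⁻¹ ∈ 𝓜.O := by
  have h1 : g = 1 + 𝓜.t⁻¹ * (𝓜.t⁻¹ ^ (m - 1) * ((g - 1) * 𝓜.t ^ m)) := by
    obtain ⟨m, rfl⟩ := Nat.exists_eq_add_of_le' hm
    have := 𝓜.t_ne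
    rw [Nat.add_sub_cancel, inv_pow, pow_succ]
    field_simp
    ring
  have h2 : 𝓜.t⁻¹ ^ (m - 1) * ((g - 1) * 𝓜.t ^ m) ∈ 𝓜.O :=
    𝓜.O.mul_mem (𝓜.O.pow_mem 𝓜.tinv_mem _) hg
  constructor
  · rw [h1]
    exact 𝓜.O.add_mem 𝓜.O.one_mem (𝓜.O.mul_mem 𝓜.tinv_mem h2)
  · rw [h1]
    exact 𝓜.unit _ h2

/-- **Reciprocity.** The determinants attached to two ideals which differ by a function close to
`1` at infinity agree. -/
theorem recip (p : ℕ) [Fact p.Prime] [Algebra (ZMod p) A] [Algebra (ZMod p) K]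
    [IsScalarTower (ZMod p) A K] (hinj : Function.Injective (algebraMap A K))
    (hA : ∀ a : A, algebraMap A K a ∈ 𝓜.A)
    {H : Type*} [CommGroup H] (n : ℕ) (hH : ∀ h : H, h ^ p ^ n = 1)
    (f : MonoidAlgebra A H) (hf : aug A H f = 1) :
    ∃ m : ℕ, ∀ (g : K) (I J : Ideal A), g ≠ 0 → (g - 1) * 𝓜.t ^ m ∈ 𝓜.O →
      Finite (A ⧸ I) → Finite (A ⧸ J) →
      (∀ x : K, (∃ a ∈ I, algebraMap A K a = x) ↔ ∃ b ∈ J, algebraMap A K b = g * x) →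
      Δ p f (A ⧸ I) = Δ p f (A ⧸ J) := by
  have hnt : Nontrivial A := ⟨0, 1, fun h => zero_ne_one (α := K) (by
    rw [← map_zero (algebraMap A K), h, map_one])⟩
  have hchar : CharP A p := charP_of_injective_algebraMap (algebraMap (ZMod p) A).injective p
  obtain ⟨f', hff'⟩ := (isUnit_of_aug p n hH f hf).exists_right_inv
  obtain ⟨m₁, hm₁⟩ := 𝓜.exists_bound_coeff f
  obtain ⟨m₂, hm₂⟩ := 𝓜.exists_bound_coeff f'
  set m₀ := max m₁ m₂ + 1 with hm₀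
  have hf₀ : ∀ x, algebraMap A K (f.coeff x) * 𝓜.t⁻¹ ^ m₀ ∈ 𝓜.O := fun x =>
    𝓜.mem_O_mono (by omega) (hm₁ x)
  have hf'₀ : ∀ x, algebraMap A K (f'.coeff x) * 𝓜.t⁻¹ ^ m₀ ∈ 𝓜.O := fun x =>
    𝓜.mem_O_mono (by omega) (hm₂ x)
  refine ⟨2 * m₀, fun g I J hg0 hg hI hJ hIJ => ?_⟩
  obtain ⟨hgO, hgO'⟩ := 𝓜.sub_one_unit (by omega) hg
  obtain ⟨N₁, hN₁⟩ := 𝓜.exists_surj I
  obtain ⟨N₂, hN₂⟩ := 𝓜.exists_surj J
  set N := max N₁ N₂ with hN
  -- membership invariance under `g`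
  have hgmem : ∀ (k : ℕ) (z : K), g * z * 𝓜.t⁻¹ ^ k ∈ 𝓜.O ↔ z * 𝓜.t⁻¹ ^ k ∈ 𝓜.O := by
    intro k z
    constructor
    · intro h
      have : z * 𝓜.t⁻¹ ^ k = g⁻¹ * (g * z * 𝓜.t⁻¹ ^ k) := by field_simp
      rw [this]; exact 𝓜.O.mul_mem hgO' h
    · intro h
      rw [mul_assoc]; exact 𝓜.O.mul_mem hgO h
  let R := MonoidAlgebra (ZMod p) H
  let E₀ : Submodule (ZMod p) K := AddSubgroup.toZModSubmodule p (𝓜.LI (⊤ : Ideal A) N)
  let E : Submodule (ZMod p) K := AddSubgroup.toZModSubmodule p (𝓜.LI (⊤ : Ideal A) (N + m₀))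
  let D : Submodule (ZMod p) K := AddSubgroup.toZModSubmodule p (𝓜.LI I (N + m₀))
  have memE₀ : ∀ z : K, z ∈ E₀ ↔ (∃ a : A, algebraMap A K a = z) ∧ z * 𝓜.t⁻¹ ^ N ∈ 𝓜.O := by
    intro z
    simp [E₀, mem_LI]
  have memE : ∀ z : K, z ∈ E ↔ (∃ a : A, algebraMap A K a = z) ∧
      z * 𝓜.t⁻¹ ^ (N + m₀) ∈ 𝓜.O := by
    intro z
    simp [E, mem_LI]
  have memD : ∀ z : K, z ∈ D ↔ (∃ a ∈ I, algebraMap A K a = z) ∧
      z * 𝓜.t⁻¹ ^ (N + m₀) ∈ 𝓜.O := by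
    intro z
    simp [D, mem_LI]
  let Γ : K →ₗ[A] K := LinearMap.mulLeft A g
  let ΓF : K →ₗ[ZMod p] K := Γ.restrictScalars (ZMod p)
  have hΓF : ∀ z, ΓF z = g * z := fun z => rfl
  have memD' : ∀ z : K, z ∈ D.map ΓF ↔ (∃ a ∈ J, algebraMap A K a = z) ∧
      z * 𝓜.t⁻¹ ^ (N + m₀) ∈ 𝓜.O := by
    intro z
    rw [Submodule.mem_map]
    constructor
    · rintro ⟨d, hd, rfl⟩
      rw [memD] at hd
      rw [hΓF, hgmem]
      exact ⟨(hIJ d).mp hd.1, hd.2⟩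
    · rintro ⟨h1, h2⟩
      refine ⟨g⁻¹ * z, ?_, by rw [hΓF]; field_simp⟩
      rw [memD, hIJ, ← hgmem, mul_inv_cancel_left₀ hg0]
      exact ⟨h1, h2⟩
  have hEfin : FiniteDimensional (ZMod p) E := by
    have : Finite E := (𝓜.finite_LI hA ⊤ (N + m₀)).to_subtype
    infer_instance
  have h₀ : E₀ ≤ E := by
    intro z hz
    rw [memE₀] at hz
    rw [memE]
    exact ⟨hz.1, 𝓜.mem_O_mono (by omega) hz.2⟩
  have hD : D ≤ E := by
    intro z hz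
    rw [memD] at hz
    rw [memE]
    exact ⟨by obtain ⟨⟨a, _, h⟩, _⟩ := hz; exact ⟨a, h⟩, hz.2⟩
  have hD' : D.map ΓF ≤ E := by
    intro z hz
    rw [memD'] at hz
    rw [memE]
    exact ⟨by obtain ⟨⟨a, _, h⟩, _⟩ := hz; exact ⟨a, h⟩, hz.2⟩
  -- the embedding of `A`
  let α : A →ₗ[A] K := Algebra.linearMap A K
  have hα : Function.Injective α := hinj
  have hαF : Function.Injective ((α.restrictScalars (ZMod p)).baseChange R) :=
    Module.Flat.lTensor_preserves_injective_linearMap (α.restrictScalars (ZMod p)) hα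
  have hErange : ∀ e : E, E.subtype e ∈ LinearMap.range (α.restrictScalars (ZMod p)) := by
    intro e
    obtain ⟨⟨a, ha⟩, _⟩ := (memE _).mp e.2
    exact ⟨a, ha⟩
  obtain ⟨jE, hjE⟩ := exists_lift (α.restrictScalars (ZMod p)) hα E.subtype hErange
  have hjE2 : (α.restrictScalars (ZMod p)) ∘ₗ jE = E.subtype := LinearMap.ext hjE
  have hjE' : ∀ y : R ⊗[ZMod p] E, (α.restrictScalars (ZMod p)).baseChange R (jE.baseChange R y) =
      inc R E y := by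
    intro y
    rw [← LinearMap.comp_apply, ← LinearMap.baseChange_comp, hjE2]
  -- general properties of the quotient maps
  have key : ∀ (I' : Ideal A) (e : E) (y : R ⊗[ZMod p] E),
      inc R E y = act p A H K f (1 ⊗ₜ[ZMod p] (e : K)) →
      (((Submodule.mkQ I').restrictScalars (ZMod p)) ∘ₗ jE).baseChange R y =
        act p A H (A ⧸ I') f (1 ⊗ₜ (((Submodule.mkQ I').restrictScalars (ZMod p)) ∘ₗ jE) e) := by
    intro I' e y hy
    have h1 : jE.baseChange R y = act p A H A f (1 ⊗ₜ jE e) := by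
      refine hαF ?_
      rw [hjE', hy]
      have h2 := LinearMap.congr_fun (act_natural p α f) (1 ⊗ₜ[ZMod p] jE e)
      rw [LinearMap.comp_apply, LinearMap.comp_apply, LinearMap.baseChange_tmul, hjE e] at h2
      exact h2.symm
    rw [LinearMap.baseChange_comp, LinearMap.comp_apply, h1]
    have h2 := LinearMap.congr_fun (act_natural p (Submodule.mkQ I') f) (1 ⊗ₜ[ZMod p] jE e)
    rw [LinearMap.comp_apply, LinearMap.comp_apply, LinearMap.baseChange_tmul] at h2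
    exact h2
  have hker : ∀ (I' : Ideal A) (e : E), (((Submodule.mkQ I').restrictScalars (ZMod p)) ∘ₗ jE) e = 0 ↔
      ∃ a ∈ I', algebraMap A K a = e := by
    intro I' e
    rw [LinearMap.comp_apply, LinearMap.restrictScalars_apply, Submodule.mkQ_apply,
      Submodule.Quotient.mk_eq_zero]
    constructor
    · intro h
      exact ⟨_, h, hjE e⟩
    · rintro ⟨a, ha, hae⟩
      have : jE e = a := hinj ((hjE e).trans hae.symm)
      rw [this]; exact ha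
  have hsurj : ∀ (I' : Ideal A), (∀ a : A, ∃ b : A, a - b ∈ I' ∧
      algebraMap A K b * 𝓜.t⁻¹ ^ N ∈ 𝓜.O) →
      Function.Surjective (((Submodule.mkQ I').restrictScalars (ZMod p)) ∘ₗ jE) := by
    intro I' hI' c
    induction c using Submodule.Quotient.induction_on with | _ c
    obtain ⟨b, hb, hbN⟩ := hI' c
    have hbE : algebraMap A K b ∈ E := (memE _).mpr ⟨⟨b, rfl⟩, 𝓜.mem_O_mono (by omega) hbN⟩
    refine ⟨⟨_, hbE⟩, ?_⟩
    have : jE ⟨_, hbE⟩ = b := hinj (hjE ⟨_, hbE⟩)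
    rw [LinearMap.comp_apply, LinearMap.restrictScalars_apply, Submodule.mkQ_apply, this]
    exact ((Submodule.Quotient.eq I').mpr hb).symm
  have hsup : ∀ (I' : Ideal A) (D' : Submodule (ZMod p) K) (_ : D' ≤ E)
      (_ : ∀ z : K, z ∈ D' ↔ (∃ a ∈ I', algebraMap A K a = z) ∧ z * 𝓜.t⁻¹ ^ (N + m₀) ∈ 𝓜.O),
      (∀ a : A, ∃ b : A, a - b ∈ I' ∧ algebraMap A K b * 𝓜.t⁻¹ ^ N ∈ 𝓜.O) → E₀ ⊔ D' = E := by
    intro I' D' hD'E hD'mem hI'
    refine le_antisymm (sup_le h₀ hD'E) fun z hz => ?_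
    obtain ⟨⟨a, rfl⟩, haN⟩ := (memE z).mp hz
    obtain ⟨b, hb, hbN⟩ := hI' a
    have h1 : algebraMap A K b ∈ E₀ := (memE₀ _).mpr ⟨⟨b, rfl⟩, hbN⟩
    have h2 : algebraMap A K (a - b) ∈ D' := by
      rw [hD'mem]
      refine ⟨⟨_, hb, rfl⟩, ?_⟩
      rw [map_sub, sub_mul]
      exact 𝓜.O.sub_mem haN (𝓜.mem_O_mono (by omega) hbN)
    have h3 : algebraMap A K a = algebraMap A K b + algebraMap A K (a - b) := by
      rw [map_sub]; ring
    rw [h3]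
    exact Submodule.add_mem_sup h1 h2
  have hI1 : ∀ a : A, ∃ b : A, a - b ∈ I ∧ algebraMap A K b * 𝓜.t⁻¹ ^ N ∈ 𝓜.O := fun a => by
    obtain ⟨b, hb, hbN⟩ := hN₁ a
    exact ⟨b, hb, 𝓜.mem_O_mono (by omega) hbN⟩
  have hJ1 : ∀ a : A, ∃ b : A, a - b ∈ J ∧ algebraMap A K b * 𝓜.t⁻¹ ^ N ∈ 𝓜.O := fun a => by
    obtain ⟨b, hb, hbN⟩ := hN₂ a
    exact ⟨b, hb, 𝓜.mem_O_mono (by omega) hbN⟩
  have hsm : ∀ (a : A) (z : K), a • z = algebraMap A K a * z := fun a z => Algebra.smul_def a z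
  refine core_det (aug (ZMod p) H) (isUnit_of_aug p n hH) (act p A H K f) (act p A H K f')
    ?_ ΓF (mul_right_injective₀ hg0) ?_ ?_ E₀ E D h₀ hD hD' ?_ ?_
    (hsup I D hD memD hI1) (hsup J _ hD' memD' hJ1) ?_ ?_
    (((Submodule.mkQ I).restrictScalars (ZMod p)) ∘ₗ jE)
    (((Submodule.mkQ J).restrictScalars (ZMod p)) ∘ₗ jE) (hsurj I hI1) (hsurj J hJ1) ?_ ?_
    (act p A H (A ⧸ I) f) (act p A H (A ⧸ J) f) ?_ ?_
  · intro x
    rw [← Module.End.mul_apply, ← map_mul, hff', map_one, Module.End.one_apply]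
  · intro x
    exact (LinearMap.congr_fun (act_natural p Γ f) x).symm
  · intro z
    rw [augMap_act, hf, one_smul]
  · intro e he
    obtain ⟨⟨a, rfl⟩, haN⟩ := (memE₀ e).mp he
    refine act_one_tmul_mem p f _ E fun x => (memE _).mpr ⟨⟨f.coeff x * a, ?_⟩, ?_⟩
    · rw [hsm, map_mul]
    · rw [hsm, pow_add]
      have := 𝓜.O.mul_mem (hf₀ x) haN
      convert this using 1
      ring
  · intro d hd hd0
    obtain ⟨⟨a, haI, rfl⟩, _⟩ := (memD d).mp hd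
    obtain ⟨_, haN⟩ := (memE₀ _).mp hd0
    refine act_one_tmul_mem p f _ D fun x => (memD _).mpr
      ⟨⟨f.coeff x * a, I.mul_mem_left _ haI, ?_⟩, ?_⟩
    · rw [hsm, map_mul]
    · rw [hsm, pow_add]
      have := 𝓜.O.mul_mem (hf₀ x) haN
      convert this using 1
      ring
  · intro d hd
    obtain ⟨⟨a, haI, rfl⟩, _⟩ := (memD d).mp hd
    rw [memE₀, memE₀, hΓF, hgmem]
    constructor
    · rintro ⟨_, h⟩
      exact ⟨⟨a, rfl⟩, h⟩
    · rintro ⟨_, h⟩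
      obtain ⟨b, _, hb⟩ := (hIJ _).mp ⟨a, haI, rfl⟩
      exact ⟨⟨b, hb⟩, h⟩
  · intro d hd
    obtain ⟨⟨a, haI, rfl⟩, haN⟩ := (memD d).mp hd
    obtain ⟨b, _, hb⟩ := (hIJ _).mp ⟨a, haI, rfl⟩
    refine act_one_tmul_mem p f' _ E₀ fun x => (memE₀ _).mpr ⟨⟨f'.coeff x * (b - a), ?_⟩, ?_⟩
    · rw [hsm, map_mul, map_sub, hb, hΓF]
    · rw [hsm, hΓF]
      have := 𝓜.O.mul_mem (𝓜.O.mul_mem (hf'₀ x) haN) hg
      convert this using 1
      have ht := 𝓜.t_ne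
      have h1 : 𝓜.t⁻¹ ^ (N + m₀) = 𝓜.t⁻¹ ^ N * 𝓜.t⁻¹ ^ m₀ := pow_add _ _ _
      have h2 : 𝓜.t⁻¹ ^ m₀ * 𝓜.t⁻¹ ^ m₀ * 𝓜.t ^ (2 * m₀) = 1 := by
        rw [← pow_add, ← two_mul, ← mul_pow, inv_mul_cancel₀ ht, one_pow]
      calc algebraMap A K (f'.coeff x) * (g * algebraMap A K a - algebraMap A K a) * 𝓜.t⁻¹ ^ N
          = algebraMap A K (f'.coeff x) * algebraMap A K a * (g - 1) * 𝓜.t⁻¹ ^ N * 1 := by ring
        _ = _ := by rw [← h2, h1]; ring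
  · intro e
    rw [hker, memD]
    exact ⟨fun h => ⟨h, ((memE _).mp e.2).2⟩, fun h => h.1⟩
  · intro e
    rw [hker, memD']
    exact ⟨fun h => ⟨h, ((memE _).mp e.2).2⟩, fun h => h.1⟩
  · intro e _ y hy
    exact key I e y hy
  · intro e _ y hy
    exact key J e y hy

end Model

end Pool.Agent.Helper7
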