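import Pool.Agent.Helper7.Glue

set_option autoImplicit false

namespace Pool.Agent.Helper7

open UniqueFactorizationMonoid

namespace PlaceModel

variable {K : Type*} [Field K] {S : Set (ValuationSubring K)} (𝓟 : PlaceModel K S)

/-- The Artin symbol of an ideal. -/
noncomputable def sig {p : ℕ} [Fact p.Prime] (a : ValuationSubring K → ℤ_[p])
    (I : Ideal 𝓟.M.A) : ℤ_[p] :=
  letI := 𝓟.M.ded
  ((normalizedFactors I).map fun P => a (𝓟.place P)).sum

end PlaceModel

section tower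

variable {p : ℕ} [Fact p.Prime] {k K Ω : Type*} [Field k] [Finite k] [CharP k p]
    [Field K] [Field Ω] [Algebra k K] [Algebra K Ω] [Algebra k Ω] [IsScalarTower k K Ω]

/-- `a` gives the Frobenius elements of the tower. -/
def IsFrob (T : ZpTower p k K Ω) (a : ValuationSubring K → ℤ_[p]) : Prop :=
  ∀ v : ValuationSubring K, v ≠ ⊤ → v ∉ T.ramificationLocus → ∀ n : ℕ,
      (∀ w : ValuationSubring (T.field n), w.comap (algebraMap K (T.field n)) = v →
        (∀ z ∈ w, ∀ z' : T.field n, (z' : Ω) =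
            T.galEquiv.symm (Multiplicative.ofAdd (a v)) (z : Ω) →
          z' - z ^ Nat.card (IsLocalRing.ResidueField v) ∈ w.nonunits) ∧
        Nat.card (IsLocalRing.ResidueField w) =
          Nat.card (IsLocalRing.ResidueField v) ^ addOrderOf (PadicInt.toZModPow n (a v))) ∧
      Nat.card {w : ValuationSubring (T.field n) // w.comap (algebraMap K (T.field n)) = v} *
        addOrderOf (PadicInt.toZModPow n (a v)) = p ^ n

theorem exists_isFrob (T : ZpTower p k K Ω) : ∃ a, IsFrob T a := by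
  classical
  have h : ∀ v : ValuationSubring K, v ≠ ⊤ ∧ v ∉ T.ramificationLocus → _ := fun v hv =>
    T.exists_frobenius (fun w hw => T.dvr w hw) (fun n w hw => T.dvr_field n w hw) v hv.1 hv.2
  choose! a ha using h
  exact ⟨a, fun v h1 h2 => ha v ⟨h1, h2⟩⟩

theorem comap_nonunits {L : Type*} [Field L] [Algebra K L] (w : ValuationSubring L) (x : K) :
    x ∈ (w.comap (algebraMap K L)).nonunits ↔ algebraMap K L x ∈ w.nonunits := by
  rw [ValuationSubring.mem_nonunits_iff_or, ValuationSubring.mem_nonunits_iff_or,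
    map_eq_zero, ValuationSubring.mem_comap, map_inv₀]

theorem comap_ne_top {L : Type*} [Field L] [Algebra K L] [Algebra.IsAlgebraic K L]
    (w : ValuationSubring L) (hw : w ≠ ⊤) : w.comap (algebraMap K L) ≠ ⊤ := by
  intro h
  apply hw
  have hK : ∀ x : K, algebraMap K L x ∈ w := fun x => by
    have : x ∈ w.comap (algebraMap K L) := by rw [h]; trivial
    exact this
  rw [eq_top_iff]
  intro z _
  let iK : K →+* w := (algebraMap K L).codRestrict w.toSubring hK
  let _ : Algebra K w := iK.toAlgebra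
  have htower : IsScalarTower K w L := IsScalarTower.of_algebraMap_eq fun _ => rfl
  have h2 : IsIntegral w z := (Algebra.IsIntegral.isIntegral (R := K) z).tower_top
  obtain ⟨y, hy⟩ := IsIntegrallyClosed.isIntegral_iff.mp h2
  rw [← hy]
  exact y.2

theorem tower_recip (T : ZpTower p k K Ω) (a : ValuationSubring K → ℤ_[p]) (ha : IsFrob T a)
    {S : Set (ValuationSubring K)} (hS : T.ramificationLocus ⊆ S) (𝓟 : PlaceModel K S) (n : ℕ) :
    ∃ m : ℕ, ∀ (g : K) (I J : Ideal 𝓟.M.A), g ≠ 0 → (g - 1) * 𝓟.M.t ^ m ∈ 𝓟.M.O →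
      I ≠ ⊥ → J ≠ ⊥ →
      (∀ x : K, (∃ y ∈ I, (y : K) = x) ↔ ∃ y ∈ J, (y : K) = g * x) →
      PadicInt.toZModPow n (𝓟.sig a I) = PadicInt.toZModPow n (𝓟.sig a J) := by
  have hded : IsDedekindDomain 𝓟.M.A := 𝓟.M.ded
  have hfrac : IsFractionRing 𝓟.M.A K := 𝓟.M.frac
  obtain ⟨hfd, hrank, hgal, -⟩ := T.finrank_field n
  have htower : IsScalarTower 𝓟.M.A K (T.field n) := inferInstance
  have hcharK : CharP K p := charP_of_injective_algebraMap (algebraMap k K).injective p
  have hcharL : CharP (T.field n) p :=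
    charP_of_injective_algebraMap (algebraMap K (T.field n)).injective p
  obtain ⟨e, he⟩ := T.exists_layerEquiv n
  have hNe : NeZero (p ^ n) := ⟨pow_ne_zero _ (Fact.out (p := p.Prime)).ne_zero⟩
  have hHfin : Finite (Multiplicative (ZMod (p ^ n))) :=
    inferInstanceAs (Finite (ZMod (p ^ n)))
  have hH : ∀ h : Multiplicative (ZMod (p ^ n)), h ^ p ^ n = 1 := by
    intro h
    obtain ⟨x, rfl⟩ := Multiplicative.ofAdd.surjective h
    rw [← ofAdd_nsmul, nsmul_eq_mul, ZMod.natCast_self, zero_mul, ofAdd_zero]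
  -- existence of a place above each prime
  have hplace : ∀ P : Ideal 𝓟.M.A, P.IsPrime → P ≠ ⊥ → ∃ w : ValuationSubring (T.field n),
      w.comap (algebraMap K (T.field n)) = 𝓟.place P := by
    intro P hP hP0
    obtain ⟨h1, h2⟩ := 𝓟.place_spec ⟨hP, hP0⟩
    have h3 := (ha (𝓟.place P) h1 (fun h => h2 (hS h)) n).2
    by_contra hcon
    push Not at hcon
    have : IsEmpty {w : ValuationSubring (T.field n) //
        w.comap (algebraMap K (T.field n)) = 𝓟.place P} := ⟨fun w => hcon w.1 w.2⟩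
    rw [Nat.card_of_isEmpty, zero_mul] at h3
    exact hNe.out h3.symm
  choose! w hw using hplace
  let σ : Ideal 𝓟.M.A → Multiplicative (ZMod (p ^ n)) := fun P =>
    Multiplicative.ofAdd (PadicInt.toZModPow n (a (𝓟.place P)))
  have hartin : ∀ I : Ideal 𝓟.M.A, artin σ I =
      Multiplicative.ofAdd (PadicInt.toZModPow n (𝓟.sig a I)) := by
    intro I
    rw [artin, PlaceModel.sig, map_multiset_sum, Multiset.map_map]
    rw [ofAdd_multiset_prod, Multiset.map_map]
    rfl
  have hfree : ∀ Q : Ideal (integralClosure 𝓟.M.A (T.field n)), Q.IsMaximal →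
      ∀ h : Multiplicative (ZMod (p ^ n)), h ≠ 1 → ∃ b : integralClosure 𝓟.M.A (T.field n),
        galRestrict 𝓟.M.A K (T.field n) (integralClosure 𝓟.M.A (T.field n)) (e h) b - b ∉ Q := by
    intro Q hQ h hh
    refine exists_not_mem_of_unramified p (T.dvr_field n) (fun w' hw' hAw => ?_) Q hQ (e h) ?_
    · by_contra hcon
      have h1 := comap_ne_top (K := K) w' hw'
      refine 𝓟.not_mem _ h1 (fun y => ?_) (hS ⟨h1, n, w', rfl, hcon⟩)
      exact hAw y
    · intro h1
      exact hh (e.injective (h1.trans (map_one e).symm))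
  have hwP : ∀ P : Ideal 𝓟.M.A, P.IsPrime → P ≠ ⊥ → ∀ y : 𝓟.M.A,
      algebraMap 𝓟.M.A (T.field n) y ∈ w P ∧
      (y ∈ P ↔ algebraMap 𝓟.M.A (T.field n) y ∈ (w P).nonunits) := by
    intro P hP hP0 y
    obtain ⟨h1, h2⟩ := 𝓟.place_spec ⟨hP, hP0⟩
    constructor
    · have h3 : (y : K) ∈ (w P).comap (algebraMap K (T.field n)) := by
        rw [hw P hP hP0]
        exact 𝓟.sub _ h1 h2 y
      exact h3
    · rw [𝓟.mem_place ⟨hP, hP0⟩, ← hw P hP hP0, comap_nonunits]
      rfl
  have hσP : ∀ P : Ideal 𝓟.M.A, P.IsPrime → P ≠ ⊥ → ∀ z ∈ w P,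
      e (σ P) z - z ^ Nat.card (𝓟.M.A ⧸ P) ∈ (w P).nonunits := by
    intro P hP hP0 z hz
    obtain ⟨h1, h2⟩ := 𝓟.place_spec ⟨hP, hP0⟩
    have h3 := ((ha (𝓟.place P) h1 (fun h => h2 (hS h)) n).1 (w P) (hw P hP hP0)).1 z hz
      (e (σ P) z) (he _ z)
    rw [𝓟.card_place ⟨hP, hP0⟩]
    exact h3
  obtain ⟨m, hm⟩ := artin_recip p (L := T.field n) 𝓟.M (A := 𝓟.M.A) (fun y => y.2)
    (fun I hI => 𝓟.M.finite_quotient I hI) n hH e hfree σ w hwP hσP
  refine ⟨m, fun g I J hg0 hg hI hJ hIJ => ?_⟩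
  have h1 := hm g I J hg0 hg hI hJ hIJ
  rw [hartin, hartin] at h1
  exact Multiplicative.ofAdd.injective h1

end tower

end Pool.Agent.Helper7
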