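import Pool.Agent.Helper7.Rat
import Pool.Agent.Helper7.Final

set_option autoImplicit false

namespace Pool.Agent.Helper7

open Polynomial

section tower

variable {p : ℕ} [Fact p.Prime] {k K Ω : Type*} [Field k] [Finite k] [CharP k p]
    [Field K] [Field Ω] [Algebra k K] [Algebra K Ω] [Algebra k Ω] [IsScalarTower k K Ω]

/-- The zeta function of every layer is rational. -/
theorem ZpTower.exists_zetaNumerator (T : ZpTower p k K Ω) (n : ℕ) :
    ∃ P : ℤ[X], IsZetaNumerator (Nat.card k) (T.field n) P := by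
  obtain ⟨t, ht, hfin⟩ := T.functionField
  obtain ⟨hfd, -, -, -⟩ := T.finrank_field n
  have ht' : Transcendental k (algebraMap K (T.field n) t) :=
    (transcendental_algebraMap_iff (algebraMap K (T.field n)).injective).mpr ht
  refine Pool.Agent.Helper7.exists_zetaNumerator _ ht' (finiteDimensional_adjoin_algebraMap t hfin)
    fun x hx => ?_
  have hst : IsScalarTower k (T.field n) Ω := IsScalarTower.of_algebraMap_eq fun _ => rfl
  have h1 : IsAlgebraic k (algebraMap (T.field n) Ω x) := hx.algebraMap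
  obtain ⟨c, hc⟩ := T.constants _ h1
  refine ⟨c, (algebraMap (T.field n) Ω).injective ?_⟩
  rw [← hc, ← IsScalarTower.algebraMap_apply]

/-- The numerator of the zeta function is unique. -/
theorem IsZetaNumerator.unique {q : ℕ} {F : Type*} [Field F] {P P' : ℤ[X]}
    (h : IsZetaNumerator q F P) (h' : IsZetaNumerator q F P') : P = P' := by
  rw [← sub_eq_zero]
  by_contra hne
  set N := (P - P').natDegree with hN
  have h1 := dvd_sub (h N) (h' N)
  rw [sub_sub_sub_cancel_right, ← sub_mul] at h1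
  have h2 : IsCoprime ((X : ℤ[X]) ^ (N + 1))
      (∏ d ∈ Finset.Icc 1 N, (1 - (X : ℤ[X]) ^ d) ^ numPoints q F d) := by
    refine IsCoprime.prod_right fun d hd => ?_
    refine IsCoprime.pow ?_
    obtain ⟨e, rfl⟩ : ∃ e, d = e + 1 := ⟨d - 1, by have := (Finset.mem_Icc.mp hd).1; omega⟩
    exact ⟨X ^ e, 1, by ring⟩
  have h3 := h2.dvd_of_dvd_mul_right h1
  have h4 := Polynomial.natDegree_le_of_dvd h3 hne
  rw [natDegree_X_pow] at h4
  omega

/-- The unconditional statement. -/
theorem ZpTower.main (T : ZpTower p k K Ω) (hS : T.ramificationLocus.Finite) :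
    ∃ C : ℕ, 0 < C ∧ ∀ n : ℕ, (∃! P : ℤ[X], IsZetaNumerator (Nat.card k) (T.field n) P) ∧
      ∀ P : ℤ[X], IsZetaNumerator (Nat.card k) (T.field n) P →
        p ^ n ≤ C * ramIdx p (splittingFieldQp p P) := by
  choose P hP using fun n => T.exists_zetaNumerator n
  obtain ⟨C, hC, h⟩ := ramIdx_growth T hS P hP
  refine ⟨C, hC, fun n => ⟨⟨P n, hP n, fun P' hP' => hP'.unique (hP n)⟩, fun P' hP' => ?_⟩⟩
  rw [hP'.unique (hP n)]
  exact h n

end tower

end Pool.Agent.Helper7
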